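import Mathlib

/-!
The splitting conjecture for Chow motives, standard conjecture D and conservativity.
-/

open CategoryTheory

set_option linter.unusedSectionVars false

namespace Pool.Agent.Results.MP_a147f7_ag.Conservativity

universe v u

/-- A category of motives `C` with a realization: functors `H i` to `F`-vector spaces, a unit object
and internal Hom objects. -/
structure Realization (C : Type u) [Category.{v} C] [Preadditive C] [Linear ℚ C]
    (F : Type) [Field F] where
  /-- the homology in degree `i` -/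
  H : ℤ → C ⥤ ModuleCat.{0} F
  /-- the unit object -/
  one : C
  /-- the object `M^∨ ⊗ N` -/
  hom : C → C → C
  /-- `Hom(M, N) = Hom(1, M^∨ ⊗ N)` -/
  coev : ∀ M N : C, (M ⟶ N) → (one ⟶ hom M N)
  /-- `Hom(N, M) = Hom(M^∨ ⊗ N, 1)` -/
  ev : ∀ M N : C, (N ⟶ M) → (hom M N ⟶ one)

variable {C : Type u} [Category.{v} C] [Preadditive C] [Linear ℚ C] {F : Type} [Field F]

/-- The trace of `H_i(f)`. -/
noncomputable def trH (R : Realization C F) (i : ℤ) {M : C} (f : M ⟶ M) : F :=
  LinearMap.trace F ((R.H i).obj M) ((R.H i).map f).hom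

/-- The alternating sum of the traces of `f` on `H_i(M)`. -/
noncomputable def str (R : Realization C F) {M : C} (f : M ⟶ M) : F :=
  ∑ᶠ i : ℤ, (-1 : F) ^ i * trH R i f

/-- `f` is homologically trivial. -/
def HomTriv (R : Realization C F) {M N : C} (f : M ⟶ N) : Prop := ∀ i, (R.H i).map f = 0

/-- The standard facts on the realization. -/
structure Laws (R : Realization C F) : Prop where
  /-- the functors are additive -/
  add : ∀ i (M N : C) (f g : M ⟶ N), (R.H i).map (f + g) = (R.H i).map f + (R.H i).map g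
  /-- homology is finite-dimensional -/
  fin : ∀ i M, FiniteDimensional F ((R.H i).obj M)
  /-- homology vanishes in almost all degrees -/
  bdd : ∀ M, ∃ b : ℕ, ∀ i : ℤ, (b : ℤ) < |i| → Subsingleton ((R.H i).obj M)
  /-- the alternating sums of the traces are rational (Lefschetz trace formula) -/
  rat : ∀ (M : C) (f : M ⟶ M), ∃ t : ℚ, str R f = (t : F)
  /-- the homology of the unit object -/
  one_zero : Module.finrank F ((R.H 0).obj R.one) = 1
  one_ne : ∀ i, i ≠ 0 → Subsingleton ((R.H i).obj R.one)
  /-- every morphism from `M^∨ ⊗ N` to `1` comes from a morphism from `N` to `M` -/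
  ev_surj : ∀ M N (w : R.hom M N ⟶ R.one), ∃ g : N ⟶ M, R.ev M N g = w
  /-- the composition `1 → M^∨ ⊗ N → 1` given by `f : M → N` and `g : N → M` is the trace of `g f` -/
  ev_coev : ∀ M N (f : M ⟶ N) (g : N ⟶ M) (t : ℚ), str R (f ≫ g) = (t : F) →
    R.coev M N f ≫ R.ev M N g = t • 𝟙 R.one
  /-- a morphism is homologically trivial if its adjoint is -/
  coev_triv : ∀ M N (f : M ⟶ N), HomTriv R (R.coev M N f) → HomTriv R f

/-- Every numerically trivial morphism from `M` to `N` (all `g : N → M` give `g f` the trace zero) is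
homologically trivial. -/
def NumHom (R : Realization C F) (M N : C) : Prop :=
  ∀ f : M ⟶ N, (∀ g : N ⟶ M, str R (f ≫ g) = 0) → HomTriv R f

/-- `1 - n` is invertible for all homologically trivial endomorphisms `n` of `M`: the homologically
trivial endomorphisms lie in the Jacobson radical. -/
def RadTriv (R : Realization C F) (M : C) : Prop :=
  ∀ n : M ⟶ M, HomTriv R n → IsIso (𝟙 M - n)

/-- `f` splits. -/
def Splits {M N : C} (f : M ⟶ N) : Prop := ∃ g : N ⟶ M, f ≫ g = 𝟙 M

/-- `H(f)` is injective. -/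
def InjH (R : Realization C F) {M N : C} (f : M ⟶ N) : Prop :=
  ∀ i, Function.Injective ((R.H i).map f).hom

/-- Every morphism from `M` which is injective on homology splits. -/
def SplittingFrom (R : Realization C F) (M : C) : Prop :=
  ∀ (N : C) (f : M ⟶ N), InjH R f → Splits f

/-- Standard conjecture D: numerically trivial morphisms are homologically trivial. -/
def StandardD (R : Realization C F) : Prop := ∀ M N : C, NumHom R M N

/-- The realization is conservative: it reflects isomorphisms. -/
def Conservative (R : Realization C F) : Prop :=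
  ∀ (M N : C) (f : M ⟶ N), (∀ i, Function.Bijective ((R.H i).map f).hom) → IsIso f

section core

variable {R : Realization C F}

theorem map_zero' (L : Laws R) (i : ℤ) (M N : C) : (R.H i).map (0 : M ⟶ N) = 0 := by
  have h := L.add i M N 0 0
  rw [add_zero] at h
  exact left_eq_add.1 h

theorem map_neg' (L : Laws R) (i : ℤ) {M N : C} (f : M ⟶ N) :
    (R.H i).map (-f) = -(R.H i).map f := by
  have h := L.add i M N f (-f)
  rw [add_neg_cancel, map_zero' L] at h
  exact (neg_eq_of_add_eq_zero_right h.symm).symm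

theorem map_sub' (L : Laws R) (i : ℤ) {M N : C} (f g : M ⟶ N) :
    (R.H i).map (f - g) = (R.H i).map f - (R.H i).map g := by
  rw [sub_eq_add_neg, L.add, map_neg' L, sub_eq_add_neg]

theorem trH_zero_of_subsingleton {M : C} (i : ℤ) (h : Subsingleton ((R.H i).obj M))
    (f : M ⟶ M) : trH R i f = 0 := by
  unfold trH
  rw [Subsingleton.elim ((R.H i).map f).hom 0, map_zero]

theorem str_eq_sum {M : C} {b : ℕ} (hb : ∀ i : ℤ, (b : ℤ) < |i| → Subsingleton ((R.H i).obj M))
    (f : M ⟶ M) : str R f = ∑ i ∈ Finset.Icc (-(b : ℤ)) b, (-1 : F) ^ i * trH R i f := by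
  unfold str
  apply finsum_eq_sum_of_support_subset
  intro i hi
  rw [Function.mem_support] at hi
  rw [Finset.coe_Icc, Set.mem_Icc]
  by_contra h
  apply hi
  have h1 : (b : ℤ) < |i| := by
    by_contra h2
    push Not at h2
    exact h (abs_le.mp h2)
  rw [trH_zero_of_subsingleton i (hb i h1), mul_zero]

theorem trH_add (L : Laws R) {M : C} (i : ℤ) (f g : M ⟶ M) :
    trH R i (f + g) = trH R i f + trH R i g := by
  unfold trH
  rw [L.add, ModuleCat.hom_add, map_add]

theorem str_add (L : Laws R) {M : C} (f g : M ⟶ M) : str R (f + g) = str R f + str R g := by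
  obtain ⟨b, hb⟩ := L.bdd M
  rw [str_eq_sum hb, str_eq_sum hb, str_eq_sum hb, ← Finset.sum_add_distrib]
  refine Finset.sum_congr rfl fun i _ => ?_
  rw [trH_add L, mul_add]

theorem trH_comm (L : Laws R) {M N : C} (i : ℤ) (f : M ⟶ N) (g : N ⟶ M) :
    trH R i (f ≫ g) = trH R i (g ≫ f) := by
  have := L.fin i M
  have := L.fin i N
  unfold trH
  rw [Functor.map_comp, Functor.map_comp, ModuleCat.hom_comp, ModuleCat.hom_comp]
  exact LinearMap.trace_comp_comm' _ _

theorem str_comm (L : Laws R) {M N : C} (f : M ⟶ N) (g : N ⟶ M) :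
    str R (f ≫ g) = str R (g ≫ f) := by
  unfold str
  exact finsum_congr fun i => by rw [trH_comm L]

theorem str_triv {M : C} {f : M ⟶ M} (h : HomTriv R f) : str R f = 0 := by
  unfold str
  rw [← finsum_zero (α := ℤ)]
  refine finsum_congr fun i => ?_
  unfold trH
  rw [h i, ModuleCat.hom_zero, map_zero, mul_zero]

theorem triv_comp_left {M N P : C} {f : M ⟶ N} (h : HomTriv R f) (g : N ⟶ P) :
    HomTriv R (f ≫ g) := by
  intro i
  rw [Functor.map_comp, h i, Limits.zero_comp]

theorem triv_comp_right {M N P : C} (f : M ⟶ N) {g : N ⟶ P} (h : HomTriv R g) :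
    HomTriv R (f ≫ g) := by
  intro i
  rw [Functor.map_comp, h i, Limits.comp_zero]

variable [CharZero F]

/-- The rational trace. -/
noncomputable def rtr (L : Laws R) (M : C) : (M ⟶ M) →+ ℚ where
  toFun f := Classical.choose (L.rat M f)
  map_zero' := by
    have h : str R (0 : M ⟶ M) = _ := Classical.choose_spec (L.rat M (0 : M ⟶ M))
    have h0 : str R (0 : M ⟶ M) = 0 := str_triv fun i => map_zero' L i M M
    have h1 := h.symm.trans h0
    exact_mod_cast h1
  map_add' f g := by
    have h := (Classical.choose_spec (L.rat M (f + g))).symm.trans (str_add L f g)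
    have h1 := Classical.choose_spec (L.rat M f)
    have h2 := Classical.choose_spec (L.rat M g)
    have h3 := h.trans (congrArg₂ (· + ·) h1 h2)
    exact_mod_cast h3

theorem rtr_spec (L : Laws R) {M : C} (f : M ⟶ M) : str R f = ((rtr L M f : ℚ) : F) :=
  Classical.choose_spec (L.rat M f)

theorem rtr_eq_zero (L : Laws R) {M : C} (f : M ⟶ M) : rtr L M f = 0 ↔ str R f = 0 := by
  rw [rtr_spec L f]
  exact_mod_cast Iff.rfl

/-- There are finitely many endomorphisms `e j` of `M` such that `y` is homologically trivial if the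
traces of all `e j ≫ y` are zero, provided that numerically trivial endomorphisms of `M` are
homologically trivial. -/
theorem exists_finite (L : Laws R) (M : C)
    (hD : ∀ f : M ⟶ M, (∀ g : M ⟶ M, str R (f ≫ g) = 0) → HomTriv R f) :
    ∃ (J : Type) (_ : Fintype J) (e : J → (M ⟶ M)),
      ∀ y : M ⟶ M, (∀ j, rtr L M (e j ≫ y) = 0) → HomTriv R y := by
  classical
  obtain ⟨b, hb⟩ := L.bdd M
  have : ∀ i, FiniteDimensional F ((R.H i).obj M) := fun i => L.fin i M
  let I : Finset ℤ := Finset.Icc (-(b : ℤ)) b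
  let W : Type := ∀ i : I, Module.End F ((R.H i).obj M)
  let ρ : (M ⟶ M) → W := fun f i => ((R.H i).map f).hom
  have hfg : (Submodule.span F (Set.range ρ)).FG := IsNoetherian.noetherian _
  obtain ⟨s, hs, hspan⟩ := (Submodule.fg_span_iff_fg_span_finset_subset _).1 hfg
  choose e he using fun j : s => hs j.2
  refine ⟨s, inferInstance, e, fun y hy => ?_⟩
  let lam : W →ₗ[F] F :=
    ∑ i : I, ((-1 : F) ^ (i : ℤ)) • ((LinearMap.trace F ((R.H i).obj M)) ∘ₗ
      (LinearMap.mulLeft F (((R.H i).map y).hom : Module.End F ((R.H i).obj M))) ∘ₗ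
        (LinearMap.proj i : W →ₗ[F] Module.End F ((R.H i).obj M)))
  have hlam : ∀ z : M ⟶ M, lam (ρ z) = str R (z ≫ y) := by
    intro z
    rw [str_eq_sum hb]
    rw [← Finset.sum_coe_sort (Finset.Icc (-(b : ℤ)) b)
      (fun i => (-1 : F) ^ i * trH R i (z ≫ y))]
    simp only [lam, LinearMap.sum_apply, LinearMap.smul_apply, LinearMap.comp_apply, smul_eq_mul]
    refine Finset.sum_congr rfl fun i _ => ?_
    unfold trH
    rw [Functor.map_comp, ModuleCat.hom_comp]
    rfl
  have h0 : ∀ w ∈ Submodule.span F (Set.range ρ), lam w = 0 := by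
    intro w hw
    rw [hspan] at hw
    have hle : Submodule.span F (s : Set W) ≤ LinearMap.ker lam := by
      rw [Submodule.span_le]
      intro w hw
      rw [SetLike.mem_coe, LinearMap.mem_ker]
      have h1 : ρ (e ⟨w, hw⟩) = w := he ⟨w, hw⟩
      rw [← h1, hlam, rtr_spec L, hy ⟨w, hw⟩, Rat.cast_zero]
    exact LinearMap.mem_ker.1 (hle hw)
  refine hD y fun z => ?_
  rw [str_comm L, ← hlam]
  exact h0 _ (Submodule.subset_span ⟨z, rfl⟩)

/-- A left inverse modulo homologically trivial endomorphisms. -/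
theorem exists_mod (L : Laws R) {M N : C} (f : M ⟶ N) (hf : InjH R f)
    (hD : ∀ f : M ⟶ M, (∀ g : M ⟶ M, str R (f ≫ g) = 0) → HomTriv R f)
    (hD' : ∀ f : M ⟶ N, (∀ g : N ⟶ M, str R (f ≫ g) = 0) → HomTriv R f) :
    ∃ g : N ⟶ M, HomTriv R (𝟙 M - f ≫ g) := by
  classical
  obtain ⟨J, _, e, he⟩ := exists_finite L M hD
  let Θ : (M ⟶ M) →ₗ[ℚ] (J → ℚ) :=
    LinearMap.pi fun j => (rtr L M).toRatLinearMap ∘ₗ Linear.leftComp ℚ M (e j)
  have hΘ : ∀ y j, Θ y j = rtr L M (e j ≫ y) := fun y j => rfl
  by_cases hmem : Θ (𝟙 M) ∈ (LinearMap.range (Linear.leftComp ℚ M f)).map Θ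
  · obtain ⟨_, ⟨g, rfl⟩, hg⟩ := hmem
    refine ⟨g, he _ fun j => ?_⟩
    rw [← hΘ, map_sub]
    have hg' : Θ (f ≫ g) = Θ (𝟙 M) := hg
    rw [hg', sub_self]
    rfl
  · exfalso
    obtain ⟨φ, hφ1, hφ2⟩ := Submodule.exists_le_ker_of_notMem hmem
    apply hφ1
    set x : M ⟶ M := ∑ j, φ (Pi.single j 1) • e j with hx
    have hxy : ∀ y : M ⟶ M, rtr L M (x ≫ y) = φ (Θ y) := by
      intro y
      rw [hx, Preadditive.sum_comp, map_sum, LinearMap.pi_apply_eq_sum_univ φ (Θ y)]
      refine Finset.sum_congr rfl fun j _ => ?_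
      rw [Linear.smul_comp, hΘ, smul_eq_mul]
      have h1 := map_rat_smul (rtr L M) (φ (Pi.single j 1)) (e j ≫ y)
      rw [h1, smul_eq_mul, mul_comm]
      congr 2
      ext k
      rw [Pi.single_apply]
      congr 1
      exact propext eq_comm
    have h1 : HomTriv R (x ≫ f) := by
      refine hD' _ fun g => ?_
      rw [Category.assoc, ← rtr_eq_zero L, hxy]
      exact LinearMap.mem_ker.1 (hφ2 ⟨f ≫ g, ⟨g, rfl⟩, rfl⟩)
    have h2 : HomTriv R x := by
      intro i
      have h3 := h1 i
      rw [Functor.map_comp] at h3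
      ext w
      apply hf i
      have h4 := congrArg (fun t => t.hom w) h3
      simpa using h4
    rw [← hxy, rtr_eq_zero L]
    exact str_triv (triv_comp_left h2 _)

theorem splits_of_mod {M N : C} (hM : RadTriv R M) (f : M ⟶ N) (g : N ⟶ M)
    (h : HomTriv R (𝟙 M - f ≫ g)) : Splits f := by
  have h1 := hM _ h
  rw [sub_sub_cancel] at h1
  exact ⟨g ≫ inv (f ≫ g), by rw [← Category.assoc, IsIso.hom_inv_id]⟩

theorem finrank_pos_one (L : Laws R) : Nontrivial ((R.H 0).obj R.one) := by
  apply Module.nontrivial_of_finrank_pos (R := F)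
  rw [L.one_zero]
  exact one_pos

theorem id_one_ne (L : Laws R) : 𝟙 R.one ≠ 0 := by
  intro h
  have hnt := finrank_pos_one L
  obtain ⟨x, hx⟩ := exists_ne (0 : (R.H 0).obj R.one)
  apply hx
  have h1 : (R.H 0).map (𝟙 R.one) = 0 := by rw [h, map_zero' L]
  rw [CategoryTheory.Functor.map_id] at h1
  have h2 := congrArg (fun t => t.hom x) h1
  simpa using h2

theorem standardD_of (L : Laws R) (h : SplittingFrom R R.one) : StandardD R := by
  intro M N f hf
  apply L.coev_triv
  by_contra hne
  have hinj : InjH R (R.coev M N f) := by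
    intro i
    by_cases hi : i = 0
    · subst hi
      have h0 : (R.H 0).map (R.coev M N f) ≠ 0 := by
        intro h0
        apply hne
        intro i
        by_cases hi : i = 0
        · subst hi
          exact h0
        · have := L.one_ne i hi
          ext x
          rw [Subsingleton.elim x 0, map_zero, map_zero]
      rw [← LinearMap.ker_eq_bot]
      have hfin := L.fin 0 R.one
      by_contra hk
      apply h0
      have h1 : LinearMap.ker ((R.H 0).map (R.coev M N f)).hom = ⊤ := by
        have h2 : 0 < Module.finrank F (LinearMap.ker ((R.H 0).map (R.coev M N f)).hom) := by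
          rw [Module.finrank_pos_iff]
          exact (Submodule.nontrivial_iff_ne_bot).2 hk
        apply Submodule.eq_top_of_finrank_eq
        have h3 := Submodule.finrank_le (LinearMap.ker ((R.H 0).map (R.coev M N f)).hom)
        rw [L.one_zero] at h3 ⊢
        omega
      ext x
      have h2 : x ∈ LinearMap.ker ((R.H 0).map (R.coev M N f)).hom := by
        rw [h1]
        trivial
      simpa using h2
    · have := L.one_ne i hi
      exact Function.injective_of_subsingleton _
  obtain ⟨w, hw⟩ := h _ _ hinj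
  obtain ⟨g, rfl⟩ := L.ev_surj M N w
  have h1 := L.ev_coev M N f g 0 (by rw [hf g, Rat.cast_zero])
  rw [zero_smul, hw] at h1
  exact id_one_ne L h1

theorem conservative_of (h : ∀ M, SplittingFrom R M) : Conservative R := by
  intro M N f hf
  obtain ⟨g, hg⟩ := h M N f fun i => (hf i).1
  have hinj : InjH R g := by
    intro i y y' hy
    obtain ⟨x, rfl⟩ := (hf i).2 y
    obtain ⟨x', rfl⟩ := (hf i).2 y'
    have h1 : (R.H i).map f ≫ (R.H i).map g = 𝟙 _ := by
      rw [← Functor.map_comp, hg, CategoryTheory.Functor.map_id]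
    have h2 : ∀ z, ((R.H i).map g).hom (((R.H i).map f).hom z) = z := by
      intro z
      have h3 := congrArg (fun t => t.hom z) h1
      simpa using h3
    rw [h2, h2] at hy
    rw [hy]
  obtain ⟨k, hk⟩ := h N M g hinj
  have h1 : k = f := by
    have h2 : f ≫ g ≫ k = k := by rw [← Category.assoc, hg, Category.id_comp]
    rw [hk, Category.comp_id] at h2
    exact h2.symm
  subst h1
  exact ⟨⟨g, hg, hk⟩⟩

theorem radTriv_of (L : Laws R) (h : Conservative R) (M : C) : RadTriv R M := by
  intro n hn
  apply h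
  intro i
  have h1 : (R.H i).map (𝟙 M - n) = 𝟙 _ := by
    rw [map_sub' L, hn i, sub_zero, CategoryTheory.Functor.map_id]
  rw [h1]
  exact Function.bijective_id

end core

/-- Local form and equivalences. -/
theorem result [CharZero F] (R : Realization C F) (L : Laws R) :
    (∀ M : C, NumHom R M M → RadTriv R M → ∀ N : C, NumHom R M N →
      ∀ f : M ⟶ N, InjH R f → Splits f) ∧
    (∀ M : C, (∀ N, NumHom R M N) → (SplittingFrom R M ↔ RadTriv R M)) ∧
    List.TFAE [∀ M : C, SplittingFrom R M,
      StandardD R ∧ Conservative R,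
      StandardD R ∧ ∀ M : C, RadTriv R M,
      SplittingFrom R R.one ∧ Conservative R] := by
  have key : ∀ M : C, NumHom R M M → RadTriv R M → ∀ N : C, NumHom R M N →
      ∀ f : M ⟶ N, InjH R f → Splits f := by
    intro M hM hr N hN f hf
    obtain ⟨g, hg⟩ := exists_mod L f hf hM hN
    exact splits_of_mod hr f g hg
  refine ⟨key, fun M hM => ⟨fun h n hn => ?_, fun h N => key M (hM M) h N (hM N)⟩, ?_⟩
  · have hid : ∀ m : M ⟶ M, HomTriv R m → InjH R (𝟙 M - m) := by
      intro m hm i
      have h1 : (R.H i).map (𝟙 M - m) = 𝟙 _ := by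
        rw [map_sub' L, hm i, sub_zero, CategoryTheory.Functor.map_id]
      rw [h1]
      exact Function.injective_id
    obtain ⟨g, hg⟩ := h M (𝟙 M - n) (hid n hn)
    -- g = 1 - m with m homologically trivial
    have hg' : g = 𝟙 M - (-(n ≫ g)) := by
      rw [Preadditive.sub_comp, Category.id_comp] at hg
      rw [sub_neg_eq_add, ← hg]
      abel
    have hm : HomTriv R (-(n ≫ g)) := by
      intro i
      rw [map_neg' L, triv_comp_left hn g i, neg_zero]
    obtain ⟨k, hk⟩ := h M g (by rw [hg']; exact hid _ hm)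
    have h1 : k = 𝟙 M - n := by
      have h2 : (𝟙 M - n) ≫ g ≫ k = k := by rw [← Category.assoc, hg, Category.id_comp]
      rw [hk, Category.comp_id] at h2
      exact h2.symm
    subst h1
    exact ⟨⟨g, hg, hk⟩⟩
  · tfae_have 1 → 4 := fun h => ⟨h _, conservative_of h⟩
    tfae_have 4 → 2 := fun h => ⟨standardD_of L h.1, h.2⟩
    tfae_have 2 → 3 := fun h => ⟨h.1, radTriv_of L h.2⟩
    tfae_have 3 → 1 := fun h M N f hf => key M (h.1 M M) (h.2 M) N (h.1 M N) f hf
    tfae_finish

end Pool.Agent.Results.MP_a147f7_ag.Conservativity
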