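import Mathlib
import Pool.Agent.ChowGen.Orbits

set_option autoImplicit false
set_option linter.unusedSectionVars false

open CategoryTheory

namespace Pool.Agent.Results.MP_a147f7_ag.GenericMembers

universe u w

/-! ### Definitions -/

section defs

variable {𝓜 : Type u} [Category.{0} 𝓜] [Preadditive 𝓜]

/-- The group `Γ` acts, with finite orbits, on the morphisms between the objects `X i`. -/
structure GaloisAction {I : Type} (X : I → 𝓜) (Γ : Type) [Group Γ] where
  act : Γ → ∀ {i j : I}, (X i ⟶ X j) → (X i ⟶ X j)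
  act_one : ∀ {i j : I} (a : X i ⟶ X j), act 1 a = a
  act_mul : ∀ (g h : Γ) {i j : I} (a : X i ⟶ X j), act (g * h) a = act g (act h a)
  act_add : ∀ (g : Γ) {i j : I} (a b : X i ⟶ X j), act g (a + b) = act g a + act g b
  act_id : ∀ (g : Γ) (i : I), act g (𝟙 (X i)) = 𝟙 (X i)
  act_comp : ∀ (g : Γ) {i j k : I} (a : X i ⟶ X j) (b : X j ⟶ X k),
    act g (a ≫ b) = act g a ≫ act g b
  finite : ∀ {i j : I} (a : X i ⟶ X j), (Set.range fun g => act g a).Finite

/-- `M` is a direct summand of a finite direct sum of the objects `X i`: the identity of `M` is a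
finite sum of morphisms which factor through objects `X i`. -/
def IsGenerated {I : Type} (X : I → 𝓜) (M : 𝓜) : Prop :=
  ∃ (n : ℕ) (x : Fin n → I) (s : ∀ t, M ⟶ X (x t)) (r : ∀ t, X (x t) ⟶ M),
    ∑ t, s t ≫ r t = 𝟙 M

/-- `f` is a composite of `n` morphisms between objects `X i` which satisfy `P` -/
inductive IsComposite {I : Type} {X : I → 𝓜} (P : ∀ i j : I, (X i ⟶ X j) → Prop) :
    ℕ → ∀ {i j : I}, (X i ⟶ X j) → Prop
  | id (i : I) : IsComposite P 0 (𝟙 (X i))
  | comp {n : ℕ} {i j k : I} (f : X i ⟶ X j) (a : X j ⟶ X k) :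
      IsComposite P n f → P j k a → IsComposite P (n + 1) (f ≫ a)

variable {L : Type} [Field L] (H : ℤ → 𝓜 ⥤ ModuleCat.{w} L)

/-- `a` acts as zero on homology -/
def HomTrivial {M N : 𝓜} (a : M ⟶ N) : Prop := ∀ j, (H j).map a = 0

/-- the alternating sum of the traces of `c` on homology -/
noncomputable def superTrace {M : 𝓜} (c : M ⟶ M) : L :=
  ∑ᶠ j : ℤ, (if Even j then (1 : L) else -1) *
    LinearMap.trace L ((H j).obj M) ((H j).map c).hom

end defs

/-! ### Matrices of morphisms -/

section matrices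

variable {𝓜 : Type u} [Category.{0} 𝓜] [Preadditive 𝓜] {ι : Type} [Fintype ι] [DecidableEq ι]

/-- square matrices of morphisms -/
def Mx (Y : ι → 𝓜) : Type := ∀ s t : ι, Y s ⟶ Y t

instance (Y : ι → 𝓜) : AddCommGroup (Mx Y) :=
  inferInstanceAs (AddCommGroup (∀ s t : ι, Y s ⟶ Y t))

instance (Y : ι → 𝓜) : Mul (Mx Y) := ⟨fun a b s t => ∑ k, a s k ≫ b k t⟩

instance (Y : ι → 𝓜) : One (Mx Y) := ⟨fun s t => if h : s = t then eqToHom (congrArg Y h) else 0⟩

private theorem mx_mul {Y : ι → 𝓜} (a b : Mx Y) (s t : ι) : (a * b) s t = ∑ k, a s k ≫ b k t := rfl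

private theorem mx_one {Y : ι → 𝓜} (s t : ι) :
    (1 : Mx Y) s t = if h : s = t then eqToHom (congrArg Y h) else 0 := rfl

private theorem mx_add {Y : ι → 𝓜} (a b : Mx Y) (s t : ι) : (a + b) s t = a s t + b s t := rfl

private theorem mx_sub {Y : ι → 𝓜} (a b : Mx Y) (s t : ι) : (a - b) s t = a s t - b s t := rfl

private theorem mx_zero {Y : ι → 𝓜} (s t : ι) : (0 : Mx Y) s t = 0 := rfl

private theorem mx_ext {Y : ι → 𝓜} {a b : Mx Y} (h : ∀ s t, a s t = b s t) : a = b :=
  funext fun s => funext fun t => h s t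

instance (Y : ι → 𝓜) : Ring (Mx Y) :=
  { (inferInstance : AddCommGroup (Mx Y)), (inferInstance : Mul (Mx Y)),
    (inferInstance : One (Mx Y)) with
    mul_assoc := fun a b c => by
      refine mx_ext fun s t => ?_
      simp only [mx_mul, Preadditive.sum_comp, Preadditive.comp_sum, Category.assoc]
      rw [Finset.sum_comm]
    one_mul := fun a => by
      refine mx_ext fun s t => ?_
      rw [mx_mul, Finset.sum_eq_single s]
      · rw [mx_one, dif_pos rfl, eqToHom_refl, Category.id_comp]
      · intro k _ hk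
        rw [mx_one, dif_neg (Ne.symm hk), Limits.zero_comp]
      · intro h
        exact absurd (Finset.mem_univ s) h
    mul_one := fun a => by
      refine mx_ext fun s t => ?_
      rw [mx_mul, Finset.sum_eq_single t]
      · rw [mx_one, dif_pos rfl, eqToHom_refl, Category.comp_id]
      · intro k _ hk
        rw [mx_one, dif_neg hk, Limits.comp_zero]
      · intro h
        exact absurd (Finset.mem_univ t) h
    left_distrib := fun a b c => by
      refine mx_ext fun s t => ?_
      simp only [mx_mul, mx_add, Preadditive.comp_add, Finset.sum_add_distrib]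
    right_distrib := fun a b c => by
      refine mx_ext fun s t => ?_
      simp only [mx_mul, mx_add, Preadditive.add_comp, Finset.sum_add_distrib]
    zero_mul := fun a => by
      refine mx_ext fun s t => ?_
      simp only [mx_mul, mx_zero, Limits.zero_comp, Finset.sum_const_zero]
    mul_zero := fun a => by
      refine mx_ext fun s t => ?_
      simp only [mx_mul, mx_zero, Limits.comp_zero, Finset.sum_const_zero] }

section alg

variable [Linear ℚ 𝓜]

instance (Y : ι → 𝓜) : Module ℚ (Mx Y) :=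
  inferInstanceAs (Module ℚ (∀ s t : ι, Y s ⟶ Y t))

private theorem mx_smul {Y : ι → 𝓜} (q : ℚ) (a : Mx Y) (s t : ι) : (q • a) s t = q • a s t := rfl

instance (Y : ι → 𝓜) : Algebra ℚ (Mx Y) :=
  Algebra.ofModule (fun q a b => by
      refine mx_ext fun s t => ?_
      simp only [mx_mul, mx_smul, Linear.smul_comp, Finset.smul_sum])
    (fun q a b => by
      refine mx_ext fun s t => ?_
      simp only [mx_mul, mx_smul, Linear.comp_smul, Finset.smul_sum])

end alg

section act

variable {I Γ : Type} [Group Γ] {X : I → 𝓜} (G : GaloisAction X Γ)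

private theorem act_zero (g : Γ) {i j : I} : G.act g (0 : X i ⟶ X j) = 0 := by
  have := G.act_add g (0 : X i ⟶ X j) 0
  rw [add_zero] at this
  exact add_eq_left.1 this.symm

private theorem act_sum (g : Γ) {i j : I} {κ : Type} (s : Finset κ) (f : κ → (X i ⟶ X j)) :
    G.act g (∑ k ∈ s, f k) = ∑ k ∈ s, G.act g (f k) := by
  classical
  induction s using Finset.induction_on with
  | empty => rw [Finset.sum_empty, Finset.sum_empty, act_zero]
  | insert k s hk ih => rw [Finset.sum_insert hk, Finset.sum_insert hk, G.act_add, ih]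

private abbrev mxAction (y : ι → I) : MulSemiringAction Γ (Mx fun t => X (y t)) where
  smul g a := fun s t => G.act g (a s t)
  one_smul a := mx_ext fun s t => G.act_one _
  mul_smul g h a := mx_ext fun s t => G.act_mul _ _ _
  smul_zero g := mx_ext fun s t => act_zero G g
  smul_add g a b := mx_ext fun s t => G.act_add _ _ _
  smul_one g := mx_ext fun s t => by
    change G.act g ((1 : Mx fun t => X (y t)) s t) = _
    rw [mx_one]
    by_cases h : s = t
    · subst h
      rw [dif_pos rfl, eqToHom_refl, G.act_id]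
    · rw [dif_neg h, act_zero]
  smul_mul g a b := mx_ext fun s t => by
    change G.act g ((a * b) s t) = ∑ k, G.act g (a s k) ≫ G.act g (b k t)
    rw [mx_mul, act_sum]
    exact Finset.sum_congr rfl fun k _ => G.act_comp _ _ _

end act

/-! ### Homologically trivial matrices are nilpotent -/

section nil

variable {L : Type} [Field L] (H : ℤ → 𝓜 ⥤ ModuleCat.{w} L) [∀ j, (H j).Additive]

private theorem ht_zero {M N : 𝓜} : HomTrivial H (0 : M ⟶ N) := fun j => (H j).map_zero _ _

private theorem ht_add {M N : 𝓜} {a b : M ⟶ N} (ha : HomTrivial H a) (hb : HomTrivial H b) :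
    HomTrivial H (a + b) := fun j => by rw [(H j).map_add, ha j, hb j, add_zero]

private theorem ht_sub {M N : 𝓜} {a b : M ⟶ N} (ha : HomTrivial H a) (hb : HomTrivial H b) :
    HomTrivial H (a - b) := fun j => by rw [(H j).map_sub, ha j, hb j, sub_zero]

private theorem ht_left {M N K : 𝓜} (a : M ⟶ N) {b : N ⟶ K} (hb : HomTrivial H b) :
    HomTrivial H (a ≫ b) := fun j => by rw [(H j).map_comp, hb j, Limits.comp_zero]

private theorem ht_right {M N K : 𝓜} {a : M ⟶ N} (b : N ⟶ K) (ha : HomTrivial H a) :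
    HomTrivial H (a ≫ b) := fun j => by rw [(H j).map_comp, ha j, Limits.zero_comp]

private theorem ht_sum {M N : 𝓜} {κ : Type} (s : Finset κ) (f : κ → (M ⟶ N))
    (h : ∀ k ∈ s, HomTrivial H (f k)) : HomTrivial H (∑ k ∈ s, f k) := fun j => by
  rw [(H j).map_sum]
  exact Finset.sum_eq_zero fun k hk => h k hk j

/-- the two-sided ideal of homologically trivial matrices -/
private def NN (Y : ι → 𝓜) : Ideal (Mx Y) where
  carrier := {a | ∀ s t, HomTrivial H (a s t)}
  zero_mem' := fun _ _ => ht_zero H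
  add_mem' := fun ha hb s t => ht_add H (ha s t) (hb s t)
  smul_mem' := fun c a ha s t => by
    rw [smul_eq_mul, mx_mul]
    exact ht_sum H _ _ fun k _ => ht_left H _ (ha k t)

private theorem mem_NN {Y : ι → 𝓜} {a : Mx Y} : a ∈ NN H Y ↔ ∀ s t, HomTrivial H (a s t) := Iff.rfl

instance (Y : ι → 𝓜) : (NN H Y).IsTwoSided := ⟨fun {a} b ha s t => by
  rw [mx_mul]
  exact ht_sum H _ _ fun k _ => ht_right H _ (ha s k)⟩

variable {I Γ : Type} [Group Γ] {X : I → 𝓜} (G : GaloisAction X Γ)

private theorem prod_mem (P : ∀ i j : I, (X i ⟶ X j) → Prop) (y : ι → I) :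
    ∀ l : List (Mx fun t => X (y t)), (∀ b ∈ l, ∀ s t, P (y s) (y t) (b s t)) →
      ∀ s t, l.prod s t ∈ AddSubgroup.closure
        {f : X (y s) ⟶ X (y t) | IsComposite P l.length f} := by
  intro l
  induction l using List.reverseRecOn with
  | nil =>
    intro _ s t
    rw [List.prod_nil, mx_one]
    by_cases h : s = t
    · subst h
      rw [dif_pos rfl, eqToHom_refl]
      exact AddSubgroup.subset_closure (IsComposite.id _)
    · rw [dif_neg h]
      exact zero_mem _
  | append_singleton l b ih =>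
    intro hl s t
    rw [List.prod_append, List.prod_singleton, mx_mul]
    refine sum_mem fun k _ => ?_
    have h1 := ih (fun c hc => hl c (List.mem_append_left _ hc)) s k
    have h2 := hl b (List.mem_append_right _ (List.mem_singleton_self b)) k t
    refine AddSubgroup.closure_induction (p := fun f _ => f ≫ b k t ∈ AddSubgroup.closure
        {f : X (y s) ⟶ X (y t) | IsComposite P (l ++ [b]).length f}) ?_ ?_ ?_ ?_ h1
    · intro f hf
      refine AddSubgroup.subset_closure ?_
      rw [Set.mem_ofPred_eq, List.length_append, List.length_singleton]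
      exact IsComposite.comp f _ hf h2
    · rw [Limits.zero_comp]
      exact zero_mem _
    · intro f f' _ _ h h'
      rw [Preadditive.add_comp]
      exact add_mem h h'
    · intro f _ h
      rw [Preadditive.neg_comp]
      exact neg_mem h

private theorem mx_nil [Linear ℚ 𝓜] (y : ι → I)
    (hact : ∀ (g : Γ) (i j : I) (a : X i ⟶ X j), HomTrivial H a → HomTrivial H (G.act g a))
    (m : ℕ) (hm : ∀ (i j : I) (f : X i ⟶ X j),
      IsComposite (X := X) (fun _ _ a => HomTrivial H a ∧ ∀ g : Γ, G.act g a = a) m f → f = 0)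
    (a : Mx fun t => X (y t)) (ha : ∀ s t, HomTrivial H (a s t)) : IsNilpotent a := by
  let _ := mxAction G y
  have hsm : ∀ (g : Γ) (b : Mx fun t => X (y t)) (s t : ι), (g • b) s t = G.act g (b s t) :=
    fun g b s t => rfl
  refine Pool.Agent.ChowGen.nil_of_orbits (Γ := Γ) ?_ (NN H fun t => X (y t)) ?_ m ?_ ha
  · intro b
    have h1 : {c : Mx fun t => X (y t) | ∀ s, c s ∈
        {d : ∀ t, X (y s) ⟶ X (y t) | ∀ t, d t ∈ Set.range fun g => G.act g (b s t)}}.Finite :=
      Set.Finite.pi' fun s => Set.Finite.pi' fun t => G.finite (b s t)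
    refine h1.subset ?_
    rintro _ ⟨g, rfl⟩ s t
    exact ⟨g, rfl⟩
  · intro g b hb s t
    rw [hsm]
    exact hact g _ _ _ (hb s t)
  · intro l hl hlb
    refine mx_ext fun s t => ?_
    have h1 := prod_mem (X := X) (fun _ _ a => HomTrivial H a ∧ ∀ g : Γ, G.act g a = a) y l
      (fun b hb s t => ⟨(hlb b hb).1 s t, fun g => by
        rw [← hsm, (hlb b hb).2 g]⟩) s t
    rw [hl] at h1
    have h2 : {f : X (y s) ⟶ X (y t) |
        IsComposite (X := X) (fun _ _ a => HomTrivial H a ∧ ∀ g : Γ, G.act g a = a) m f} ⊆ {0} :=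
      fun f hf => hm _ _ f hf
    have h3 := AddSubgroup.closure_mono h2 h1
    rw [AddSubgroup.closure_singleton_zero, AddSubgroup.mem_bot] at h3
    rw [h3, mx_zero]

end nil

/-! ### Traces -/

section trace

variable {L : Type} [Field L] (F : 𝓜 ⥤ ModuleCat.{w} L) [F.Additive] {Y : ι → 𝓜}

/-- the action of a matrix of morphisms on the sum of the realisations -/
private noncomputable def rho (a : Mx Y) : (∀ t, F.obj (Y t)) →ₗ[L] (∀ t, F.obj (Y t)) :=
  LinearMap.pi fun t => ∑ s, (F.map (a s t)).hom ∘ₗ LinearMap.proj s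

private theorem rho_apply (a : Mx Y) (v : ∀ t, F.obj (Y t)) (t : ι) :
    rho F a v t = ∑ s, (F.map (a s t)).hom (v s) := by
  simp only [rho, LinearMap.pi_apply, LinearMap.sum_apply, LinearMap.comp_apply,
    LinearMap.proj_apply]

private theorem rho_mul (a b : Mx Y) : rho F (a * b) = rho F b ∘ₗ rho F a := by
  refine LinearMap.ext fun v => funext fun t => ?_
  rw [LinearMap.comp_apply, rho_apply, rho_apply]
  simp only [rho_apply, mx_mul, Functor.map_sum, Functor.map_comp, ModuleCat.hom_sum,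
    ModuleCat.hom_comp, LinearMap.sum_apply, LinearMap.comp_apply, map_sum]
  rw [Finset.sum_comm]

private theorem rho_one : rho F (1 : Mx Y) = LinearMap.id := by
  refine LinearMap.ext fun v => funext fun t => ?_
  rw [rho_apply, Finset.sum_eq_single t]
  · rw [mx_one, dif_pos rfl, eqToHom_refl, F.map_id]
    rfl
  · intro s _ hs
    rw [mx_one, dif_neg hs, F.map_zero]
    rfl
  · intro h
    exact absurd (Finset.mem_univ t) h

private theorem rho_pow (a : Mx Y) (n : ℕ) : rho F (a ^ n) = (rho F a) ^ n := by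
  induction n with
  | zero => rw [pow_zero, pow_zero, rho_one]; rfl
  | succ n ih => rw [pow_succ, rho_mul, ih, pow_succ']; rfl

private theorem rho_add (a b : Mx Y) : rho F (a + b) = rho F a + rho F b := by
  refine LinearMap.ext fun v => funext fun t => ?_
  simp only [LinearMap.add_apply, Pi.add_apply, rho_apply, mx_add, F.map_add, ModuleCat.hom_add,
    Finset.sum_add_distrib]

private theorem trace_rho [∀ t, FiniteDimensional L (F.obj (Y t))] (a : Mx Y) :
    LinearMap.trace L _ (rho F a) = ∑ t, LinearMap.trace L _ (F.map (a t t)).hom := by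
  have h1 : rho F a = ∑ t, ∑ s, (LinearMap.single L (fun t => F.obj (Y t)) t) ∘ₗ
      ((F.map (a s t)).hom ∘ₗ LinearMap.proj s) := by
    refine LinearMap.ext fun v => funext fun t => ?_
    rw [rho_apply]
    simp only [LinearMap.sum_apply, LinearMap.comp_apply, LinearMap.proj_apply, Finset.sum_apply,
      LinearMap.coe_single]
    refine (Eq.trans (Finset.sum_eq_single t ?_ ?_) ?_).symm
    · intro k _ hk
      exact Finset.sum_eq_zero fun s _ => Pi.single_eq_of_ne (Ne.symm hk) _
    · intro h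
      exact absurd (Finset.mem_univ t) h
    · exact Finset.sum_congr rfl fun s _ => by rw [Pi.single_eq_same]
  rw [h1, map_sum]
  refine Finset.sum_congr rfl fun t _ => ?_
  rw [map_sum, Finset.sum_eq_single t]
  · rw [LinearMap.trace_comp_comm', LinearMap.comp_assoc, LinearMap.proj_comp_single_same,
      LinearMap.comp_id]
  · intro s _ hs
    rw [LinearMap.trace_comp_comm', LinearMap.comp_assoc, LinearMap.proj_comp_single_ne _ _ _ _ hs,
      LinearMap.comp_zero, map_zero]
  · intro h
    exact absurd (Finset.mem_univ t) h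

end trace

/-! ### Matrices modulo the homologically trivial ones form a von Neumann regular ring -/

section jannsen

variable {L : Type} [Field L] (H : ℤ → 𝓜 ⥤ ModuleCat.{w} L) [∀ j, (H j).Additive]

private theorem superTrace_eq {M : 𝓜} (c : M ⟶ M) (S : Finset ℤ)
    (hS : ∀ j, Nontrivial ((H j).obj M) → j ∈ S) :
    superTrace H c = ∑ j ∈ S, (if Even j then (1 : L) else -1) *
      LinearMap.trace L ((H j).obj M) ((H j).map c).hom := by
  refine finsum_eq_sum_of_support_subset _ fun j hj => ?_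
  by_contra hjS
  apply hj
  have h1 : Subsingleton ((H j).obj M) :=
    not_nontrivial_iff_subsingleton.1 fun h => hjS (hS j h)
  have h2 : ((H j).map c).hom = 0 := LinearMap.ext fun v => Subsingleton.elim _ _
  simp only [h2, map_zero, mul_zero]

private theorem superTrace_zero {M : 𝓜} : superTrace H (0 : M ⟶ M) = 0 := by
  unfold superTrace
  simp only [Functor.map_zero, ModuleCat.hom_zero, map_zero, mul_zero, finsum_zero]

/-- the alternating trace of a matrix of morphisms -/
private noncomputable def sT {Y : ι → 𝓜} (a : Mx Y) : L := ∑ t, superTrace H (a t t)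

variable {Y : ι → 𝓜} [∀ j t, FiniteDimensional L ((H j).obj (Y t))] {S : Finset ℤ}
  (hS : ∀ j t, Nontrivial ((H j).obj (Y t)) → j ∈ S)

include hS in
private theorem sT_eq (a : Mx Y) :
    sT H a = ∑ j ∈ S, (if Even j then (1 : L) else -1) * LinearMap.trace L _ (rho (H j) a) := by
  unfold sT
  rw [Finset.sum_congr rfl fun t _ => superTrace_eq H (a t t) S fun j h => hS j t h,
    Finset.sum_comm]
  refine Finset.sum_congr rfl fun j _ => ?_
  rw [trace_rho, Finset.mul_sum]

include hS in
private theorem sT_add (a b : Mx Y) : sT H (a + b) = sT H a + sT H b := by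
  rw [sT_eq H hS, sT_eq H hS, sT_eq H hS, ← Finset.sum_add_distrib]
  refine Finset.sum_congr rfl fun j _ => ?_
  rw [rho_add, map_add, mul_add]

private theorem rho_zero_of_mem {a : Mx Y} (ha : a ∈ NN H Y) (j : ℤ) : rho (H j) a = 0 := by
  refine LinearMap.ext fun v => funext fun t => ?_
  rw [rho_apply]
  refine Finset.sum_eq_zero fun s _ => ?_
  rw [ha s t j]
  rfl

include hS in
private theorem sT_of_mem {a : Mx Y} (ha : a ∈ NN H Y) : sT H a = 0 := by
  rw [sT_eq H hS]
  refine Finset.sum_eq_zero fun j _ => ?_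
  rw [rho_zero_of_mem H ha, map_zero, mul_zero]

include hS in
private theorem sT_of_pow_mem {a : Mx Y} {n : ℕ} (ha : a ^ n ∈ NN H Y) : sT H a = 0 := by
  rw [sT_eq H hS]
  refine Finset.sum_eq_zero fun j _ => ?_
  have h1 : IsNilpotent (rho (H j) a) := ⟨n, by rw [← rho_pow, rho_zero_of_mem H ha]⟩
  rw [(LinearMap.isNilpotent_trace_of_isNilpotent h1).eq_zero, mul_zero]

private theorem exists_sT (hD : ∀ s t (a : Y s ⟶ Y t), ¬ HomTrivial H a →
    ∃ b : Y t ⟶ Y s, superTrace H (a ≫ b) ≠ 0) {a : Mx Y} (ha : a ∉ NN H Y) :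
    ∃ b : Mx Y, sT H (a * b) ≠ 0 := by
  rw [mem_NN] at ha
  push Not at ha
  obtain ⟨s, t, hst⟩ := ha
  obtain ⟨b0, hb0⟩ := hD s t (a s t) hst
  let b : Mx Y := Pi.single t (Pi.single s b0)
  have hb : ∀ u v, (a * b) u v = a u t ≫ (Pi.single s b0 : ∀ v, Y t ⟶ Y v) v := by
    intro u v
    rw [mx_mul, Finset.sum_eq_single t]
    · change a u t ≫ (Pi.single t (Pi.single s b0) : ∀ u v, Y u ⟶ Y v) t v = _
      rw [Pi.single_eq_same]
    · intro k _ hk
      change a u k ≫ (Pi.single t (Pi.single s b0) : ∀ u v, Y u ⟶ Y v) k v = _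
      rw [Pi.single_eq_of_ne hk]
      exact Limits.comp_zero
    · intro h
      exact absurd (Finset.mem_univ t) h
  refine ⟨b, ?_⟩
  unfold sT
  rw [Finset.sum_eq_single s]
  · rw [hb, Pi.single_eq_same]
    exact hb0
  · intro u _ hu
    rw [hb, Pi.single_eq_of_ne hu, Limits.comp_zero, superTrace_zero]
  · intro h
    exact absurd (Finset.mem_univ s) h

private theorem regular_of_semisimple {R : Type*} [Ring R] [IsSemisimpleRing R] (r : R) :
    ∃ b : R, r * b * r = r := by
  obtain ⟨T, hT⟩ := exists_isCompl (Ideal.span {r} : Ideal R)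
  have h1 : (1 : R) ∈ (Ideal.span {r} : Ideal R) ⊔ T := by
    rw [hT.sup_eq_top]
    exact Submodule.mem_top
  obtain ⟨e, he, e', he', hee⟩ := Submodule.mem_sup.1 h1
  obtain ⟨b, rfl⟩ := Ideal.mem_span_singleton'.1 he
  have h2 : r * e' = r - r * (b * r) := by
    rw [eq_sub_of_add_eq' hee, mul_sub, mul_one]
  have h3 : r * e' ∈ (Ideal.span {r} : Ideal R) ⊓ T := by
    refine ⟨?_, T.smul_mem r he'⟩
    rw [h2]
    exact sub_mem (Ideal.mem_span_singleton_self r)
      (Ideal.mul_mem_left _ _ (Ideal.mul_mem_left _ _ (Ideal.mem_span_singleton_self r)))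
  rw [hT.inf_eq_bot, Submodule.mem_bot, h2, sub_eq_zero] at h3
  exact ⟨b, by rw [mul_assoc, ← h3]⟩

include hS in
private theorem regular [Linear ℚ 𝓜] [CharZero L]
    (hrat : ∀ t (c : Y t ⟶ Y t), ∃ q : ℚ, superTrace H c = (q : L))
    (hD : ∀ s t (a : Y s ⟶ Y t), ¬ HomTrivial H a →
      ∃ b : Y t ⟶ Y s, superTrace H (a ≫ b) ≠ 0) (F : Mx Y) :
    ∃ G : Mx Y, F * G * F - F ∈ NN H Y := by
  classical
  have hrat' : ∀ a : Mx Y, ∃ q : ℚ, sT H a = (q : L) := by
    intro a
    choose q hq using fun t => hrat t (a t t)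
    refine ⟨∑ t, q t, ?_⟩
    unfold sT
    rw [Finset.sum_congr rfl fun t _ => hq t]
    push_cast
    rfl
  choose τ0 hτ0 using hrat'
  let τ : Mx Y →+ ℚ :=
    { toFun := τ0
      map_zero' := by
        have h1 := hτ0 0
        rw [sT_of_mem H hS (zero_mem _)] at h1
        exact_mod_cast h1.symm
      map_add' := fun a b => by
        have h1 := hτ0 (a + b)
        rw [sT_add H hS, hτ0, hτ0] at h1
        exact_mod_cast h1.symm }
  have hτ : ∀ a, sT H a = ((τ.toRatLinearMap a : ℚ) : L) := hτ0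
  -- the image in the endomorphisms of homology
  let θ : Mx Y → ∀ j : S, Module.End L (∀ t, (H j).obj (Y t)) := fun a j => rho (H j) a
  obtain ⟨s', hs', hspan⟩ := (Submodule.fg_span_iff_fg_span_finset_subset (R := L)
    (Set.range θ)).1 (IsNoetherian.noetherian _)
  have hb : ∀ e : s', ∃ b : Mx Y, θ b = e := fun e => hs' e.2
  choose b hb using hb
  let Φ : Mx Y →ₗ[ℚ] (s' → ℚ) :=
    LinearMap.pi fun k => τ.toRatLinearMap ∘ₗ LinearMap.mulRight ℚ (b k)
  have hΦ : ∀ a k, ((Φ a k : ℚ) : L) = sT H (a * b k) := fun a k => (hτ _).symm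
  have hker : ∀ a, Φ a = 0 → a ∈ NN H Y := by
    intro a ha
    by_contra hna
    obtain ⟨c, hc⟩ := exists_sT H hD hna
    apply hc
    have key : ∀ e ∈ Submodule.span L (s' : Set (∀ j : S, Module.End L (∀ t, (H j).obj (Y t)))),
        ∑ j : S, (if Even (j : ℤ) then (1 : L) else -1) *
          LinearMap.trace L _ (e j * rho (H j) a) = 0 := by
      intro e he
      induction he using Submodule.span_induction with
      | mem e he =>
        have h1 := hΦ a ⟨e, he⟩
        rw [ha, Pi.zero_apply, Rat.cast_zero, sT_eq H hS, ← Finset.sum_coe_sort S] at h1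
        rw [h1]
        refine Finset.sum_congr rfl fun j _ => ?_
        rw [rho_mul]
        have h2 : e j = rho (H j) (b ⟨e, he⟩) := by
          have := congrFun (hb ⟨e, he⟩) j
          exact this.symm
        rw [h2]
        rfl
      | zero =>
        refine Finset.sum_eq_zero fun j _ => ?_
        rw [Pi.zero_apply, zero_mul, map_zero, mul_zero]
      | add e e' _ _ h h' =>
        have h4 := congrArg₂ (· + ·) h h'
        rw [add_zero, ← Finset.sum_add_distrib] at h4
        rw [← h4]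
        refine Finset.sum_congr rfl fun j _ => ?_
        rw [Pi.add_apply, add_mul, map_add, mul_add]
      | smul l e _ h =>
        rw [← mul_zero l, ← h, Finset.mul_sum]
        refine Finset.sum_congr rfl fun j _ => ?_
        rw [Pi.smul_apply, smul_mul_assoc, map_smul, smul_eq_mul, mul_left_comm]
    have h2 : θ c ∈ Submodule.span L (s' : Set (∀ j : S, Module.End L (∀ t, (H j).obj (Y t)))) := by
      rw [← hspan]
      exact Submodule.subset_span ⟨c, rfl⟩
    have h3 := key _ h2
    rw [sT_eq H hS, ← Finset.sum_coe_sort S, ← h3]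
    refine Finset.sum_congr rfl fun j _ => ?_
    rw [rho_mul]
    rfl
  have hker' : LinearMap.ker Φ ≤ LinearMap.ker (Ideal.Quotient.mkₐ ℚ (NN H Y)).toLinearMap := by
    intro a ha
    rw [LinearMap.mem_ker] at ha ⊢
    exact Ideal.Quotient.eq_zero_iff_mem.2 (hker a ha)
  have hfin : Module.Finite ℚ (Mx Y ⧸ NN H Y) := by
    have h1 : Module.Finite ℚ (Mx Y ⧸ LinearMap.ker Φ) :=
      Module.Finite.equiv Φ.quotKerEquivRange.symm
    refine Module.Finite.of_surjective
      ((LinearMap.ker Φ).liftQ (Ideal.Quotient.mkₐ ℚ (NN H Y)).toLinearMap hker') ?_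
    intro r
    obtain ⟨a, rfl⟩ := Ideal.Quotient.mk_surjective r
    exact ⟨Submodule.Quotient.mk a, rfl⟩
  have hart : IsArtinianRing (Mx Y ⧸ NN H Y) := IsArtinianRing.of_finite ℚ _
  have hjac : Ring.jacobson (Mx Y ⧸ NN H Y) = ⊥ := by
    rw [eq_bot_iff]
    intro r hr
    obtain ⟨a, rfl⟩ := Ideal.Quotient.mk_surjective r
    rw [Submodule.mem_bot, Ideal.Quotient.eq_zero_iff_mem]
    by_contra hna
    obtain ⟨c, hc⟩ := exists_sT H hD hna
    apply hc
    obtain ⟨n, hn⟩ := IsSemiprimaryRing.isNilpotent (R := Mx Y ⧸ NN H Y)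
    have h1 : Ideal.Quotient.mk (NN H Y) (a * c) ∈ Ring.jacobson (Mx Y ⧸ NN H Y) := by
      rw [map_mul]
      exact Ideal.mul_mem_right _ _ hr
    have h2 := Ideal.pow_mem_pow h1 n
    rw [hn, ← map_pow] at h2
    exact sT_of_pow_mem H hS (Ideal.Quotient.eq_zero_iff_mem.1 h2)
  have hss : IsSemisimpleRing (Mx Y ⧸ NN H Y) := IsArtinianRing.isSemisimpleRing_iff_jacobson.2 hjac
  obtain ⟨g, hg⟩ := regular_of_semisimple (Ideal.Quotient.mk (NN H Y) F)
  obtain ⟨G, rfl⟩ := Ideal.Quotient.mk_surjective g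
  refine ⟨G, ?_⟩
  rw [← Ideal.Quotient.eq_zero_iff_mem, map_sub, map_mul, map_mul, hg, sub_self]

end jannsen

/-! ### Morphisms between generated objects as matrices -/

section emb

variable {Y : ι → 𝓜} {M N K : 𝓜}

private def emb (r : ∀ t, Y t ⟶ M) (s' : ∀ t, N ⟶ Y t) (f : M ⟶ N) : Mx Y :=
  fun t t' => r t ≫ f ≫ s' t'

private def ext (s : ∀ t, M ⟶ Y t) (r' : ∀ t, Y t ⟶ N) (a : Mx Y) : M ⟶ N :=
  ∑ t, ∑ t', s t ≫ a t t' ≫ r' t'

private theorem ext_sub (s : ∀ t, M ⟶ Y t) (r' : ∀ t, Y t ⟶ N) (a b : Mx Y) :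
    ext s r' (a - b) = ext s r' a - ext s r' b := by
  simp only [ext, mx_sub, Preadditive.sub_comp, Preadditive.comp_sub, Finset.sum_sub_distrib]

private theorem ext_one (s : ∀ t, M ⟶ Y t) (r : ∀ t, Y t ⟶ M) (h : ∑ t, s t ≫ r t = 𝟙 M) :
    ext s r 1 = 𝟙 M := by
  rw [← h]
  refine Finset.sum_congr rfl fun t _ => ?_
  rw [Finset.sum_eq_single t]
  · rw [mx_one, dif_pos rfl, eqToHom_refl, Category.id_comp]
  · intro k _ hk
    rw [mx_one, dif_neg (Ne.symm hk), Limits.zero_comp, Limits.comp_zero]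
  · intro h
    exact absurd (Finset.mem_univ t) h

private theorem ext_emb_mul (s : ∀ t, M ⟶ Y t) (r : ∀ t, Y t ⟶ M) (h : ∑ t, s t ≫ r t = 𝟙 M)
    (s' : ∀ t, N ⟶ Y t) (r'' : ∀ t, Y t ⟶ K) (f : M ⟶ N) (a : Mx Y) :
    ext s r'' (emb r s' f * a) = f ≫ ext s' r'' a := by
  have h1 : ∀ t, ∑ t', s t ≫ (emb r s' f * a) t t' ≫ r'' t' =
      (s t ≫ r t) ≫ f ≫ ext s' r'' a := by
    intro t
    simp only [ext, emb, mx_mul, Preadditive.sum_comp, Preadditive.comp_sum, Category.assoc]
    rw [Finset.sum_comm]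
  unfold ext
  rw [Finset.sum_congr rfl fun t _ => h1 t, ← Preadditive.sum_comp, h, Category.id_comp]
  rfl

private theorem ext_mul_emb (s : ∀ t, M ⟶ Y t) (r : ∀ t, Y t ⟶ N)
    (s' : ∀ t, K ⟶ Y t) (r' : ∀ t, Y t ⟶ K) (h : ∑ t, s' t ≫ r' t = 𝟙 K) (f : N ⟶ K)
    (a : Mx Y) : ext s r' (a * emb r s' f) = ext s r a ≫ f := by
  have h1 : ∀ t, ∑ t', s t ≫ (a * emb r s' f) t t' ≫ r' t' =
      ∑ k, (s t ≫ a t k ≫ r k) ≫ f ≫ ∑ t', s' t' ≫ r' t' := by
    intro t
    simp only [emb, mx_mul, Preadditive.sum_comp, Preadditive.comp_sum, Category.assoc]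
    rw [Finset.sum_comm]
  unfold ext
  rw [Finset.sum_congr rfl fun t _ => h1 t, h, Category.comp_id]
  simp only [Preadditive.sum_comp]

private theorem ext_emb (s : ∀ t, M ⟶ Y t) (r : ∀ t, Y t ⟶ M) (h : ∑ t, s t ≫ r t = 𝟙 M)
    (s' : ∀ t, N ⟶ Y t) (r' : ∀ t, Y t ⟶ N) (h' : ∑ t, s' t ≫ r' t = 𝟙 N) (f : M ⟶ N) :
    ext s r' (emb r s' f) = f := by
  have h1 := ext_emb_mul s r h s' r' f 1
  rw [mul_one, ext_one s' r' h', Category.comp_id] at h1
  exact h1

private theorem ext_pow (s : ∀ t, M ⟶ Y t) (r : ∀ t, Y t ⟶ M) (h : ∑ t, s t ≫ r t = 𝟙 M)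
    (f : End M) (n : ℕ) : ext s r (emb r s f ^ n) = f ^ n := by
  induction n with
  | zero =>
    rw [pow_zero, pow_zero, ext_one s r h]
    rfl
  | succ n ih =>
    rw [pow_succ', ext_emb_mul s r h, ih, pow_succ]
    rfl

variable {L : Type} [Field L] (H : ℤ → 𝓜 ⥤ ModuleCat.{w} L) [∀ j, (H j).Additive]

private theorem ht_ext (s : ∀ t, M ⟶ Y t) (r' : ∀ t, Y t ⟶ N) {a : Mx Y} (ha : a ∈ NN H Y) :
    HomTrivial H (ext s r' a) :=
  ht_sum H _ _ fun t _ => ht_sum H _ _ fun t' _ => ht_left H _ (ht_right H _ (ha t t'))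

private theorem emb_mem (r : ∀ t, Y t ⟶ M) (s' : ∀ t, N ⟶ Y t) {f : M ⟶ N}
    (hf : HomTrivial H f) : emb r s' f ∈ NN H Y :=
  fun _ _ => ht_left H _ (ht_right H _ hf)

end emb

end matrices

section final

variable {𝓜 : Type u} [Category.{0} 𝓜] [Preadditive 𝓜]

private theorem common {I : Type} {X : I → 𝓜} {M N : 𝓜} (hM : IsGenerated X M)
    (hN : IsGenerated X N) : ∃ (ι : Type) (_ : Fintype ι) (_ : DecidableEq ι) (y : ι → I)
      (s : ∀ t, M ⟶ X (y t)) (r : ∀ t, X (y t) ⟶ M) (s' : ∀ t, N ⟶ X (y t))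
      (r' : ∀ t, X (y t) ⟶ N), ∑ t, s t ≫ r t = 𝟙 M ∧ ∑ t, s' t ≫ r' t = 𝟙 N := by
  obtain ⟨n, x, s, r, h⟩ := hM
  obtain ⟨n', x', s', r', h'⟩ := hN
  refine ⟨Fin n ⊕ Fin n', inferInstance, inferInstance, Sum.elim x x',
    fun t => Sum.rec (fun i => s i) (fun _ => 0) t, fun t => Sum.rec (fun i => r i) (fun _ => 0) t,
    fun t => Sum.rec (fun _ => 0) (fun i => s' i) t, fun t => Sum.rec (fun _ => 0) (fun i => r' i) t,
    ?_, ?_⟩
  · rw [Fintype.sum_sum_type]
    simp only [Limits.comp_zero, Finset.sum_const_zero, add_zero]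
    exact h
  · rw [Fintype.sum_sum_type]
    simp only [Limits.comp_zero, Finset.sum_const_zero, zero_add]
    exact h'

end final

/-- Let `𝓜` be the category of Chow motives over the algebraic closure `K` of a field `F`, with its
homology `H`, let `Y j` be motives over `K` such that homological and numerical equivalence agree for
the correspondences between them, and let some of them, the `Y (e i)`, be motives of varieties
defined over `F` (with Tate twists), so that the Galois group `Γ` of `F` acts on the correspondences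
between these. If all composites of `m` homologically trivial correspondences defined over `F`
between the `Y (e i)` vanish, then every homologically injective morphism `f : M ⟶ N` splits, where
`M` is any motive generated by the `Y (e i)` and `N` is any motive generated by the `Y j`. -/
theorem result {𝓜 : Type u} [Category.{0} 𝓜] [Preadditive 𝓜] [Linear ℚ 𝓜]
    {L : Type} [Field L] [CharZero L] (H : ℤ → 𝓜 ⥤ ModuleCat.{w} L) [∀ j, (H j).Additive]
    {I J Γ : Type} [Group Γ] {Y : J → 𝓜} {e : I → J} (G : GaloisAction (fun i => Y (e i)) Γ)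
    -- the homology of `Y i` is finite-dimensional
    (hfd : ∀ (j : ℤ) (i : J), FiniteDimensional L ((H j).obj (Y i)))
    (hsupp : ∀ i : J, {j : ℤ | Nontrivial ((H j).obj (Y i))}.Finite)
    -- the alternating traces of self-correspondences are rational
    (hrat : ∀ (i : J) (c : Y i ⟶ Y i), ∃ q : ℚ, superTrace H c = (q : L))
    -- numerically trivial correspondences are homologically trivial
    (hD : ∀ (i j : J) (a : Y i ⟶ Y j), (∀ b : Y j ⟶ Y i, superTrace H (a ≫ b) = 0) →
      HomTrivial H a)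
    -- homological triviality is invariant under the Galois group
    (hact : ∀ (g : Γ) (i j : I) (a : Y (e i) ⟶ Y (e j)), HomTrivial H a →
      HomTrivial H (G.act g a))
    -- homologically trivial correspondences defined over `F` compose nilpotently
    (hgen : ∃ m : ℕ, ∀ (i j : I) (f : Y (e i) ⟶ Y (e j)),
      IsComposite (X := fun i => Y (e i))
        (fun _ _ a => HomTrivial H a ∧ ∀ g : Γ, G.act g a = a) m f → f = 0)
    (M N : 𝓜) (hM : IsGenerated (fun i => Y (e i)) M) (hN : IsGenerated Y N) (f : M ⟶ N)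
    (hf : ∀ j, Function.Injective ((H j).map f)) : ∃ g : N ⟶ M, f ≫ g = 𝟙 M := by
  obtain ⟨m, hm⟩ := hgen
  have hD' : ∀ (i j : J) (a : Y i ⟶ Y j), ¬ HomTrivial H a →
      ∃ b : Y j ⟶ Y i, superTrace H (a ≫ b) ≠ 0 := by
    intro i j a ha
    by_contra hcon
    push Not at hcon
    exact ha (hD i j a hcon)
  have hnil : ∀ n : End M, HomTrivial H n → IsNilpotent n := by
    intro n hn
    obtain ⟨k, x, s, r, h⟩ := hM
    obtain ⟨l, hl⟩ := mx_nil H G x hact m hm (emb r s n) (emb_mem H r s hn)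
    refine ⟨l, ?_⟩
    rw [← ext_pow s r h, hl]
    simp only [ext, mx_zero, Limits.comp_zero, Limits.zero_comp, Finset.sum_const_zero]
  have hMY : IsGenerated Y M := by
    obtain ⟨k, x, s, r, h⟩ := hM
    exact ⟨k, fun t => e (x t), s, r, h⟩
  obtain ⟨ι, _, _, y, s, r, s', r', h, h'⟩ := common hMY hN
  have hfd' : ∀ j t, FiniteDimensional L ((H j).obj (Y (y t))) := fun j t => hfd j (y t)
  obtain ⟨G0, hG0⟩ := regular H (Y := fun t => Y (y t)) (S := Finset.univ.biUnion fun t =>
      (hsupp (y t)).toFinset) (fun j t hj => Finset.mem_biUnion.2 ⟨t, Finset.mem_univ t,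
      (hsupp (y t)).mem_toFinset.2 hj⟩) (fun t => hrat (y t)) (fun u v => hD' (y u) (y v))
      (emb r s' f)
  set g0 : N ⟶ M := ext s' r G0 with hg0
  have h1 : HomTrivial H (f ≫ g0 ≫ f - f) := by
    have h2 := ht_ext H s r' hG0
    rw [ext_sub, ext_emb s r h s' r' h', mul_assoc, ext_emb_mul s r h, ext_mul_emb _ _ _ _ h'] at h2
    exact h2
  have h3 : HomTrivial H (𝟙 M - f ≫ g0) := by
    intro j
    have h2 := h1 j
    rw [(H j).map_sub, (H j).map_comp, (H j).map_comp, sub_eq_zero] at h2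
    rw [(H j).map_sub, (H j).map_id, (H j).map_comp, sub_eq_zero]
    have : Mono ((H j).map f) := (ModuleCat.mono_iff_injective _).2 (hf j)
    rw [← cancel_mono ((H j).map f), Category.id_comp, Category.assoc, h2]
  obtain ⟨u, hu⟩ := (hnil _ h3).isUnit_one_sub
  have h5 : (u : End M) = f ≫ g0 := by
    rw [hu, End.one_def, sub_sub_cancel]
  refine ⟨g0 ≫ ((u⁻¹ : (End M)ˣ) : End M), ?_⟩
  have h6 := u.inv_mul
  rw [h5, End.mul_def, Category.assoc] at h6
  exact h6

end Pool.Agent.Results.MP_a147f7_ag.GenericMembers
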