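import Mathlib

/-!
Morphisms of Chow motives with injective realization split, for all morphisms, if and only if
standard conjecture D holds and all motives are finite dimensional in the sense of Kimura and
O'Sullivan, if and only if D holds and there is no phantom motive.

The proof that D and the absence of phantoms give nilpotence and Chow-Kuenneth decompositions is by
induction on the dimension: by weak Lefschetz and the semisimplicity theorem of Jannsen, the Kuenneth
projectors outside the middle degree factor, modulo homologically trivial correspondences, through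
those of a hyperplane section (`proj_of_injective`, `proj_of_surjective`); the theorem of Nagata and
Higman and the finite dimensionality of pure motives give nilpotence on each block (`kills_of_alt`,
`alt_eq_zero`), and blocks add up (`kills_add`).
-/

open Finset CategoryTheory

namespace Pool.Agent.Results.MP_a147f7_ag.SplittingEquivalences


/-- The category of motives and the realization. -/
structure Realization where
  /-- the motives -/
  C : Type
  [cat : SmallCategory C]
  [pre : Preadditive C]
  [lin : Linear ℚ C]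
  /-- the coefficients of the realization -/
  F : Type
  [fld : Field F]
  [chr : CharZero F]
  /-- the homology of a motive -/
  H : C → ℤ → Type
  [hGrp : ∀ M j, AddCommGroup (H M j)]
  [hMod : ∀ M j, Module F (H M j)]
  [hFin : ∀ M j, Module.Finite F (H M j)]
  /-- the realization of a morphism -/
  map : ∀ {M N : C}, (M ⟶ N) → ∀ j, H M j →ₗ[F] H N j
  /-- a finite set of degrees outside which the homology is zero -/
  deg : C → Finset ℤ
  /-- the trace of an endomorphism -/
  trace : ∀ M : C, (M ⟶ M) → ℚ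

attribute [instance] Realization.cat Realization.pre Realization.lin Realization.fld
  Realization.chr Realization.hGrp Realization.hMod Realization.hFin

namespace Realization

/-- the action of a morphism on homology -/
def app (D : Realization) {M N : D.C} (f : M ⟶ N) (j : ℤ) (x : D.H M j) : D.H N j := D.map f j x

/-- the trace in degree `j` -/
noncomputable def tr (D : Realization) {M : D.C} (f : M ⟶ M) (j : ℤ) : D.F :=
  LinearMap.trace D.F (D.H M j) (D.map f j)

end Realization

/-- The realization is an additive functor. -/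
structure FunctorLaws (D : Realization) : Prop where
  id : ∀ (M : D.C) (j : ℤ) (x : D.H M j), D.app (𝟙 M) j x = x
  comp : ∀ {M N P : D.C} (f : M ⟶ N) (g : N ⟶ P) (j : ℤ) (x : D.H M j),
    D.app (f ≫ g) j x = D.app g j (D.app f j x)
  add : ∀ {M N : D.C} (f g : M ⟶ N) (j : ℤ) (x : D.H M j),
    D.app (f + g) j x = D.app f j x + D.app g j x
  deg : ∀ (M : D.C) (j : ℤ), j ∉ D.deg M → ∀ x : D.H M j, x = 0

/-- The trace is the alternating sum of the traces in homology. -/
def TraceFormula (D : Realization) : Prop := ∀ (M : D.C) (f : M ⟶ M),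
  ((D.trace M f : ℚ) : D.F) = ∑ j ∈ D.deg M, (-1 : D.F) ^ j * D.tr f j

/-- The varieties. -/
structure Varieties (D : Realization) where
  /-- the connected smooth projective varieties -/
  V : Type
  /-- the dimension -/
  dim : V → ℕ
  /-- the motive `h(X)(n)`, with `H_j(h(X)(n)) = H_{j-2n}(X)` -/
  mot : V → ℤ → D.C

/-- a morphism that is injective on the homology in degrees above `m` -/
def InjAbove {D : Realization} {M N : D.C} (f : M ⟶ N) (m : ℤ) : Prop :=
  ∀ j, m < j → Function.Injective (D.app f j)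

/-- a morphism that is surjective on the homology in degrees below `m` -/
def SurjBelow {D : Realization} {M N : D.C} (f : M ⟶ N) (m : ℤ) : Prop :=
  ∀ j, j < m → Function.Surjective (D.app f j)

/-- Every motive is a direct summand of some `h(X)(n)`; the degrees of the homology; the weak Lefschetz
theorem, for the Gysin map and the push-forward of a hyperplane section `Y`. -/
structure VarietyLaws {D : Realization} (E : Varieties D) : Prop where
  gen : ∀ M : D.C, ∃ (X : E.V) (n : ℤ) (r : M ⟶ E.mot X n) (s : E.mot X n ⟶ M), r ≫ s = 𝟙 M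
  deg : ∀ (X : E.V) (n j : ℤ), (j < 2 * n ∨ 2 * n + 2 * E.dim X < j) →
    ∀ x : D.H (E.mot X n) j, x = 0
  lefschetz : ∀ (X : E.V) (n : ℤ), 0 < E.dim X → ∃ Y, E.dim Y + 1 = E.dim X ∧
    (∃ f : E.mot X n ⟶ E.mot Y (n + 1), InjAbove f (2 * n + E.dim X)) ∧
    ∃ g : E.mot Y n ⟶ E.mot X n, SurjBelow g (2 * n + E.dim X)

/-- The tensor product and the internal Hom `M^∨ ⊗ N`. -/
structure TensorOps (D : Realization) where
  /-- the unit motive -/
  one : D.C
  /-- the tensor product -/
  tensor : D.C → D.C → D.C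
  /-- the dual -/
  dual : D.C → D.C
  /-- the morphism `1 ⟶ M^∨ ⊗ N` that corresponds to a morphism `M ⟶ N` -/
  curry : ∀ {M N : D.C}, (M ⟶ N) → (one ⟶ tensor (dual M) N)
  /-- the morphism `M^∨ ⊗ N ⟶ 1` that corresponds to a morphism `N ⟶ M` -/
  eval : ∀ {M N : D.C}, (N ⟶ M) → (tensor (dual M) N ⟶ one)
  /-- the tensor product of endomorphisms -/
  ext : ∀ M N : D.C, End M → End N → End (tensor M N)
  /-- the exterior product in homology -/
  kun : ∀ (M N : D.C) (i j : ℤ), D.H M i →ₗ[D.F] D.H N j →ₗ[D.F] D.H (tensor M N) (i + j)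
  /-- the trace over the second factor -/
  ptr : ∀ M N : D.C, End (tensor M N) →+ End M

/-- the exterior product of two classes -/
def TensorOps.cup {D : Realization} (t : TensorOps D) (M N : D.C) (i j : ℤ) (x : D.H M i)
    (y : D.H N j) : D.H (t.tensor M N) (i + j) := t.kun M N i j x y

/-- the trace over the second factor -/
def TensorOps.pt {D : Realization} (t : TensorOps D) (M N : D.C) (a : End (t.tensor M N)) :
    End M := t.ptr M N a

/-- The laws for the internal Hom. -/
structure DualLaws {D : Realization} (t : TensorOps D) : Prop where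
  one_ne : 𝟙 t.one ≠ 0
  eval_surj : ∀ (M N : D.C) (h : t.tensor (t.dual M) N ⟶ t.one), ∃ g : N ⟶ M, t.eval g = h
  curry_eval : ∀ {M N : D.C} (f : M ⟶ N) (g : N ⟶ M),
    t.curry f ≫ t.eval g = D.trace M (f ≫ g) • 𝟙 t.one
  curry_inj : ∀ {M N : D.C} (f : M ⟶ N) (i : ℤ), D.map f i ≠ 0 →
    ∀ j, Function.Injective (D.app (t.curry f) j)

/-- The laws for the tensor product of endomorphisms. -/
structure ExtLaws {D : Realization} (t : TensorOps D) : Prop where
  add : ∀ (M N : D.C) (a a' : End M) (b : End N),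
    t.ext M N (a + a') b = t.ext M N a b + t.ext M N a' b
  mul : ∀ (M N : D.C) (a a' : End M) (b b' : End N),
    t.ext M N (a * a') (b * b') = t.ext M N a b * t.ext M N a' b'

/-- The laws for the trace over the second factor. -/
structure PtrLaws {D : Realization} (t : TensorOps D) : Prop where
  mul : ∀ (M N : D.C) (a : End M) (b : End (t.tensor M N)),
    t.pt M N (t.ext M N a 1 * b) = a * t.pt M N b
  ext : ∀ (M N : D.C) (a : End M) (b : End N), t.pt M N (t.ext M N a b) = D.trace N b • a

/-- `(a ⊗ b)_* (x ⊗ y) = a_* x ⊗ b_* y` -/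
def KunAct {D : Realization} (t : TensorOps D) : Prop :=
  ∀ (M N : D.C) (i j : ℤ) (a : End M) (b : End N) (x : D.H M i) (y : D.H N j),
    D.app (t.ext M N a b) (i + j) (t.cup M N i j x y)
      = t.cup M N i j (D.app a i x) (D.app b j y)

/-- Kuenneth: the exterior products span the homology of a tensor product. -/
def KunSpan {D : Realization} (t : TensorOps D) : Prop :=
  ∀ (M N : D.C) (P : ∀ m, D.H (t.tensor M N) m → Prop), (∀ m, P m 0) →
    (∀ m x y, P m x → P m y → P m (x + y)) →
    (∀ i j x y, P (i + j) (t.cup M N i j x y)) → ∀ m z, P m z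

section powers

variable {D : Realization} (t : TensorOps D)

/-- the power `M^{⊗(n+1)}` -/
def pw (M : D.C) : ℕ → D.C
  | 0 => M
  | n + 1 => t.tensor (pw M n) M

/-- the tensor product `a_0 ⊗ ... ⊗ a_n` of endomorphisms of `M` -/
def extPow (M : D.C) : (n : ℕ) → (Fin (n + 1) → End M) → End (pw t M n)
  | 0, a => a 0
  | n + 1, a => t.ext (pw t M n) M (extPow M n fun i => a i.castSucc) (a (Fin.last (n + 1)))

/-- `(n+1) d` -/
def degPow (d : ℤ) : ℕ → ℤ
  | 0 => d
  | n + 1 => degPow d n + d

/-- the exterior product `x_0 ⊗ ... ⊗ x_n` of classes in `H_d(M)` -/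
def kunPow (M : D.C) (d : ℤ) : (n : ℕ) → (Fin (n + 1) → D.H M d) → D.H (pw t M n) (degPow d n)
  | 0, x => x 0
  | n + 1, x =>
    t.cup (pw t M n) M (degPow d n) d (kunPow M d n fun i => x i.castSucc) (x (Fin.last (n + 1)))

/-- The permutations of the factors. -/
structure Permutations where
  /-- the permutation of the factors of `M^{⊗(n+1)}` -/
  perm : ∀ (M : D.C) (n : ℕ), Equiv.Perm (Fin (n + 1)) →* End (pw t M n)

variable {t}

/-- the permutation of the factors of `M^{⊗(n+1)}` -/
def Permutations.op (p : Permutations t) (M : D.C) (n : ℕ) (σ : Equiv.Perm (Fin (n + 1))) :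
    End (pw t M n) := p.perm M n σ

variable (t)

/-- `σ ∘ (a_0 ⊗ ... ⊗ a_n) = (a_{σ⁻¹ 0} ⊗ ... ⊗ a_{σ⁻¹ n}) ∘ σ` -/
def PermExt (p : Permutations t) : Prop :=
  ∀ (M : D.C) n (σ : Equiv.Perm (Fin (n + 1))) (a : Fin (n + 1) → End M),
    p.op M n σ * extPow t M n a = extPow t M n (fun i => a (σ⁻¹ i)) * p.op M n σ

/-- a permutation that fixes the last factor is a tensor product -/
def PermSucc (p : Permutations t) : Prop :=
  ∀ (M : D.C) n (σ : Equiv.Perm (Fin (n + 1))) (σ' : Equiv.Perm (Fin (n + 2))),
    (∀ i, σ' i.castSucc = (σ i).castSucc) →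
      p.op M (n + 1) σ' = t.ext (pw t M n) M (p.op M n σ) 1

/-- permutations act on exterior products of classes of degree `d` by permuting them, with the sign
`sgn(σ)^d` -/
def PermKun (p : Permutations t) : Prop :=
  ∀ (M : D.C) (d : ℤ) n (σ : Equiv.Perm (Fin (n + 1))) (x : Fin (n + 1) → D.H M d),
    D.app (p.op M n σ) (degPow d n) (kunPow t M d n x)
      = (Equiv.Perm.sign σ : ℤ) ^ d.natAbs • kunPow t M d n (fun i => x (σ⁻¹ i))

/-- the trace over the last factor of `(j n+1) ∘ (a_0 ⊗ ... ⊗ a_{n+1})` is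
`a_0 ⊗ ... ⊗ a_{n+1} a_j ⊗ ... ⊗ a_n` -/
def PtrSwap (p : Permutations t) : Prop :=
  ∀ (M : D.C) n (j : Fin (n + 1)) (a : Fin (n + 2) → End M),
    t.pt (pw t M n) M (p.op M (n + 1) (Equiv.swap j.castSucc (Fin.last (n + 1))) *
        extPow t M (n + 1) a)
      = extPow t M n (Function.update (fun i => a i.castSucc) j
          (a (Fin.last (n + 1)) * a j.castSucc))

end powers

/-- Chow motives over an algebraically closed field with their `l`-adic homology. -/
structure ChowTheory extends Realization where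
  functorLaws : FunctorLaws toRealization
  traceFormula : TraceFormula toRealization
  vars : Varieties toRealization
  varLaws : VarietyLaws vars
  ten : TensorOps toRealization
  dualLaws : DualLaws ten
  extLaws : ExtLaws ten
  ptrLaws : PtrLaws ten
  kunAct : KunAct ten
  kunSpan : KunSpan ten
  perms : Permutations ten
  permExt : PermExt ten perms
  permSucc : PermSucc ten perms
  permKun : PermKun ten perms
  ptrSwap : PtrSwap ten perms

namespace ChowTheory

/-- the power `M^{⊗(n+1)}` -/
abbrev pow (T : ChowTheory) (M : T.C) (n : ℕ) : T.C := pw T.ten M n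

/-- the permutations of the factors -/
abbrev perm (T : ChowTheory) (M : T.C) (n : ℕ) : Equiv.Perm (Fin (n + 1)) →* End (T.pow M n) :=
  T.perms.perm M n

/-- the permutation `σ` of the factors -/
abbrev op (T : ChowTheory) (M : T.C) (n : ℕ) (σ : Equiv.Perm (Fin (n + 1))) : End (T.pow M n) :=
  T.perms.op M n σ

end ChowTheory

variable {T : ChowTheory}

/-- `f` is homologically trivial -/
def HomTrivial {M N : T.C} (f : M ⟶ N) : Prop := ∀ j, T.map f j = 0

/-- the realization of `f` is injective -/
def HInjective {M N : T.C} (f : M ⟶ N) : Prop := ∀ j, Function.Injective (T.app f j)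

variable (T)

/-- Q1: morphisms with injective realization split -/
def Splits : Prop := ∀ {M N : T.C} (f : M ⟶ N), HInjective f → ∃ g : N ⟶ M, f ≫ g = 𝟙 M

/-- standard conjecture D: numerically trivial morphisms are homologically trivial -/
def ConjD : Prop := ∀ {M N : T.C} (f : M ⟶ N), (∀ g : N ⟶ M, T.trace M (f ≫ g) = 0) → HomTrivial f

/-- the realization reflects isomorphisms -/
def Conservative : Prop :=
  ∀ {M N : T.C} (f : M ⟶ N), (∀ j, Function.Bijective (T.app f j)) → IsIso f

/-- a homologically trivial idempotent is zero -/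
def NoPhantoms : Prop := ∀ (M : T.C) (e : End M), e * e = e → HomTrivial e → e = 0

/-- homologically trivial endomorphisms are nilpotent -/
def NilEnd : Prop := ∀ (M : T.C) (a : End M), HomTrivial a → IsNilpotent a

variable {T} in
/-- `∑ j, (2 ^ b_j - 1)` with `b_j = dim H_j(M)` -/
noncomputable def bound (M : T.C) : ℕ :=
  ∑ j ∈ T.deg M, (2 ^ Module.finrank T.F (T.H M j) - 1)

/-- the homologically trivial endomorphisms of `M` form a nilpotent ideal: products of at least
`bound M` of them are zero -/
def NilIdeals : Prop := ∀ (M : T.C) (l : List (End M)), (∀ a ∈ l, HomTrivial a) →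
  bound M ≤ l.length → l.prod = 0

variable {T}

/-- the sum over all permutations (`d` odd) or the alternating sum (`d` even) -/
def alt (M : T.C) (d n : ℕ) : End (T.pow M n) :=
  ∑ σ : Equiv.Perm (Fin (n + 1)), (Equiv.Perm.sign σ : ℤ) ^ (d + 1) • T.op M n σ

/-- the exterior power (`d` even) or symmetric power (`d` odd) of degree `n + 1` of the motive that `p`
cuts out of `M` is zero -/
def PowerVanishes {M : T.C} (p : End M) (d n : ℕ) : Prop :=
  alt M d n * extPow T.ten M n (fun _ => p) = 0

/-- The decomposition `p` writes `M` as a finite direct sum of motives with a vanishing exterior or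
symmetric power. -/
structure IsKimura (M : T.C) (m : ℕ) (p : Fin m → End M) : Prop where
  idem : ∀ i, p i * p i = p i
  orth : ∀ i j, i ≠ j → p i * p j = 0
  sum : ∑ i, p i = 1
  fin : ∀ i, ∃ d n : ℕ, PowerVanishes (p i) d n

/-- `π` is a Chow-Kuenneth decomposition of `M` -/
structure IsCK (M : T.C) (π : ℤ → End M) : Prop where
  idem : ∀ i, π i * π i = π i
  orth : ∀ i j, i ≠ j → π i * π j = 0
  zero : ∀ i, i ∉ T.deg M → π i = 0
  sum : ∑ i ∈ T.deg M, π i = 1
  act : ∀ i (x : T.H M i), T.app (π i) i x = x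
  act_ne : ∀ i j (x : T.H M j), j ≠ i → T.app (π i) j x = 0

variable (T)

/-- every motive is finite dimensional in the sense of Kimura and O'Sullivan -/
def KimuraFinite : Prop := ∀ M : T.C, ∃ (m : ℕ) (p : Fin m → End M), IsKimura M m p

/-- every motive has a Chow-Kuenneth decomposition with finite dimensional components: with
`b = dim H_j(M)`, the power `Λ^(b+1) h_j(M)` vanishes if `j` is even, and `Sym^(b+1) h_j(M)` vanishes
if `j` is odd -/
def ChowKuenneth : Prop := ∀ M : T.C, ∃ π : ℤ → End M, IsCK M π ∧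
  ∀ j, PowerVanishes (π j) j.natAbs (Module.finrank T.F (T.H M j))



section bridge

variable {T : ChowTheory}

theorem l_id (M : T.C) (j : ℤ) (x : T.H M j) : T.map (𝟙 M) j x = x := T.functorLaws.id M j x

theorem l_comp {M N P : T.C} (f : M ⟶ N) (g : N ⟶ P) (j : ℤ) (x : T.H M j) :
    T.map (f ≫ g) j x = T.map g j (T.map f j x) := T.functorLaws.comp f g j x

theorem l_add {M N : T.C} (f g : M ⟶ N) (j : ℤ) (x : T.H M j) :
    T.map (f + g) j x = T.map f j x + T.map g j x := T.functorLaws.add f g j x

theorem l_deg (M : T.C) (j : ℤ) (hj : j ∉ T.deg M) (x : T.H M j) : x = 0 :=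
  T.functorLaws.deg M j hj x

theorem l_trace (M : T.C) (f : M ⟶ M) : ((T.trace M f : ℚ) : T.F)
    = ∑ j ∈ T.deg M, (-1 : T.F) ^ j * LinearMap.trace T.F (T.H M j) (T.map f j) :=
  T.traceFormula M f

theorem l_ptr_mul (M N : T.C) (a : End M) (b : End (T.ten.tensor M N)) :
    T.ten.ptr M N (T.ten.ext M N a 1 * b) = a * T.ten.ptr M N b := T.ptrLaws.mul M N a b

theorem l_ptr_ext (M N : T.C) (a : End M) (b : End N) :
    T.ten.ptr M N (T.ten.ext M N a b) = T.trace N b • a := T.ptrLaws.ext M N a b

theorem l_kun_act (M N : T.C) (i j : ℤ) (a : End M) (b : End N) (x : T.H M i) (y : T.H N j) :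
    T.map (T.ten.ext M N a b) (i + j) (T.ten.kun M N i j x y)
      = T.ten.kun M N i j (T.map a i x) (T.map b j y) := T.kunAct M N i j a b x y

theorem l_kun_span (M N : T.C) (P : ∀ m, T.H (T.ten.tensor M N) m → Prop) (h0 : ∀ m, P m 0)
    (ha : ∀ m x y, P m x → P m y → P m (x + y))
    (hg : ∀ i j x y, P (i + j) (T.ten.kun M N i j x y)) : ∀ m z, P m z :=
  T.kunSpan M N P h0 ha hg

theorem l_perm_ext (M : T.C) (n : ℕ) (σ : Equiv.Perm (Fin (n + 1))) (a : Fin (n + 1) → End M) :
    T.perm M n σ * extPow T.ten M n a = extPow T.ten M n (fun i => a (σ⁻¹ i)) * T.perm M n σ :=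
  T.permExt M n σ a

theorem l_perm_succ (M : T.C) (n : ℕ) (σ : Equiv.Perm (Fin (n + 1)))
    (σ' : Equiv.Perm (Fin (n + 2))) (h : ∀ i, σ' i.castSucc = (σ i).castSucc) :
    T.perm M (n + 1) σ' = T.ten.ext (T.pow M n) M (T.perm M n σ) 1 := T.permSucc M n σ σ' h

theorem l_perm_kun (M : T.C) (d : ℤ) (n : ℕ) (σ : Equiv.Perm (Fin (n + 1)))
    (x : Fin (n + 1) → T.H M d) : T.map (T.perm M n σ) (degPow d n) (kunPow T.ten M d n x)
      = (Equiv.Perm.sign σ : ℤ) ^ d.natAbs • kunPow T.ten M d n (fun i => x (σ⁻¹ i)) :=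
  T.permKun M d n σ x

theorem l_ptr_swap (M : T.C) (n : ℕ) (j : Fin (n + 1)) (a : Fin (n + 2) → End M) :
    T.ten.ptr (T.pow M n) M (T.perm M (n + 1) (Equiv.swap j.castSucc (Fin.last (n + 1))) *
        extPow T.ten M (n + 1) a)
      = extPow T.ten M n (Function.update (fun i => a i.castSucc) j
          (a (Fin.last (n + 1)) * a j.castSucc)) := T.ptrSwap M n j a

theorem alt_eq (M : T.C) (d n : ℕ) : alt M d n
    = ∑ σ : Equiv.Perm (Fin (n + 1)), (Equiv.Perm.sign σ : ℤ) ^ (d + 1) • T.perm M n σ := rfl

end bridge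




section blocks

variable {R : Type} [Ring R]

/-- the products `q a₁ q a₂ q ... a_m q` with `m ≥ k` factors `a_i` in `N` vanish -/
def Kills (N : R → Prop) (q : R) (k : ℕ) : Prop :=
  ∀ l : List R, (∀ a ∈ l, N a) → k ≤ l.length → q * (l.map (fun a => a * q)).prod = 0

/-- `N` is a two-sided ideal -/
structure IsTwo (N : R → Prop) : Prop where
  zero : N 0
  add : ∀ x y, N x → N y → N (x + y)
  neg : ∀ x, N x → N (-x)
  left : ∀ a x, N x → N (a * x)
  right : ∀ a x, N x → N (x * a)

theorem kills_add {N : R → Prop} (hN : IsTwo N) {q p : R} {k m : ℕ} (hq : Kills N q k)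
    (hp : Kills N p m) : Kills N (q + p) (k + m) := by
  have key : ∀ (l : List R), (∀ a ∈ l, N a) → ∀ (x : R) (i j : ℕ),
      (∀ l' : List R, (∀ a ∈ l', N a) → k + 1 ≤ i + l'.length →
        x * (l'.map (fun a => a * q)).prod = 0) →
      (∀ l' : List R, (∀ a ∈ l', N a) → m + 1 ≤ j + l'.length →
        x * (l'.map (fun a => a * p)).prod = 0) →
      k + m + 1 ≤ i + j + l.length → x * (l.map (fun a => a * (q + p))).prod = 0 := by
    intro l
    induction l with
    | nil =>
      intro _ x i j h1 h2 hlen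
      rw [List.length_nil] at hlen
      by_cases hi : k + 1 ≤ i
      · have := h1 [] (by simp) (by simpa using hi)
        simpa using this
      · have := h2 [] (by simp) (by rw [List.length_nil]; omega)
        simpa using this
    | cons a l ih =>
      intro hl x i j h1 h2 hlen
      have ha : N a := hl a (by simp)
      have hl' : ∀ b ∈ l, N b := fun b hb => hl b (List.mem_cons_of_mem _ hb)
      rw [List.length_cons] at hlen
      rw [List.map_cons, List.prod_cons]
      have e1 : x * (a * (q + p) * (l.map (fun a => a * (q + p))).prod)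
          = x * a * q * (l.map (fun a => a * (q + p))).prod
            + x * a * p * (l.map (fun a => a * (q + p))).prod := by
        rw [mul_add, add_mul, mul_add]
        simp only [mul_assoc]
      rw [e1]
      have step : ∀ (r s : R) (i j k m : ℕ), (∀ l' : List R, (∀ a ∈ l', N a) → k + 1 ≤ i + l'.length →
          x * (l'.map (fun a => a * r)).prod = 0) →
          (∀ l' : List R, (∀ a ∈ l', N a) → m + 1 ≤ j + l'.length →
          x * (l'.map (fun a => a * s)).prod = 0) →
          (∀ l' : List R, (∀ a ∈ l', N a) → k + 1 ≤ (i + 1) + l'.length →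
            x * a * r * (l'.map (fun a => a * r)).prod = 0) ∧
          (∀ l' : List R, (∀ a ∈ l', N a) → m + 1 ≤ j + l'.length →
            x * a * r * (l'.map (fun a => a * s)).prod = 0) := by
        intro r s i j k m h1 h2
        constructor
        · intro l' hl1 hlen'
          have h3 := h1 (a :: l') (by
            intro b hb
            rcases List.mem_cons.1 hb with rfl | hb
            · exact ha
            · exact hl1 b hb) (by rw [List.length_cons]; omega)
          rw [List.map_cons, List.prod_cons] at h3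
          rw [← h3]
          simp only [mul_assoc]
        · intro l' hl1 hlen'
          cases l' with
          | nil =>
            have h3 := h2 [] (by simp) hlen'
            rw [List.map_nil, List.prod_nil, mul_one] at h3 ⊢
            rw [h3, zero_mul, zero_mul]
          | cons b l' =>
            have h3 := h2 (a * r * b :: l') (by
              intro c hc
              rcases List.mem_cons.1 hc with rfl | hc
              · exact hN.left _ _ (hl1 b (by simp))
              · exact hl1 c (List.mem_cons_of_mem _ hc)) (by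
                rw [List.length_cons] at hlen' ⊢
                omega)
            rw [List.map_cons, List.prod_cons] at h3 ⊢
            rw [← h3]
            simp only [mul_assoc]
      have hA := step q p i j k m h1 h2
      have hB := step p q j i m k h2 h1
      rw [ih hl' (x * a * q) (i + 1) j hA.1 hA.2 (by omega),
        ih hl' (x * a * p) i (j + 1) hB.2 hB.1 (by omega), add_zero]
  have start : ∀ (r s : R) (k m : ℕ), Kills N r k → Kills N s m →
      (∀ l' : List R, (∀ a ∈ l', N a) → k + 1 ≤ 1 + l'.length →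
        r * (l'.map (fun a => a * r)).prod = 0) ∧
      (∀ l' : List R, (∀ a ∈ l', N a) → m + 1 ≤ 0 + l'.length →
        r * (l'.map (fun a => a * s)).prod = 0) := by
    intro r s k m hr hs
    constructor
    · intro l' hl1 hlen
      exact hr l' hl1 (by omega)
    · intro l' hl1 hlen
      cases l' with
      | nil =>
        rw [List.length_nil] at hlen
        omega
      | cons b l' =>
        rw [List.map_cons, List.prod_cons, mul_assoc b]
        rw [hs l' (fun c hc => hl1 c (List.mem_cons_of_mem _ hc)) (by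
          rw [List.length_cons] at hlen
          omega), mul_zero, mul_zero]
  intro l hl hlen
  rw [add_mul]
  have h1 := start q p k m hq hp
  have h2 := start p q m k hp hq
  rw [key l hl q 1 0 h1.1 h1.2 (by omega), key l hl p 0 1 h2.2 h2.1 (by omega), add_zero]

theorem kills_zero (N : R → Prop) : Kills N (0 : R) 0 := fun _ _ _ => zero_mul _

theorem kills_sum {ι : Type} {N : R → Prop} (hN : IsTwo N) (s : Finset ι) (q : ι → R) (k : ι → ℕ)
    (h : ∀ i ∈ s, Kills N (q i) (k i)) : Kills N (∑ i ∈ s, q i) (∑ i ∈ s, k i) := by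
  classical
  induction s using Finset.induction_on with
  | empty =>
    rw [sum_empty, sum_empty]
    exact kills_zero N
  | insert i s hi ih =>
    rw [sum_insert hi, sum_insert hi]
    exact kills_add hN (h i (mem_insert_self i s)) (ih fun j hj => h j (mem_insert_of_mem hj))

theorem kills_sum' {ι : Type} {N : R → Prop} (hN : IsTwo N) (s : Finset ι) (q : ι → R)
    (h : ∀ i ∈ s, ∃ k, Kills N (q i) k) : ∃ k, Kills N (∑ i ∈ s, q i) k := by
  classical
  have h' : ∀ i, ∃ k, i ∈ s → Kills N (q i) k := fun i => by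
    by_cases hi : i ∈ s
    · obtain ⟨k, hk⟩ := h i hi
      exact ⟨k, fun _ => hk⟩
    · exact ⟨0, fun hi' => absurd hi' hi⟩
  choose k hk using h'
  exact ⟨_, kills_sum hN s q k hk⟩

/-- `q` may be multiplied on both sides -/
theorem kills_mul {N : R → Prop} (hN : IsTwo N) {q : R} {k : ℕ} (hq : Kills N q k) (u v : R) :
    Kills N (u * q * v) k := by
  intro l hl hlen
  have h1 : ∀ l : List R, u * q * v * (l.map (fun a => a * (u * q * v))).prod
      = u * (q * ((l.map (fun a => v * a * u)).map (fun a => a * q)).prod) * v := by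
    intro l
    induction l with
    | nil => simp
    | cons a l ih =>
      have e1 : ∀ z, u * q * v * (a * (u * q * v) * z) = u * q * (v * a) * (u * q * v * z) := by
        intro z
        simp only [mul_assoc]
      rw [List.map_cons, List.prod_cons, e1, ih, List.map_cons, List.map_cons, List.prod_cons]
      simp only [mul_assoc]
  rw [h1, hq, mul_zero, zero_mul]
  · intro a ha
    obtain ⟨b, hb, rfl⟩ := List.mem_map.1 ha
    exact hN.right _ _ (hN.left _ _ (hl b hb))
  · rwa [List.length_map]

theorem kills_pow {N : R → Prop} {s w : R} {k : ℕ} (hs : Kills N s k) (hw : N w)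
    (hc : Commute s w) : w ^ k * s ^ (k + 1) = 0 := by
  have h1 := hs (List.replicate k w) (fun a ha => by rw [List.eq_of_mem_replicate ha]; exact hw)
    (by rw [List.length_replicate])
  rw [List.map_replicate, List.prod_replicate, hc.symm.mul_pow, ← mul_assoc,
    (hc.pow_right k).eq, mul_assoc, ← pow_succ'] at h1
  exact h1

/-- an idempotent modulo `N` can be lifted, if it is killed -/
theorem lift_idem {N : R → Prop} (hN : IsTwo N) {s : R} {k : ℕ} (hs : Kills N s k)
    (hw : N (s - s ^ 2)) : ∃ e : R, e * e = e ∧ N (e - s) ∧ Kills N e k := by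
  set w := s - s ^ 2 with hwdef
  have hc : Commute s w := by
    rw [hwdef]
    exact (Commute.refl s).sub_right ((Commute.refl s).pow_right 2)
  have h1 := kills_pow hs hw hc
  have hw1 : w = s * (1 - s) := by rw [hwdef, mul_sub, mul_one, sq]
  have hc1 : Commute s (1 - s) := (Commute.one_right s).sub_right (Commute.refl s)
  have h2 : w ^ (k + (k + 1)) = 0 := by
    rw [pow_add]
    conv_lhs => rw [hw1]
    rw [← hw1, hw1, hc1.mul_pow (k + 1), ← mul_assoc, ← hw1, h1, zero_mul]
  set n := k + (k + 1) with hn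
  have hidem := isIdempotentElem_one_sub_one_sub_pow_pow s n h2
  -- the idempotent is a multiple of `s`
  have hg : ∀ (x : R) (m : ℕ), ∃ b : R, 1 - (1 - x) ^ m = x * b ∧ Commute x b := by
    intro x m
    refine ⟨∑ i ∈ range m, (1 - x) ^ i, ?_, ?_⟩
    · have h3 := mul_neg_geom_sum (1 - x) m
      rw [sub_sub_cancel] at h3
      exact h3.symm
    · exact Commute.sum_right _ _ _ fun i _ =>
        ((Commute.one_right x).sub_right (Commute.refl x)).pow_right i
  obtain ⟨b, hb, hbc⟩ := hg (s ^ n) n
  have hn0 : n = (n - 1) + 1 := by omega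
  refine ⟨1 - (1 - s ^ n) ^ n, hidem.eq, ?_, ?_⟩
  · -- modulo `N`
    have hmod : ∀ m : ℕ, 0 < m → ∀ x : R, N (x - x ^ 2) → N (x ^ m - x) := by
      intro m hm x hx
      obtain ⟨j, rfl⟩ : ∃ j, m = j + 1 := ⟨m - 1, by omega⟩
      clear hm
      induction j with
      | zero => rw [zero_add, pow_one, sub_self]; exact hN.zero
      | succ j ih =>
        have e1 : x ^ (j + 1 + 1) - x = x * (x ^ (j + 1) - x) + -(x - x ^ 2) := by
          rw [pow_succ' x (j + 1), mul_sub, sq]
          abel
        rw [e1]
        exact hN.add _ _ (hN.left _ _ ih) (hN.neg _ hx)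
    have h3 := hmod n (by omega) s hw
    have h4 : N ((1 - s ^ n) - (1 - s ^ n) ^ 2) := by
      have e1 : (1 - s ^ n) - (1 - s ^ n) ^ 2 = s ^ n - (s ^ n) ^ 2 := by
        simp only [sq, sub_mul, mul_sub, one_mul, mul_one]
        abel
      rw [e1]
      have e2 : s ^ n - (s ^ n) ^ 2 = (s ^ n - s) + (s - s ^ 2) + -((s ^ n - s) * s ^ n)
          + -(s * (s ^ n - s)) := by
        rw [sub_mul, mul_sub, sq, sq]
        abel
      rw [e2]
      exact hN.add _ _ (hN.add _ _ (hN.add _ _ h3 hw) (hN.neg _ (hN.right _ _ h3)))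
        (hN.neg _ (hN.left _ _ h3))
    have h5 := hmod n (by omega) _ h4
    have e3 : 1 - (1 - s ^ n) ^ n - s = -((1 - s ^ n) ^ n - (1 - s ^ n)) + (s ^ n - s) := by abel
    rw [e3]
    exact hN.add _ _ (hN.neg _ h5) h3
  · have e4 : 1 - (1 - s ^ n) ^ n = 1 * s * (s ^ (n - 1) * b) := by
      rw [hb, one_mul, ← mul_assoc, ← pow_succ', ← hn0]
    rw [e4]
    exact kills_mul hN hs _ _

end blocks



section semisimple

/-- a nondegenerate rational trace makes the image semisimple (Jannsen): left ideals have right units -/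
theorem exists_unit {R E F : Type} [Ring R] [Algebra ℚ R] [Ring E] [Field F] [CharZero F]
    [Algebra F E] [Module.Finite F E] (φ : R →+* E) (Tr : E →ₗ[F] F) (tr : R →ₗ[ℚ] ℚ)
    (htr : ∀ r, ((tr r : ℚ) : F) = Tr (φ r)) (hnil : ∀ r, IsNilpotent (φ r) → tr r = 0)
    (hD : ∀ x, (∀ y, tr (y * x) = 0) → φ x = 0) (L : Ideal R) :
    ∃ e ∈ L, ∀ x ∈ L, φ (x * e) = φ x := by
  obtain ⟨b, hbS, hbspan, hbli⟩ := exists_linearIndependent F (Set.range φ)
  have hbfin : Finite b := hbli.finite
  choose r hr using fun i : b => hbS i.2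
  let K : Ideal R := RingHom.ker φ
  let f : R →ₗ[ℚ] (b → ℚ) := LinearMap.pi fun i => tr ∘ₗ LinearMap.mulLeft ℚ (r i)
  have hf : ∀ x i, f x i = tr (r i * x) := fun x i => rfl
  have hker : K.restrictScalars ℚ = LinearMap.ker f := by
    ext x
    rw [Submodule.restrictScalars_mem, LinearMap.mem_ker, RingHom.mem_ker]
    constructor
    · intro hx
      funext i
      rw [hf]
      refine hnil _ ⟨1, ?_⟩
      rw [map_mul, hx, mul_zero, pow_one]
    · intro hx
      refine hD x fun y => ?_
      have h1 : ∀ z ∈ Submodule.span F b, Tr (z * φ x) = 0 := by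
        intro z hz
        induction hz using Submodule.span_induction with
        | mem z hz =>
          have h2 := congrFun hx ⟨z, hz⟩
          rw [hf] at h2
          have h3 := htr (r ⟨z, hz⟩ * x)
          rw [h2, map_mul, hr] at h3
          rw [← h3]
          exact Rat.cast_zero
        | zero => rw [zero_mul, map_zero]
        | add u v _ _ hu hv => rw [add_mul, map_add, hu, hv, add_zero]
        | smul c u _ hu => rw [smul_mul_assoc, map_smul, hu, smul_zero]
      have h4 : φ y ∈ Submodule.span F b := by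
        rw [hbspan]
        exact Submodule.subset_span ⟨y, rfl⟩
      have h5 := htr (y * x)
      rw [map_mul φ, h1 _ h4] at h5
      exact_mod_cast h5
  have hfin1 : Module.Finite ℚ (R ⧸ K.restrictScalars ℚ) := by
    refine Module.Finite.of_injective ((K.restrictScalars ℚ).liftQ f hker.le) ?_
    rw [← LinearMap.ker_eq_bot]
    exact Submodule.ker_liftQ_eq_bot _ _ _ hker.ge
  have hfin2 : Module.Finite ℚ (R ⧸ K) :=
    Module.Finite.equiv (Submodule.Quotient.restrictScalarsEquiv ℚ K)
  have hart : IsArtinianRing (R ⧸ K) := IsArtinianRing.of_finite ℚ (R ⧸ K)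
  have hss : IsSemisimpleRing (R ⧸ K) := by
    rw [IsArtinianRing.isSemisimpleRing_iff_jacobson, eq_bot_iff]
    intro x hx
    rw [Submodule.mem_bot]
    obtain ⟨x, rfl⟩ := Ideal.Quotient.mk_surjective x
    rw [Ideal.Quotient.eq_zero_iff_mem, RingHom.mem_ker]
    refine hD x fun y => hnil _ ?_
    have h1 : Ideal.Quotient.mk K (y * x) ∈ Ring.jacobson (R ⧸ K) := by
      rw [map_mul]
      exact Ideal.mul_mem_left _ _ hx
    obtain ⟨n, hn⟩ : IsNilpotent (Ring.jacobson (R ⧸ K)) := IsSemiprimaryRing.isNilpotent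
    have h2 : (Ideal.Quotient.mk K (y * x)) ^ n ∈ (Ring.jacobson (R ⧸ K)) ^ n :=
      Ideal.pow_mem_pow h1 n
    rw [hn, ← map_pow] at h2
    have h3 : Ideal.Quotient.mk K ((y * x) ^ n) = 0 := h2
    rw [Ideal.Quotient.eq_zero_iff_mem, RingHom.mem_ker, map_pow] at h3
    exact ⟨n, h3⟩
  obtain ⟨e', he', hL⟩ := IsSemisimpleRing.ideal_eq_span_idempotent (L.map (Ideal.Quotient.mk K))
  have h1 : e' ∈ L.map (Ideal.Quotient.mk K) := by
    rw [hL]
    exact Ideal.mem_span_singleton_self e'
  obtain ⟨e, he, rfl⟩ := (Ideal.mem_map_iff_of_surjective _ Ideal.Quotient.mk_surjective).1 h1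
  refine ⟨e, he, fun x hx => ?_⟩
  have h2 : Ideal.Quotient.mk K x ∈ L.map (Ideal.Quotient.mk K) := Ideal.mem_map_of_mem _ hx
  rw [hL, Ideal.mem_span_singleton'] at h2
  obtain ⟨a, ha⟩ := h2
  have h3 : Ideal.Quotient.mk K (x * e) = Ideal.Quotient.mk K x := by
    rw [map_mul, ← ha, mul_assoc, he'.eq]
  rw [Ideal.Quotient.eq, RingHom.mem_ker, map_sub, sub_eq_zero] at h3
  exact h3

end semisimple



section basics

variable (T : ChowTheory)

theorem map_zero' {M N : T.C} (j : ℤ) (x : T.H M j) : T.map (0 : M ⟶ N) j x = 0 := by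
  have h := l_add (0 : M ⟶ N) 0 j x
  rw [add_zero] at h
  exact left_eq_add.1 h

/-- the action of endomorphisms on homology -/
instance endMod (M : T.C) (j : ℤ) : Module (End M) (T.H M j) where
  smul a x := T.map a j x
  one_smul x := l_id M j x
  mul_smul a b x := l_comp b a j x
  smul_zero a := map_zero (T.map a j)
  smul_add a x y := map_add (T.map a j) x y
  add_smul a b x := l_add a b j x
  zero_smul x := map_zero' T j x

variable {T}

theorem smul_def {M : T.C} {j : ℤ} (a : End M) (x : T.H M j) : a • x = T.map a j x := rfl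

theorem map_eq_zero {M N : T.C} {f : M ⟶ N} (h : HomTrivial f) (j : ℤ) (x : T.H M j) :
    T.map f j x = 0 := by
  rw [h j]
  rfl

theorem homTrivial_of {M N : T.C} {f : M ⟶ N} (h : ∀ j (x : T.H M j), T.map f j x = 0) :
    HomTrivial f := fun j => LinearMap.ext fun x => h j x

theorem homTrivial_zero {M N : T.C} : HomTrivial (0 : M ⟶ N) := homTrivial_of (map_zero' T)

theorem homTrivial_add {M N : T.C} {f g : M ⟶ N} (hf : HomTrivial f) (hg : HomTrivial g) :
    HomTrivial (f + g) := homTrivial_of fun j x => by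
  rw [l_add, map_eq_zero hf, map_eq_zero hg, add_zero]

theorem map_neg' {M N : T.C} (f : M ⟶ N) (j : ℤ) (x : T.H M j) :
    T.map (-f) j x = - T.map f j x := by
  have h := l_add f (-f) j x
  rw [add_neg_cancel, map_zero'] at h
  exact (neg_eq_of_add_eq_zero_right h.symm).symm

theorem map_sub' {M N : T.C} (f g : M ⟶ N) (j : ℤ) (x : T.H M j) :
    T.map (f - g) j x = T.map f j x - T.map g j x := by
  rw [sub_eq_add_neg, l_add, map_neg', sub_eq_add_neg]

theorem homTrivial_neg {M N : T.C} {f : M ⟶ N} (hf : HomTrivial f) : HomTrivial (-f) :=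
  homTrivial_of fun j x => by rw [map_neg', map_eq_zero hf, neg_zero]

theorem homTrivial_comp_left {M N P : T.C} {f : M ⟶ N} (g : N ⟶ P) (hf : HomTrivial f) :
    HomTrivial (f ≫ g) := homTrivial_of fun j x => by
  rw [l_comp, map_eq_zero hf, map_zero]

theorem homTrivial_comp_right {M N P : T.C} (f : M ⟶ N) {g : N ⟶ P} (hg : HomTrivial g) :
    HomTrivial (f ≫ g) := homTrivial_of fun j x => by
  rw [l_comp, map_eq_zero hg]

/-- the homologically trivial endomorphisms form an ideal -/
theorem isTwo (M : T.C) : IsTwo (fun a : End M => HomTrivial (T := T) a) where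
  zero := homTrivial_zero
  add _ _ hx hy := homTrivial_add hx hy
  neg _ hx := homTrivial_neg hx
  left a _ hx := homTrivial_comp_left (M := M) (N := M) (P := M) a hx
  right a _ hx := homTrivial_comp_right (M := M) (N := M) (P := M) a hx

/-- the graded endomorphisms of the homology of `M` -/
abbrev GrEnd (M : T.C) : Type := ∀ j : T.deg M, Module.End T.F (T.H M j)

/-- the realization of endomorphisms -/
def real (M : T.C) : End M →+* GrEnd M where
  toFun a j := T.map a j
  map_one' := by
    funext j
    exact LinearMap.ext fun x => l_id M j x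
  map_mul' a b := by
    funext j
    exact LinearMap.ext fun x => l_comp b a j x
  map_zero' := by
    funext j
    exact LinearMap.ext fun x => map_zero' T j x
  map_add' a b := by
    funext j
    exact LinearMap.ext fun x => l_add a b j x

theorem real_apply {M : T.C} (a : End M) (j : T.deg M) : real M a j = T.map a j := rfl

theorem real_eq_zero_iff {M : T.C} (a : End M) : real M a = 0 ↔ HomTrivial (T := T) a := by
  constructor
  · intro h j
    by_cases hj : j ∈ T.deg M
    · exact congrFun h ⟨j, hj⟩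
    · exact LinearMap.ext fun x => l_deg M j hj _
  · intro h
    funext j
    exact h j

/-- the alternating trace -/
noncomputable def trE (M : T.C) : GrEnd M →ₗ[T.F] T.F :=
  ∑ j : T.deg M, (-1 : T.F) ^ (j : ℤ) • (LinearMap.trace T.F (T.H M j) ∘ₗ LinearMap.proj j)

theorem trE_real {M : T.C} (a : End M) : trE M (real M a) = ((T.trace M a : ℚ) : T.F) := by
  rw [l_trace M a, trE, LinearMap.sum_apply]
  rw [← Finset.sum_coe_sort (T.deg M) (fun j => (-1 : T.F) ^ j *
    LinearMap.trace T.F (T.H M j) (T.map a j))]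
  rfl

/-- the trace as a linear map -/
noncomputable def trQ (M : T.C) : End M →ₗ[ℚ] ℚ :=
  AddMonoidHom.toRatLinearMap
    { toFun := fun a => T.trace M a
      map_zero' := by
        have h := trE_real (0 : End M)
        rw [map_zero, map_zero] at h
        exact_mod_cast h.symm
      map_add' := fun a b => by
        have h := trE_real (a + b)
        rw [map_add, map_add, trE_real, trE_real] at h
        exact_mod_cast h.symm }

theorem trQ_apply {M : T.C} (a : End M) : trQ M a = T.trace M a := rfl

theorem trace_nil {M : T.C} {a : End M} (h : IsNilpotent (real M a)) : T.trace M a = 0 := by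
  have h1 := l_trace M a
  rw [sum_eq_zero] at h1
  · exact_mod_cast h1
  · intro j hj
    have h2 : IsNilpotent (T.map a j) := by
      obtain ⟨n, hn⟩ := h
      exact ⟨n, congrFun hn ⟨j, hj⟩⟩
    rw [(LinearMap.isNilpotent_trace_of_isNilpotent h2).eq_zero, mul_zero]

theorem trace_hom {M : T.C} {a : End M} (h : HomTrivial (T := T) a) : T.trace M a = 0 :=
  trace_nil ⟨1, by rw [pow_one, real_eq_zero_iff]; exact h⟩

/-- under D every morphism is regular modulo homologically trivial morphisms -/
theorem regular (hD : ConjD T) {M N : T.C} (f : M ⟶ N) :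
    ∃ g : N ⟶ M, HomTrivial (f ≫ g ≫ f - f) := by
  let L : Ideal (End M) :=
    { carrier := {b | ∃ g : N ⟶ M, b = f ≫ g}
      zero_mem' := ⟨0, by rw [Limits.comp_zero]⟩
      add_mem' := by
        rintro _ _ ⟨g, rfl⟩ ⟨g', rfl⟩
        exact ⟨g + g', by rw [Preadditive.comp_add]⟩
      smul_mem' := by
        rintro a _ ⟨g, rfl⟩
        exact ⟨g ≫ a, (Category.assoc f g a)⟩ }
  obtain ⟨e, ⟨g, rfl⟩, he⟩ := exists_unit (F := T.F) (real M) (trE M) (trQ M)
    (fun r => (trE_real r).symm) (fun r hr => trace_nil hr)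
    (fun x hx => (real_eq_zero_iff x).2 (hD x fun y => hx y)) L
  refine ⟨g, hD _ fun k => trace_hom ?_⟩
  rw [← real_eq_zero_iff]
  have h1 := he (f ≫ k) ⟨k, rfl⟩
  rw [← sub_eq_zero, ← map_sub] at h1
  rw [← h1]
  congr 1
  show (f ≫ g ≫ f - f) ≫ k = (f ≫ g) ≫ f ≫ k - f ≫ k
  rw [Preadditive.sub_comp]
  simp only [Category.assoc]

end basics



theorem sign_sq {n : ℕ} (σ : Equiv.Perm (Fin n)) :
    (Equiv.Perm.sign σ : ℤ) * (Equiv.Perm.sign σ : ℤ) = 1 := by
  rw [← Units.val_mul, Int.units_mul_self]
  rfl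

section ring

variable {T : ChowTheory} {X : T.C}

theorem extPow_mul (n : ℕ) (a b : Fin (n + 1) → End X) :
    extPow T.ten X n (fun i => a i * b i) = extPow T.ten X n a * extPow T.ten X n b := by
  induction n with
  | zero => rfl
  | succ n ih =>
    show T.ten.ext _ _ (extPow T.ten X n fun i => a i.castSucc * b i.castSucc) _ = _
    rw [ih (fun i => a i.castSucc) (fun i => b i.castSucc), T.extLaws.mul]
    rfl

theorem perm_alt (d n : ℕ) (ρ : Equiv.Perm (Fin (n + 1))) :
    T.perm X n ρ * alt X d n = (Equiv.Perm.sign ρ : ℤ) ^ (d + 1) • alt X d n := by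
  simp only [alt_eq]
  rw [mul_sum, smul_sum]
  refine Fintype.sum_equiv (Equiv.mulLeft ρ) _ _ fun σ => ?_
  rw [Equiv.coe_mulLeft, Equiv.Perm.sign_mul, map_mul, mul_smul_comm, smul_smul]
  congr 1
  rw [Units.val_mul, ← mul_pow, ← mul_assoc, sign_sq, one_mul]

theorem alt_alt (d n : ℕ) :
    alt X d n * alt X d n = (Nat.factorial (n + 1)) • alt X d n := by
  have h : ∀ σ : Equiv.Perm (Fin (n + 1)),
      (Equiv.Perm.sign σ : ℤ) ^ (d + 1) • T.perm X n σ * alt X d n = alt X d n := by
    intro σ
    rw [smul_mul_assoc, perm_alt, smul_smul, ← mul_pow, sign_sq, one_pow, one_smul]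
  have h1 : alt X d n * alt X d n = ∑ σ : Equiv.Perm (Fin (n + 1)),
      (Equiv.Perm.sign σ : ℤ) ^ (d + 1) • T.perm X n σ * alt X d n := by
    rw [← sum_mul]
    rfl
  rw [h1, sum_congr rfl fun σ _ => h σ, sum_const, card_univ, Fintype.card_perm, Fintype.card_fin]

theorem alt_comm (d n : ℕ) (p : End X) :
    alt X d n * extPow T.ten X n (fun _ => p) = extPow T.ten X n (fun _ => p) * alt X d n := by
  simp only [alt_eq]
  rw [sum_mul, mul_sum]
  refine sum_congr rfl fun σ _ => ?_
  rw [smul_mul_assoc, l_perm_ext, mul_smul_comm]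

end ring

section cohomology

variable {T : ChowTheory}

/-- the exterior product with one more factor -/
def kunS (X : T.C) (n : ℕ) (i j : ℤ) (x : T.H (T.pow X n) i) (y : T.H X j) :
    T.H (T.pow X (n + 1)) (i + j) := T.ten.kun (T.pow X n) X i j x y

theorem kunS_zero_left (X : T.C) (n : ℕ) (i j : ℤ) (y : T.H X j) : kunS X n i j 0 y = 0 := by
  show T.ten.kun (T.pow X n) X i j 0 y = 0
  rw [map_zero]
  rfl

theorem kunS_zero_right (X : T.C) (n : ℕ) (i j : ℤ) (x : T.H (T.pow X n) i) :
    kunS X n i j x 0 = 0 := map_zero (T.ten.kun (T.pow X n) X i j x)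

theorem kunS_add_left (X : T.C) (n : ℕ) (i j : ℤ) (x x' : T.H (T.pow X n) i) (y : T.H X j) :
    kunS X n i j (x + x') y = kunS X n i j x y + kunS X n i j x' y := by
  show T.ten.kun (T.pow X n) X i j (x + x') y = _
  rw [map_add]
  rfl

theorem extPow_kunS {X : T.C} (n : ℕ) (i j : ℤ) (a : Fin (n + 2) → End X)
    (x : T.H (T.pow X n) i) (y : T.H X j) : extPow T.ten X (n + 1) a • kunS X n i j x y
      = kunS X n i j ((extPow T.ten X n fun i => a i.castSucc) • x) (a (Fin.last (n + 1)) • y) :=
  l_kun_act (T.pow X n) X i j _ _ x y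

/-- the homology of a power of a pure motive is generated by exterior products -/
theorem spanPow {X : T.C} (d : ℤ) {p : End X} (hp : ∀ j (x : T.H X j), j ≠ d → p • x = 0) (n : ℕ) :
    ∀ (P : ∀ m, T.H (T.pow X n) m → Prop), (∀ m, P m 0) →
    (∀ m x y, P m x → P m y → P m (x + y)) →
    (∀ x : Fin (n + 1) → T.H X d, P (degPow d n) (kunPow T.ten X d n x)) →
    ∀ m z, P m (extPow T.ten X n (fun _ => p) • z) := by
  induction n with
  | zero =>
    intro P h0 _ hg m z
    by_cases hm : m = d
    · subst hm
      exact hg (fun _ => T.map p m z)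
    · have h1 : extPow T.ten X 0 (fun _ => p) • z = 0 := hp m z hm
      rw [h1]
      exact h0 m
  | succ n ih =>
    intro P h0 hadd hg
    refine l_kun_span (T.pow X n) X
      (fun m (z : T.H (T.pow X (n + 1)) m) =>
        P m (extPow T.ten X (n + 1) (fun _ => p) • z)) ?_ ?_ ?_
    · intro m
      show P m (extPow T.ten X (n + 1) (fun _ => p) • (0 : T.H (T.pow X (n + 1)) m))
      rw [smul_zero]
      exact h0 m
    · intro m (x : T.H (T.pow X (n + 1)) m) (y : T.H (T.pow X (n + 1)) m) hx hy
      show P m (extPow T.ten X (n + 1) (fun _ => p) • (x + y))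
      rw [smul_add]
      exact hadd m _ _ hx hy
    · intro i j x y
      show P (i + j) (extPow T.ten X (n + 1) (fun _ => p) • kunS X n i j x y)
      rw [extPow_kunS]
      by_cases hj : j = d
      · subst hj
        refine ih (fun m w => P (m + j) (kunS X n m j w (p • y))) ?_ ?_ ?_ i x
        · intro m
          show P (m + j) (kunS X n m j 0 (p • y))
          rw [kunS_zero_left]
          exact h0 _
        · intro m x x' hx hx'
          show P (m + j) (kunS X n m j (x + x') (p • y))
          rw [kunS_add_left]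
          exact hadd _ _ _ hx hx'
        · intro x'
          have h1 := hg (Fin.snoc (α := fun _ => T.H X j) x' (p • y))
          have h2 : kunPow T.ten X j (n + 1) (Fin.snoc (α := fun _ => T.H X j) x' (p • y))
              = kunS X n (degPow j n) j (kunPow T.ten X j n x') (p • y) := by
            show T.ten.kun (T.pow X n) X (degPow j n) j _ _
              = T.ten.kun (T.pow X n) X (degPow j n) j _ _
            simp only [Fin.snoc_castSucc, Fin.snoc_last]
          rw [h2] at h1
          exact h1
      · have h2 : kunS X n i j ((extPow T.ten X n fun _ => p) • x) (p • y) = 0 := by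
          rw [hp j y hj]
          exact kunS_zero_right _ _ _ _ _
        show P (i + j) (kunS X n i j ((extPow T.ten X n fun _ => p) • x) (p • y))
        rw [h2]
        exact h0 _

/-- the exterior product as a multilinear map -/
def kunMulti (X : T.C) (d : ℤ) : (n : ℕ) →
    MultilinearMap T.F (fun _ : Fin (n + 1) => T.H X d) (T.H (T.pow X n) (degPow d n))
  | 0 => MultilinearMap.ofSubsingleton T.F (T.H X d) (T.H X d) (0 : Fin 1) LinearMap.id
  | n + 1 =>
    MultilinearMap.uncurryRight (M := fun _ => T.H X d)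
      ((T.ten.kun (T.pow X n) X (degPow d n) d).compMultilinearMap (kunMulti X d n))

theorem kunMulti_apply (X : T.C) (d : ℤ) (n : ℕ) (x : Fin (n + 1) → T.H X d) :
    kunMulti X d n x = kunPow T.ten X d n x := by
  induction n with
  | zero => rfl
  | succ n ih =>
    show T.ten.kun (T.pow X n) X (degPow d n) d (kunMulti X d n (Fin.init x))
      (x (Fin.last (n + 1))) = _
    rw [ih]
    rfl

theorem alt_kun (X : T.C) (d : ℤ) (n : ℕ) (x : Fin (n + 1) → T.H X d) :
    alt X d.natAbs n • kunPow T.ten X d n x = (kunMulti X d n).alternatization x := by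
  rw [MultilinearMap.alternatization_apply, alt_eq, sum_smul]
  refine Fintype.sum_equiv (Equiv.inv _) _ _ fun σ => ?_
  have h0 : T.perm X n σ • kunPow T.ten X d n x
      = (Equiv.Perm.sign σ : ℤ) ^ d.natAbs • kunPow T.ten X d n (fun i => x (σ⁻¹ i)) :=
    l_perm_kun X d n σ x
  rw [MultilinearMap.domDomCongr_apply, kunMulti_apply, smul_assoc, h0, smul_smul]
  rw [← pow_add, Equiv.inv_apply, Equiv.Perm.sign_inv]
  have h : (Equiv.Perm.sign σ : ℤ) ^ (d.natAbs + 1 + d.natAbs) = Equiv.Perm.sign σ := by
    have h1 : d.natAbs + 1 + d.natAbs = 2 * d.natAbs + 1 := by omega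
    rw [h1, pow_succ, pow_mul, sq, sign_sq, one_pow, one_mul]
  rw [h]
  rfl

/-- the top exterior power of a pure motive acts as zero on homology -/
theorem alt_hom {X : T.C} (d : ℤ) {p : End X} (hp : ∀ j (x : T.H X j), j ≠ d → p • x = 0) (n : ℕ)
    (hn : Module.finrank T.F (T.H X d) < n + 1) (m : ℤ) (z : T.H (T.pow X n) m) :
    (alt X d.natAbs n * extPow T.ten X n fun _ => p) • z = 0 := by
  rw [mul_smul]
  refine spanPow d hp n (fun m w => alt X d.natAbs n • w = 0) ?_ ?_ ?_ m z
  · intro m
    exact smul_zero _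
  · intro m x y hx hy
    show alt X d.natAbs n • (x + y) = 0
    rw [smul_add, hx, hy, add_zero]
  · intro x
    show alt X d.natAbs n • kunPow T.ten X d n x = 0
    rw [alt_kun]
    refine AlternatingMap.map_linearDependent _ _ fun hli => ?_
    have h1 := hli.fintype_card_le_finrank
    rw [Fintype.card_fin] at h1
    omega

end cohomology



section traces

variable {T : ChowTheory} {X : T.C}

/-- the permutation of `Fin (n + 2)` that extends a permutation of `Fin (n + 1)` -/
def lift {n : ℕ} (σ : Equiv.Perm (Fin n)) : Equiv.Perm (Fin (n + 1)) :=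
  finSuccEquivLast.symm.permCongr (Equiv.optionCongr σ)

theorem lift_castSucc {n : ℕ} (σ : Equiv.Perm (Fin n)) (i : Fin n) :
    lift σ i.castSucc = (σ i).castSucc := by
  simp [lift, Equiv.permCongr_apply]

theorem sign_lift {n : ℕ} (σ : Equiv.Perm (Fin n)) :
    Equiv.Perm.sign (lift σ) = Equiv.Perm.sign σ := by
  rw [lift, Equiv.Perm.sign_permCongr, Equiv.optionCongr_sign]

/-- a permutation of `Fin (n + 1)` is a transposition that moves the last element, times a
permutation that fixes it -/
def decomp (n : ℕ) : Option (Fin n) × Equiv.Perm (Fin n) ≃ Equiv.Perm (Fin (n + 1)) :=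
  Equiv.Perm.decomposeOption.symm.trans finSuccEquivLast.symm.permCongr

theorem decomp_none (n : ℕ) (σ : Equiv.Perm (Fin n)) : decomp n (none, σ) = lift σ := by
  rw [decomp, Equiv.trans_apply, Equiv.Perm.decomposeOption_symm_apply]
  simp only
  rw [Equiv.swap_self]
  rfl

theorem decomp_some (n : ℕ) (j : Fin n) (σ : Equiv.Perm (Fin n)) :
    decomp n (some j, σ) = Equiv.swap j.castSucc (Fin.last n) * lift σ := by
  rw [decomp, Equiv.trans_apply, Equiv.Perm.decomposeOption_symm_apply]
  simp only
  refine Equiv.ext fun i => ?_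
  simp only [lift, Equiv.permCongr_apply, Equiv.Perm.coe_mul, Function.comp_apply,
    Equiv.symm_symm]
  rw [finSuccEquivLast.symm.injective.map_swap, finSuccEquivLast_symm_none,
    finSuccEquivLast_symm_some, Equiv.swap_comm]

theorem lift_inv {n : ℕ} (σ : Equiv.Perm (Fin n)) : (lift σ)⁻¹ = lift σ⁻¹ := by
  rw [inv_eq_iff_mul_eq_one]
  refine Equiv.ext fun i => ?_
  refine Fin.lastCases ?_ (fun i => ?_) i
  · simp [lift, Equiv.permCongr_apply]
  · rw [Equiv.Perm.mul_apply, lift_castSucc, lift_castSucc]
    simp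

theorem sign_swap_last {n : ℕ} (j : Fin n) :
    Equiv.Perm.sign (Equiv.swap j.castSucc (Fin.last n)) = -1 :=
  Equiv.Perm.sign_swap (Fin.castSucc_lt_last j).ne

/-- the product with one more factor -/
def extS (X : T.C) (n : ℕ) (b : End X) : End (T.pow X n) →+ End (T.pow X (n + 1)) where
  toFun a := T.ten.ext (T.pow X n) X a b
  map_zero' := by
    have h := T.extLaws.add (T.pow X n) X 0 0 b
    rw [add_zero] at h
    exact left_eq_add.1 h
  map_add' a a' := T.extLaws.add _ _ a a' b

/-- the trace over the last factor -/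
def ptrS (X : T.C) (n : ℕ) : End (T.pow X (n + 1)) →+ End (T.pow X n) := T.ten.ptr (T.pow X n) X

theorem ptrS_mul (n : ℕ) (c : End (T.pow X n)) (b : End (T.pow X (n + 1))) :
    ptrS X n (extS X n 1 c * b) = c * ptrS X n b := l_ptr_mul (T.pow X n) X c b

theorem ptrS_extPow (n : ℕ) (a : Fin (n + 2) → End X) :
    ptrS X n (extPow T.ten X (n + 1) a)
      = T.trace X (a (Fin.last (n + 1))) • extPow T.ten X n (fun i => a i.castSucc) :=
  l_ptr_ext (T.pow X n) X _ _

theorem ptrS_swap (n : ℕ) (j : Fin (n + 1)) (a : Fin (n + 2) → End X) :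
    ptrS X n (T.perm X (n + 1) (Equiv.swap j.castSucc (Fin.last (n + 1))) *
        extPow T.ten X (n + 1) a)
      = extPow T.ten X n (Function.update (fun i => a i.castSucc) j
          (a (Fin.last (n + 1)) * a j.castSucc)) := l_ptr_swap X n j a

theorem perm_lift (n : ℕ) (σ : Equiv.Perm (Fin (n + 1))) :
    T.perm X (n + 1) (lift σ) = extS X n 1 (T.perm X n σ) :=
  l_perm_succ X n σ (lift σ) (lift_castSucc _)

theorem alt_inv (d n : ℕ) : alt X d n = ∑ σ : Equiv.Perm (Fin (n + 1)),
    (Equiv.Perm.sign σ : ℤ) ^ (d + 1) • T.perm X n σ⁻¹ := by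
  simp only [alt_eq]
  refine Fintype.sum_equiv (Equiv.inv _) _ _ fun σ => ?_
  rw [Equiv.inv_apply, Equiv.Perm.sign_inv, inv_inv]

theorem alt_succ (d n : ℕ) : alt X d (n + 1)
    = extS X n 1 (alt X d n) * (1 + (-1 : ℤ) ^ (d + 1) • ∑ j : Fin (n + 1),
      T.perm X (n + 1) (Equiv.swap j.castSucc (Fin.last (n + 1)))) := by
  have h2 : extS X n 1 (alt X d n) = ∑ σ : Equiv.Perm (Fin (n + 1)),
      (Equiv.Perm.sign σ : ℤ) ^ (d + 1) • T.perm X (n + 1) (lift σ)⁻¹ := by
    rw [alt_inv, map_sum]
    refine sum_congr rfl fun σ _ => ?_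
    rw [map_zsmul, lift_inv, perm_lift]
  rw [alt_inv d (n + 1), ← (decomp (n + 1)).sum_comp, Fintype.sum_prod_type, Fintype.sum_option]
  rw [mul_add, mul_one]
  congr 1
  · rw [h2]
    refine sum_congr rfl fun σ _ => ?_
    rw [decomp_none, sign_lift]
  · rw [mul_smul_comm, mul_sum, smul_sum]
    refine sum_congr rfl fun j _ => ?_
    rw [h2, sum_mul, smul_sum]
    refine sum_congr rfl fun σ _ => ?_
    rw [decomp_some, Equiv.Perm.sign_mul, sign_swap_last, sign_lift, mul_inv_rev, map_mul,
      Equiv.swap_inv, smul_mul_assoc, smul_smul]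
    congr 1
    rw [Units.val_mul, mul_pow]
    rfl

/-- the trace over the last factor of the symmetrised product -/
theorem ptr_alt (d n : ℕ) (a : Fin (n + 2) → End X) :
    ptrS X n (alt X d (n + 1) * extPow T.ten X (n + 1) a)
      = alt X d n * (T.trace X (a (Fin.last (n + 1))) • extPow T.ten X n (fun i => a i.castSucc) +
        (-1 : ℤ) ^ (d + 1) • ∑ j : Fin (n + 1), extPow T.ten X n
          (Function.update (fun i => a i.castSucc) j (a (Fin.last (n + 1)) * a j.castSucc))) := by
  rw [alt_succ, mul_assoc, ptrS_mul, add_mul, one_mul, smul_mul_assoc, sum_mul, map_add,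
    map_zsmul, map_sum, ptrS_extPow]
  simp_rw [ptrS_swap]

/-- the trace over all factors but the first -/
def tot (X : T.C) : (n : ℕ) → End (T.pow X n) →+ End X
  | 0 => AddMonoidHom.id _
  | n + 1 => (tot X n).comp (ptrS X n)

theorem tot_pow {a p : End X} (hp : p * p = p) (hap : a * p = a) (hpa : p * a = a)
    (htr : ∀ k, T.trace X (a ^ (k + 1)) = 0) (d n : ℕ) :
    ∀ k : Fin (n + 1) → ℕ, (∀ i, i ≠ 0 → 1 ≤ k i) →
      tot X n (alt X d n * extPow T.ten X n fun i => a ^ k i * p)
        = ((-1 : ℤ) ^ ((d + 1) * n) * (n.factorial : ℤ)) • (a ^ (∑ i, k i) * p) := by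
  have hcomm : ∀ k, p * a ^ k = a ^ k * p := by
    intro k
    induction k with
    | zero => simp
    | succ k ih => rw [pow_succ, ← mul_assoc, ih, mul_assoc, hpa, mul_assoc, hap]
  have hmul : ∀ k l, a ^ k * p * (a ^ l * p) = a ^ (k + l) * p := by
    intro k l
    rw [mul_assoc, ← mul_assoc p, hcomm, mul_assoc, hp, ← mul_assoc, ← pow_add]
  induction n with
  | zero =>
    intro k _
    have h1 : alt X d 0 = 1 := by
      simp only [alt_eq]
      rw [Fintype.sum_eq_single 1]
      · simp
      · intro σ hσ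
        exact absurd (Subsingleton.elim (α := Equiv.Perm (Fin 1)) σ 1) hσ
    rw [h1, one_mul]
    show a ^ k 0 * p = _
    have h2 : ∑ i : Fin (0 + 1), k i = k 0 := Fin.sum_univ_one k
    rw [h2]
    simp
  | succ n ih =>
    intro k hk
    show tot X n (ptrS X n _) = _
    rw [ptr_alt]
    have h1 : T.trace X (a ^ k (Fin.last (n + 1)) * p) = 0 := by
      obtain ⟨l, hl⟩ : ∃ l, k (Fin.last (n + 1)) = l + 1 :=
        ⟨k (Fin.last (n + 1)) - 1, by have := hk (Fin.last (n + 1)) (Fin.last_pos.ne'); omega⟩
      rw [hl, pow_succ, mul_assoc, hap, ← pow_succ]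
      exact htr l
    rw [h1, zero_smul, zero_add, mul_smul_comm, mul_sum, map_zsmul, map_sum]
    have h2 : ∀ j : Fin (n + 1), tot X n (alt X d n * extPow T.ten X n
        (Function.update (fun i : Fin (n + 1) => a ^ k i.castSucc * p) j
          (a ^ k (Fin.last (n + 1)) * p * (a ^ k j.castSucc * p))))
        = ((-1 : ℤ) ^ ((d + 1) * n) * (n.factorial : ℤ)) • (a ^ (∑ i, k i) * p) := by
      intro j
      have h3 : (Function.update (fun i : Fin (n + 1) => a ^ k i.castSucc * p) j
          (a ^ k (Fin.last (n + 1)) * p * (a ^ k j.castSucc * p)))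
          = fun i => a ^ (Function.update (fun i : Fin (n + 1) => k i.castSucc) j
            (k (Fin.last (n + 1)) + k j.castSucc) i) * p := by
        funext i
        by_cases hij : i = j
        · subst hij
          rw [Function.update_self, Function.update_self, hmul]
        · rw [Function.update_of_ne hij, Function.update_of_ne hij]
      rw [h3, ih]
      · congr 3
        rw [sum_update_of_mem (mem_univ j), Fin.sum_univ_castSucc k,
          ← add_sum_erase univ (fun i : Fin (n + 1) => k i.castSucc) (mem_univ j), sdiff_singleton_eq_erase]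
        ring
      · intro i hi
        by_cases hij : i = j
        · subst hij
          rw [Function.update_self]
          have := hk (Fin.last (n + 1)) (Fin.last_pos.ne')
          omega
        · rw [Function.update_of_ne hij]
          exact hk _ (by
            intro h0
            exact hi (Fin.castSucc_injective _ (h0.trans (Fin.castSucc_zero).symm)))
    rw [sum_congr rfl fun j _ => h2 j, sum_const, card_univ, Fintype.card_fin, ← natCast_zsmul,
      smul_smul, smul_smul]
    congr 1
    rw [Nat.factorial_succ]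
    push_cast
    ring

/-- the vanishing of the power of a numerically trivial endomorphism of `h^d` -/
theorem pow_mul_eq_zero {a p : End X} (hp : p * p = p) (hap : a * p = a) (hpa : p * a = a)
    (htr : ∀ k, T.trace X (a ^ (k + 1)) = 0) (d n : ℕ)
    (hE : alt X d n * extPow T.ten X n (fun _ => p) = 0) : a ^ n * p = 0 := by
  have hcomm : ∀ k, p * a ^ k = a ^ k * p := by
    intro k
    induction k with
    | zero => simp
    | succ k ih => rw [pow_succ, ← mul_assoc, ih, mul_assoc, hpa, mul_assoc, hap]
  have h1 := tot_pow hp hap hpa htr d n (fun i => if i = 0 then 0 else 1)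
    (fun i hi => by rw [if_neg hi])
  have h2 : (extPow T.ten X n fun i => a ^ (if i = 0 then 0 else 1) * p)
      = extPow T.ten X n (fun _ => p) * extPow T.ten X n fun i => a ^ (if i = 0 then 0 else 1) * p := by
    rw [← extPow_mul]
    congr 1
    funext i
    rw [← mul_assoc, hcomm, mul_assoc, hp]
  rw [h2, ← mul_assoc, hE, zero_mul, map_zero] at h1
  have h3 : ∑ i : Fin (n + 1), (if i = 0 then 0 else 1) = n := by
    rw [Fin.sum_univ_succ]
    simp
  rw [h3] at h1
  have h4 : ((((-1 : ℤ) ^ ((d + 1) * n) * (n.factorial : ℤ) : ℤ) : ℚ)) • (a ^ n * p) = 0 := by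
    rw [Int.cast_smul_eq_zsmul]
    exact h1.symm
  refine (smul_eq_zero.1 h4).resolve_left ?_
  exact Int.cast_ne_zero.2
    (mul_ne_zero (pow_ne_zero _ (by norm_num)) (by exact_mod_cast n.factorial_ne_zero))

end traces



section NagataHigman

variable {A : Type} [Ring A] [Algebra ℚ A]

theorem expand (x y : A) (m : ℕ) : ∃ v : ℕ → A,
    (∀ c : ℚ, (x + c • y) ^ m = ∑ k ∈ range (m + 1), c ^ k • v k) ∧
    v 1 = ∑ i ∈ range m, x ^ i * y * x ^ (m - 1 - i) ∧ v 0 = x ^ m := by
  induction m with
  | zero =>
    refine ⟨fun k => if k = 0 then 1 else 0, fun c => ?_, ?_, ?_⟩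
    · simp
    · simp
    · simp
  | succ m ih =>
    obtain ⟨v, h1, h2, h3⟩ := ih
    refine ⟨fun k => (if k ≤ m then v k * x else 0) + if k = 0 then 0 else v (k - 1) * y,
      fun c => ?_, ?_, ?_⟩
    · rw [pow_succ, h1, sum_mul]
      simp_rw [smul_add]
      rw [sum_add_distrib]
      have e1 : ∑ k ∈ range (m + 1 + 1), c ^ k • (if k ≤ m then v k * x else 0)
          = ∑ k ∈ range (m + 1), c ^ k • (v k * x) := by
        rw [sum_range_succ, if_neg (by omega), smul_zero, add_zero]
        refine sum_congr rfl fun k hk => ?_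
        rw [mem_range] at hk
        rw [if_pos (by omega)]
      have e2 : ∑ k ∈ range (m + 1 + 1), c ^ k • (if k = 0 then 0 else v (k - 1) * y)
          = ∑ k ∈ range (m + 1), c ^ (k + 1) • (v k * y) := by
        rw [sum_range_succ', if_pos rfl, smul_zero, add_zero]
        refine sum_congr rfl fun k _ => ?_
        rw [if_neg (by omega), Nat.add_sub_cancel]
      rw [e1, e2, ← sum_add_distrib]
      refine sum_congr rfl fun k _ => ?_
      rw [mul_add, smul_mul_assoc, smul_mul_assoc, mul_smul_comm, smul_smul, ← pow_succ]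
    · simp only [one_ne_zero, if_false, Nat.sub_self]
      rw [h3, sum_range_succ]
      have e3 : (if 1 ≤ m then v 1 * x else 0)
          = ∑ i ∈ range m, x ^ i * y * x ^ (m + 1 - 1 - i) := by
        split_ifs with hm
        · rw [h2, sum_mul]
          refine sum_congr rfl fun i hi => ?_
          rw [mem_range] at hi
          rw [mul_assoc, ← pow_succ]
          congr 2
          omega
        · have h0 : m = 0 := by omega
          subst h0
          simp
      rw [e3]
      congr 1
      have h4 : m + 1 - 1 - m = 0 := by omega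
      rw [h4, pow_zero, mul_one]
    · simp only [Nat.zero_le, if_true, add_zero]
      rw [h3, pow_succ]

theorem coeff_mem (J : Submodule ℚ A) (m : ℕ) (v : ℕ → A)
    (h : ∀ c : ℚ, ∑ k ∈ range (m + 1), c ^ k • v k ∈ J) (k : ℕ) (hk : k ≤ m) : v k ∈ J := by
  rw [← Submodule.Quotient.mk_eq_zero]
  refine (Module.forall_dual_apply_eq_zero_iff ℚ _).1 fun φ => ?_
  let q : Polynomial ℚ := ∑ k ∈ range (m + 1),
    Polynomial.C (φ (Submodule.Quotient.mk (v k))) * Polynomial.X ^ k
  have hq : q = 0 := by
    refine Polynomial.funext fun c => ?_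
    have h1 : (Submodule.Quotient.mk (∑ k ∈ range (m + 1), c ^ k • v k) : A ⧸ J) = 0 :=
      (Submodule.Quotient.mk_eq_zero J).2 (h c)
    have h2 : φ (Submodule.Quotient.mk (∑ k ∈ range (m + 1), c ^ k • v k)) = 0 := by
      rw [h1, map_zero]
    have h3 : (Submodule.Quotient.mk (∑ k ∈ range (m + 1), c ^ k • v k) : A ⧸ J)
        = ∑ k ∈ range (m + 1), c ^ k • (Submodule.Quotient.mk (v k) : A ⧸ J) := by
      have h4 := map_sum J.mkQ (fun k => c ^ k • v k) (range (m + 1))
      simp only [Submodule.mkQ_apply] at h4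
      rw [h4]
      rfl
    rw [h3, map_sum] at h2
    simp only [q, Polynomial.eval_finsetSum, Polynomial.eval_mul, Polynomial.eval_C,
      Polynomial.eval_pow, Polynomial.eval_X, Polynomial.eval_zero]
    rw [← h2]
    refine sum_congr rfl fun k _ => ?_
    rw [map_smul, smul_eq_mul, mul_comm]
  have h5 : q.coeff k = φ (Submodule.Quotient.mk (v k)) := by
    simp only [q, Polynomial.finsetSum_coeff, Polynomial.coeff_C_mul_X_pow]
    rw [sum_ite_eq, if_pos (mem_range.2 (by omega))]
  rw [← h5, hq, Polynomial.coeff_zero]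

/-- the theorem of Nagata and Higman, for a set `N` closed under sums and products -/
theorem nagata_higman (N : A → Prop) (hadd : ∀ x y, N x → N y → N (x + y))
    (hsmul : ∀ (c : ℚ) x, N x → N (c • x)) (hmul : ∀ x y, N x → N y → N (x * y))
    (h0 : N 0) (n : ℕ) :
    ∀ J : Submodule ℚ A, (∀ a x, N a → x ∈ J → a * x ∈ J) → (∀ a x, N a → x ∈ J → x * a ∈ J) →
      (∀ x, N x → x ^ n ∈ J) → ∀ l : List A, (∀ a ∈ l, N a) → 2 ^ n - 1 ≤ l.length →
      l.prod ∈ J := by
  induction n with
  | zero =>
    intro J hJl _ hJ l hl _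
    have h1 := hJ 0 h0
    rw [pow_zero] at h1
    induction l with
    | nil => rwa [List.prod_nil]
    | cons a l ih =>
      rw [List.prod_cons]
      exact hJl _ _ (hl a (by simp)) (ih (fun b hb => hl b (List.mem_cons_of_mem _ hb)) (by simp))
  | succ n ih =>
    intro J hJl hJr hJ l hl' hlen
    have hpow : ∀ x, N x → ∀ k, 0 < k → N (x ^ k) := by
      intro x hx k hk
      obtain ⟨j, rfl⟩ : ∃ j, k = j + 1 := ⟨k - 1, by omega⟩
      clear hk
      induction j with
      | zero => rwa [zero_add, pow_one]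
      | succ j ih => rw [pow_succ]; exact hmul _ _ ih hx
    have hJr' : ∀ x y, N y → x ∈ J → ∀ k, x * y ^ k ∈ J := by
      intro x y hy hx k
      rcases Nat.eq_zero_or_pos k with rfl | hk
      · rwa [pow_zero, mul_one]
      · exact hJr _ _ (hpow y hy k hk) hx
    have hNr : ∀ z y, N z → N y → ∀ k, N (z * y ^ k) := by
      intro z y hz hy k
      rcases Nat.eq_zero_or_pos k with rfl | hk
      · rwa [pow_zero, mul_one]
      · exact hmul _ _ hz (hpow y hy k hk)
    have hNl : ∀ z y, N z → N y → ∀ k, N (y ^ k * z) := by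
      intro z y hz hy k
      rcases Nat.eq_zero_or_pos k with rfl | hk
      · rwa [pow_zero, one_mul]
      · exact hmul _ _ (hpow y hy k hk) hz
    have lin : ∀ x y, N x → N y → ∑ i ∈ range (n + 1), x ^ i * y * x ^ (n - i) ∈ J := by
      intro x y hx hy
      obtain ⟨v, h1, h2, -⟩ := expand x y (n + 1)
      have h3 := coeff_mem J (n + 1) v (fun c => by
        rw [← h1]
        exact hJ _ (hadd _ _ hx (hsmul c y hy))) 1 (by omega)
      rw [h2] at h3
      exact h3
    have key : ∀ x z y, N x → N z → N y → x ^ n * z * y ^ n ∈ J := by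
      intro x z y hx hz hy
      have hS1 : ∑ j ∈ range (n + 1), (∑ i ∈ range (n + 1), x ^ i * (z * y ^ j) * x ^ (n - i)) *
          y ^ (n - j) ∈ J :=
        J.sum_mem fun j _ => hJr' _ _ hy (lin x _ hx (hNr z y hz hy j)) _
      have hS2 : ∑ j ∈ range (n + 1), (∑ i ∈ range (n + 1), x ^ i * (z * y ^ j) * x ^ (n - i)) *
          y ^ (n - j) = ∑ i ∈ range (n + 1), x ^ i * z * ∑ j ∈ range (n + 1),
            y ^ j * x ^ (n - i) * y ^ (n - j) := by
        simp_rw [sum_mul, mul_sum]
        rw [sum_comm]
        refine sum_congr rfl fun i _ => sum_congr rfl fun j _ => ?_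
        simp only [mul_assoc]
      rw [hS2, sum_range_succ] at hS1
      have hS3 : ∑ i ∈ range n, x ^ i * z * ∑ j ∈ range (n + 1),
            y ^ j * x ^ (n - i) * y ^ (n - j) ∈ J := by
        refine J.sum_mem fun i hi => hJl _ _ (hNl z x hz hx i) (lin y _ hy (hpow x hx _ ?_))
        rw [mem_range] at hi
        omega
      have hS4 := (J.add_mem_iff_right hS3).1 hS1
      have hS5 : ∑ j ∈ range (n + 1), y ^ j * x ^ (n - n) * y ^ (n - j)
          = (n + 1 : ℚ) • y ^ n := by
        have h1 : ∀ j ∈ range (n + 1), y ^ j * x ^ (n - n) * y ^ (n - j) = y ^ n := by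
          intro j hj
          rw [mem_range] at hj
          rw [Nat.sub_self, pow_zero, mul_one, ← pow_add]
          congr 1
          omega
        rw [sum_congr rfl h1, sum_const, card_range, ← Nat.cast_smul_eq_nsmul ℚ]
        push_cast
        rfl
      rw [hS5, mul_smul_comm] at hS4
      have h2 := J.smul_mem (n + 1 : ℚ)⁻¹ hS4
      rwa [smul_smul, inv_mul_cancel₀ (by positivity), one_smul] at h2
    -- the first half of the product
    let J1 : Submodule ℚ A :=
      { carrier := {p | ∀ z y, N z → N y → p * z * y ^ n ∈ J}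
        zero_mem' := fun z y _ _ => by
          rw [zero_mul, zero_mul]
          exact J.zero_mem
        add_mem' := fun {p q} hp hq z y hz hy => by
          rw [add_mul, add_mul]
          exact J.add_mem (hp z y hz hy) (hq z y hz hy)
        smul_mem' := fun c p hp z y hz hy => by
          rw [smul_mul_assoc, smul_mul_assoc]
          exact J.smul_mem c (hp z y hz hy) }
    have hJ1 : ∀ l : List A, (∀ a ∈ l, N a) → 2 ^ n - 1 ≤ l.length → l.prod ∈ J1 := by
      refine ih J1 ?_ ?_ ?_
      · intro a p ha hp z y hz hy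
        rw [mul_assoc a, mul_assoc a]
        exact hJl _ _ ha (hp z y hz hy)
      · intro a p ha hp z y hz hy
        rw [mul_assoc p]
        exact hp _ _ (hmul a z ha hz) hy
      · intro x hx z y hz hy
        exact key x z y hx hz hy
    have hpos : 0 < 2 ^ n := by positivity
    have hlen' : 2 ^ n - 1 + 1 + (2 ^ n - 1) ≤ l.length := by
      rw [pow_succ] at hlen
      omega
    obtain ⟨l1, z, l2, rfl, h1, h2⟩ : ∃ (l1 : List A) (z : A) (l2 : List A), l = l1 ++ z :: l2 ∧
        2 ^ n - 1 ≤ l1.length ∧ 2 ^ n - 1 ≤ l2.length := by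
      refine ⟨l.take (2 ^ n - 1), l[2 ^ n - 1]'(by omega), l.drop (2 ^ n - 1 + 1), ?_, ?_, ?_⟩
      · rw [← List.drop_eq_getElem_cons, List.take_append_drop]
      · rw [List.length_take]
        omega
      · rw [List.length_drop]
        omega
    have hN1 : ∀ a ∈ l1, N a := fun a ha => hl' a (List.mem_append_left _ ha)
    have hNz : N z := hl' z (by simp)
    have hN2 : ∀ a ∈ l2, N a := fun a ha =>
      hl' a (List.mem_append_right _ (List.mem_cons_of_mem _ ha))
    have hP := hJ1 l1 hN1 h1
    let J2 : Submodule ℚ A :=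
      { carrier := {q | ∀ z, N z → l1.prod * z * q ∈ J}
        zero_mem' := fun z _ => by
          rw [mul_zero]
          exact J.zero_mem
        add_mem' := fun {p q} hp hq z hz => by
          rw [mul_add]
          exact J.add_mem (hp z hz) (hq z hz)
        smul_mem' := fun c p hp z hz => by
          rw [mul_smul_comm]
          exact J.smul_mem c (hp z hz) }
    have hJ2 : l2.prod ∈ J2 := by
      refine ih J2 ?_ ?_ ?_ l2 hN2 h2
      · intro a p ha hp z hz
        rw [← mul_assoc, mul_assoc l1.prod]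
        exact hp _ (hmul z a hz ha)
      · intro a p ha hp z hz
        rw [← mul_assoc]
        exact hJr _ _ ha (hp z hz)
      · intro y hy z hz
        exact hP z y hz hy
    rw [List.prod_append, List.prod_cons, ← mul_assoc]
    exact hJ2 z hNz

end NagataHigman

section corners

variable {T : ChowTheory}

theorem mul_map_prod {R : Type} [Ring R] {q : R} (hq : q * q = q) (l : List R) :
    q * (l.map (fun a => a * q)).prod = (l.map (fun a => q * a * q)).prod * q := by
  induction l with
  | nil => simp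
  | cons a l ih =>
    rw [List.map_cons, List.prod_cons, List.map_cons, List.prod_cons, mul_assoc (q * a * q), ← ih]
    have h1 : q * a * q * (q * (l.map (fun a => a * q)).prod)
        = q * a * (q * q) * (l.map (fun a => a * q)).prod := by simp only [mul_assoc]
    rw [h1, hq]
    simp only [mul_assoc]

/-- if an exterior or symmetric power of the motive cut out by `p` vanishes, products of many
homologically trivial endomorphisms of it vanish -/
theorem kills_of_alt {M : T.C} {p : End M} (hp : p * p = p) {d n : ℕ}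
    (h : alt M d n * extPow T.ten M n (fun _ => p) = 0) :
    Kills (fun a : End M => HomTrivial (T := T) a) p (2 ^ n - 1) := by
  intro l hl hlen
  rw [mul_map_prod hp]
  have hN := isTwo (T := T) M
  let J : Submodule ℚ (End M) :=
    { carrier := {x | x * p = 0}
      zero_mem' := zero_mul p
      add_mem' := fun {x y} hx hy => by
        have h1 : x * p = 0 := hx
        have h2 : y * p = 0 := hy
        show (x + y) * p = 0
        rw [add_mul, h1, h2, add_zero]
      smul_mem' := fun c x hx => by
        have h1 : x * p = 0 := hx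
        show (c • x) * p = 0
        rw [smul_mul_assoc, h1, smul_zero] }
  have h1 := nagata_higman (A := End M)
    (fun a => HomTrivial (T := T) a ∧ p * a = a ∧ a * p = a) ?_ ?_ ?_ ?_ n J ?_ ?_ ?_
    (l.map (fun a => p * a * p)) ?_ ?_
  · exact h1
  · rintro x y ⟨h1, h2, h3⟩ ⟨h4, h5, h6⟩
    exact ⟨hN.add _ _ h1 h4, by rw [mul_add, h2, h5], by rw [add_mul, h3, h6]⟩
  · rintro c x ⟨h1, h2, h3⟩
    refine ⟨?_, by rw [mul_smul_comm, h2], by rw [smul_mul_assoc, h3]⟩
    have h4 : c • x = (c • (1 : End M)) * x := by rw [smul_mul_assoc, one_mul]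
    rw [h4]
    exact hN.left _ _ h1
  · rintro x y ⟨h1, h2, h3⟩ ⟨h4, h5, h6⟩
    exact ⟨hN.right _ _ h1, by rw [← mul_assoc, h2], by rw [mul_assoc, h6]⟩
  · exact ⟨hN.zero, mul_zero p, zero_mul p⟩
  · rintro a x - hx
    have h1 : x * p = 0 := hx
    show a * x * p = 0
    rw [mul_assoc, h1, mul_zero]
  · rintro a x ⟨-, h2, h3⟩ hx
    have h1 : x * p = 0 := hx
    show x * a * p = 0
    rw [mul_assoc, h3, ← h2, ← mul_assoc, h1, zero_mul]
  · rintro x ⟨h1, h2, h3⟩
    refine pow_mul_eq_zero hp h3 h2 (fun k => trace_hom ?_) d n h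
    rw [pow_succ]
    exact hN.left _ _ h1
  · intro a ha
    obtain ⟨b, hb, rfl⟩ := List.mem_map.1 ha
    refine ⟨hN.right _ _ (hN.left _ _ (hl b hb)), ?_, ?_⟩
    · rw [← mul_assoc, ← mul_assoc, hp]
    · rw [mul_assoc, hp]
  · rwa [List.length_map]

/-- without phantoms the top exterior power of a pure motive vanishes -/
theorem alt_eq_zero (hP : NoPhantoms T) {M : T.C} {p : End M} (hp : p * p = p) (d : ℤ)
    (hd : ∀ j (x : T.H M j), j ≠ d → p • x = 0) :
    alt M d.natAbs (Module.finrank T.F (T.H M d)) *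
      extPow T.ten M (Module.finrank T.F (T.H M d)) (fun _ => p) = 0 := by
  set n := Module.finrank T.F (T.H M d) with hn
  set E := alt M d.natAbs n * extPow T.ten M n (fun _ => p) with hE
  have hPP : extPow T.ten M n (fun _ => p) * extPow T.ten M n (fun _ => p)
      = extPow T.ten M n (fun _ => p) := by
    rw [← extPow_mul]
    congr 1
    funext _
    exact hp
  have hEE : E * E = (Nat.factorial (n + 1)) • E := by
    calc E * E = alt M d.natAbs n * (extPow T.ten M n (fun _ => p) * alt M d.natAbs n) *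
          extPow T.ten M n (fun _ => p) := by simp only [hE, mul_assoc]
      _ = alt M d.natAbs n * alt M d.natAbs n * (extPow T.ten M n (fun _ => p) *
          extPow T.ten M n (fun _ => p)) := by rw [← alt_comm]; simp only [mul_assoc]
      _ = (Nat.factorial (n + 1)) • E := by rw [hPP, alt_alt, smul_mul_assoc]
  have hc : ((Nat.factorial (n + 1) : ℕ) : ℚ) ≠ 0 := by exact_mod_cast (n + 1).factorial_ne_zero
  have h2 : ((Nat.factorial (n + 1) : ℕ) : ℚ)⁻¹ • E = 0 := by
    refine hP _ _ ?_ ?_
    · rw [smul_mul_smul_comm, hEE, ← Nat.cast_smul_eq_nsmul ℚ, smul_smul]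
      congr 1
      rw [mul_assoc, inv_mul_cancel₀ hc, mul_one]
    · refine homTrivial_of fun j z => ?_
      have h1 : ((Nat.factorial (n + 1) : ℕ) : ℚ)⁻¹ • E
          = (((Nat.factorial (n + 1) : ℕ) : ℚ)⁻¹ • (1 : End (T.pow M n))) * E := by
        rw [smul_mul_assoc, one_mul]
      rw [h1, ← smul_def, mul_smul, hE, alt_hom d hd n (by omega), smul_zero]
  exact (smul_eq_zero.1 h2).resolve_left (inv_ne_zero hc)

end corners



section induction

variable {T : ChowTheory}

/-- the homologically trivial endomorphisms of `M` form a nilpotent ideal -/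
def NilAt (M : T.C) : Prop :=
  ∃ k, Kills (fun a : End M => HomTrivial (T := T) a) (1 : End M) k

/-- `a` acts on the homology of `M` as the projection to degree `j` -/
def IsProj (M : T.C) (j : ℤ) (a : End M) : Prop :=
  (∀ x : T.H M j, T.map a j x = x) ∧ ∀ i (x : T.H M i), i ≠ j → T.map a i x = 0

theorem kills_comp {M N : T.C} {ρ : End N} {k : ℕ}
    (h : Kills (fun a : End N => HomTrivial (T := T) a) ρ k) (f : M ⟶ N) (g : N ⟶ M)
    (q : End M) (hq : q = f ≫ ρ ≫ g) :
    Kills (fun a : End M => HomTrivial (T := T) a) q k := by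
  intro l hl hlen
  have key : ∀ l : List (End M), q * (l.map (fun a => a * q)).prod
      = f ≫ (ρ * ((l.map (fun a => (g ≫ a ≫ f : N ⟶ N))).map
        (fun a : End N => a * ρ)).prod : End N) ≫ g := by
    intro l
    induction l with
    | nil =>
      rw [List.map_nil, List.map_nil, List.map_nil, List.prod_nil, List.prod_nil, mul_one, mul_one]
      exact hq
    | cons a l ih =>
      rw [List.map_cons, List.prod_cons, List.map_cons, List.map_cons, List.prod_cons]
      have e1 : ∀ (q P : End M), q * (a * q * P) = (q * a) * (q * P) := by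
        intro q P
        simp only [mul_assoc]
      rw [e1, ih]
      have e2 : ∀ (b P : End N), ρ * (b * ρ * P) = (ρ * b) * (ρ * P) := by
        intro b P
        simp only [mul_assoc]
      rw [e2]
      simp only [End.mul_def, Category.assoc, hq]
  rw [key, h, Limits.zero_comp, Limits.comp_zero]
  · intro a ha
    obtain ⟨b, hb, rfl⟩ := List.mem_map.1 ha
    exact homTrivial_comp_right _ (homTrivial_comp_left _ (hl b hb))
  · rwa [List.length_map]

theorem kills_of_nilAt {M : T.C} (h : NilAt M) (ρ : End M) :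
    ∃ k, Kills (fun a : End M => HomTrivial (T := T) a) ρ k := by
  obtain ⟨k, hk⟩ := h
  refine ⟨k, ?_⟩
  have h1 := kills_mul (isTwo M) hk ρ 1
  rwa [mul_one, mul_one] at h1

theorem isNilpotent_of_nilAt {M : T.C} (h : NilAt M) {a : End M} (ha : HomTrivial (T := T) a) :
    IsNilpotent a := by
  obtain ⟨k, hk⟩ := h
  refine ⟨k, ?_⟩
  have h1 := hk (List.replicate k a) (fun b hb => by rw [List.eq_of_mem_replicate hb]; exact ha)
    (by rw [List.length_replicate])
  rwa [List.map_replicate, List.prod_replicate, mul_one, one_mul] at h1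

/-- a Kuenneth projector from a map that is injective in degree `j` -/
theorem proj_of_injective (hD : ConjD T) {M N : T.C} (f : M ⟶ N) {j : ℤ} {ρ : End N}
    (hρ : IsProj N j ρ) (hf : Function.Injective (T.map f j)) :
    ∃ s : N ⟶ M, IsProj M j (f ≫ ρ ≫ s) := by
  obtain ⟨s, hs⟩ := regular hD (f ≫ ρ)
  refine ⟨s, ?_, ?_⟩
  · intro x
    have h1 := map_eq_zero hs j x
    rw [map_sub', sub_eq_zero] at h1
    simp only [l_comp] at h1 ⊢
    have h2 : ∀ y, T.map ρ j y = y := hρ.1
    rw [h2, h2] at h1
    rw [h2]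
    exact hf h1
  · intro i x hi
    simp only [l_comp]
    have h2 : ∀ y, T.map ρ i y = 0 := fun y => hρ.2 i y hi
    rw [h2, map_zero]

/-- a Kuenneth projector from a map that is surjective in degree `j` -/
theorem proj_of_surjective (hD : ConjD T) {M N : T.C} (g : N ⟶ M) {j : ℤ} {ρ : End N}
    (hρ : IsProj N j ρ) (hg : Function.Surjective (T.map g j)) :
    ∃ s : M ⟶ N, IsProj M j (s ≫ ρ ≫ g) := by
  obtain ⟨s, hs⟩ := regular hD (ρ ≫ g)
  refine ⟨s, ?_, ?_⟩
  · intro x
    obtain ⟨y, rfl⟩ := hg x
    have h1 := map_eq_zero hs j y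
    rw [map_sub', sub_eq_zero] at h1
    simp only [l_comp] at h1 ⊢
    have h2 : ∀ y, T.map ρ j y = y := hρ.1
    rw [h2, h2] at h1
    rw [h2]
    exact h1
  · intro i x hi
    simp only [l_comp]
    have h2 : ∀ y, T.map ρ i y = 0 := fun y => hρ.2 i y hi
    rw [h2, map_zero]

theorem homTrivial_sub_of_isProj {M : T.C} {j : ℤ} {a b : End M} (ha : IsProj M j a)
    (hb : IsProj M j b) : HomTrivial (a - b : M ⟶ M) := homTrivial_of fun i x => by
  rw [map_sub', sub_eq_zero]
  by_cases hi : i = j
  · subst hi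
    rw [ha.1, hb.1]
  · rw [ha.2 i x hi, hb.2 i x hi]

theorem sum_smul' {ι : Type} {M : T.C} (s : Finset ι) (f : ι → End M) (j : ℤ) (x : T.H M j) :
    (∑ i ∈ s, f i) • x = ∑ i ∈ s, f i • x := sum_smul

/-- A motive with Kuenneth projectors in all degrees but one, which are killed. -/
theorem good_of_projectors (hP : NoPhantoms T) {M : T.C} (mid : ℤ)
    (h : ∀ j, j ≠ mid → ∃ (a : End M) (k : ℕ), IsProj M j a ∧
      Kills (fun a : End M => HomTrivial (T := T) a) a k) :
    NilAt M ∧ ∀ j, ∃ a, IsProj M j a := by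
  classical
  have h' : ∀ j, ∃ a : End M, j ≠ mid → IsProj M j a ∧
      ∃ k, Kills (fun a : End M => HomTrivial (T := T) a) a k := by
    intro j
    by_cases hj : j = mid
    · exact ⟨0, fun hj' => absurd hj hj'⟩
    · obtain ⟨a, k, h1, h2⟩ := h j hj
      exact ⟨a, fun _ => ⟨h1, k, h2⟩⟩
  choose a ha using h'
  set S := (T.deg M).erase mid with hS
  set s := ∑ j ∈ S, a j with hs
  have hN := isTwo (T := T) M
  obtain ⟨k, hk⟩ := kills_sum' hN S a fun j hj => (ha j (by
    rw [hS, mem_erase] at hj
    exact hj.1)).2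
  -- the action of `s`
  have hs1 : ∀ i (x : T.H M i), i ≠ mid → s • x = x := by
    intro i x hi
    by_cases hi' : i ∈ T.deg M
    · rw [hs, sum_smul', sum_eq_single i]
      · exact (ha i hi).1.1 x
      · intro j hj hji
        rw [hS, mem_erase] at hj
        exact (ha j hj.1).1.2 i x hji.symm
      · intro h1
        rw [hS, mem_erase] at h1
        exact absurd ⟨hi, hi'⟩ h1
    · rw [l_deg M i hi' x, smul_zero]
  have hs2 : ∀ x : T.H M mid, s • x = 0 := by
    intro x
    rw [hs, sum_smul', sum_eq_zero]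
    intro j hj
    rw [hS, mem_erase] at hj
    exact (ha j hj.1).1.2 mid x hj.1.symm
  have hw : HomTrivial (T := T) (M := M) (N := M) (s - s ^ 2 : End M) := by
    refine homTrivial_of fun i x => ?_
    rw [← smul_def, sub_smul, sq, mul_smul]
    by_cases hi : i = mid
    · subst hi
      rw [hs2, smul_zero, sub_self]
    · rw [hs1 i x hi, hs1 i x hi, sub_self]
  obtain ⟨e, he, hes, hek⟩ := lift_idem hN hk hw
  have hes' : ∀ i (x : T.H M i), e • x = s • x := by
    intro i x
    have h1 := map_eq_zero hes i x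
    rw [← smul_def, sub_smul, sub_eq_zero] at h1
    exact h1
  have hp : (1 - e) * (1 - e) = 1 - e := by
    rw [mul_sub, mul_one, sub_mul, one_mul, he, sub_self, sub_zero]
  have hd : ∀ j (x : T.H M j), j ≠ mid → (1 - e) • x = 0 := by
    intro j x hj
    rw [sub_smul, one_smul, hes', hs1 j x hj, sub_self]
  have h3 := kills_of_alt hp (alt_eq_zero hP hp mid hd)
  have h4 := kills_add hN hek h3
  rw [add_sub_cancel] at h4
  refine ⟨⟨_, h4⟩, fun j => ?_⟩
  by_cases hj : j = mid
  · subst hj
    refine ⟨1 - e, ?_, fun i x hi => hd i x hi⟩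
    intro x
    rw [← smul_def, sub_smul, one_smul, hes', hs2, sub_zero]
  · exact ⟨a j, (ha j hj).1⟩

/-- the induction on the dimension -/
theorem good_variety (hD : ConjD T) (hP : NoPhantoms T) (d : ℕ) :
    ∀ X : T.vars.V, T.vars.dim X = d → ∀ n : ℤ,
      NilAt (T.vars.mot X n) ∧ ∀ j, ∃ a, IsProj (T.vars.mot X n) j a := by
  induction d with
  | zero =>
    intro X hX n
    refine good_of_projectors hP (2 * n) fun j hj => ⟨0, 0, ⟨?_, ?_⟩, kills_zero _⟩
    · intro x
      have h1 : x = 0 := T.varLaws.deg X n j (by rw [hX]; push_cast; omega) x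
      rw [h1, map_zero]
    · intro i x _
      exact map_zero' T i x
  | succ d ih =>
    intro X hX n
    obtain ⟨Y, hY, ⟨f, hf⟩, ⟨g, hg⟩⟩ := T.varLaws.lefschetz X n (by omega)
    have hY' : T.vars.dim Y = d := by omega
    refine good_of_projectors hP (2 * n + T.vars.dim X) fun j hj => ?_
    rcases lt_or_gt_of_ne hj with hj | hj
    · obtain ⟨h1, h2⟩ := ih Y hY' n
      obtain ⟨ρ, hρ⟩ := h2 j
      obtain ⟨k, hk⟩ := kills_of_nilAt h1 ρ
      obtain ⟨s, hs⟩ := proj_of_surjective hD g hρ (hg j hj)
      exact ⟨_, k, hs, kills_comp hk s g _ rfl⟩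
    · obtain ⟨h1, h2⟩ := ih Y hY' (n + 1)
      obtain ⟨ρ, hρ⟩ := h2 j
      obtain ⟨k, hk⟩ := kills_of_nilAt h1 ρ
      obtain ⟨s, hs⟩ := proj_of_injective hD f hρ (hf j hj)
      exact ⟨_, k, hs, kills_comp hk f s _ rfl⟩

theorem good_motive (hD : ConjD T) (hP : NoPhantoms T) (M : T.C) :
    NilAt M ∧ ∀ j, ∃ a, IsProj M j a := by
  obtain ⟨X, n, r, s, hrs⟩ := T.varLaws.gen M
  obtain ⟨⟨k, hk⟩, h2⟩ := good_variety hD hP _ X rfl n
  constructor
  · refine ⟨k, kills_comp hk r s 1 ?_⟩
    show 𝟙 M = r ≫ 𝟙 _ ≫ s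
    rw [Category.id_comp, hrs]
  · intro j
    obtain ⟨a, ha⟩ := h2 j
    refine ⟨r ≫ a ≫ s, ?_, ?_⟩
    · intro x
      simp only [l_comp]
      have h3 : ∀ y, T.map a j y = y := ha.1
      rw [h3, ← l_comp, hrs, l_id]
    · intro i x hi
      simp only [l_comp]
      have h3 : ∀ y, T.map a i y = 0 := fun y => ha.2 i y hi
      rw [h3, map_zero]

/-- the Kuenneth projectors lift to a decomposition -/
theorem ck_of_good {M : T.C} (h : NilAt M) (hp : ∀ j, ∃ a, IsProj M j a) :
    ∃ π : ℤ → End M, IsCK M π := by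
  classical
  have hker : ∀ x ∈ RingHom.ker (real M), IsNilpotent x := by
    intro x hx
    rw [RingHom.mem_ker, real_eq_zero_iff] at hx
    exact isNilpotent_of_nilAt h hx
  have he := CompleteOrthogonalIdempotents.single (I := T.deg M)
    (fun j : T.deg M => Module.End T.F (T.H M j))
  have hr : ∀ i : T.deg M, (Pi.single i 1 : GrEnd M) ∈ (real M).range := by
    intro i
    obtain ⟨a, ha⟩ := hp i
    refine ⟨a, ?_⟩
    funext j
    rw [real_apply]
    refine LinearMap.ext fun x => ?_
    by_cases hij : j = i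
    · subst hij
      rw [ha.1, Pi.single_eq_same]
      rfl
    · rw [ha.2 j x (fun h0 => hij (Subtype.ext h0)), Pi.single_eq_of_ne hij]
      rfl
  obtain ⟨e, h1, h2⟩ := CompleteOrthogonalIdempotents.lift_of_isNilpotent_ker (real M) hker he hr
  have h2' : ∀ i : T.deg M, real M (e i) = Pi.single i 1 := fun i => congrFun h2 i
  refine ⟨fun j => if hj : j ∈ T.deg M then e ⟨j, hj⟩ else 0, ?_, ?_, ?_, ?_, ?_, ?_⟩
  · intro i
    split_ifs with hi
    · exact (h1.idem _).eq
    · exact mul_zero _
  · intro i j hij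
    split_ifs with hi hj
    · exact h1.ortho fun h0 => hij (congrArg Subtype.val h0)
    · exact mul_zero _
    · exact zero_mul _
    · exact zero_mul _
  · intro i hi
    rw [dif_neg hi]
  · rw [← Finset.sum_coe_sort (T.deg M)
      (fun j => if hj : j ∈ T.deg M then e ⟨j, hj⟩ else 0), ← h1.complete]
    refine sum_congr rfl fun i _ => ?_
    rw [dif_pos i.2]
  · intro i x
    by_cases hi : i ∈ T.deg M
    · rw [dif_pos hi]
      have h3 : T.map (e ⟨i, hi⟩) i = 1 := by
        have h4 := congrFun (h2' ⟨i, hi⟩) ⟨i, hi⟩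
        rw [Pi.single_eq_same, real_apply] at h4
        exact h4
      show T.map (e ⟨i, hi⟩) i x = x
      rw [h3]
      rfl
    · rw [l_deg M i hi x]
      exact map_zero (T.map _ i)
  · intro i j x hij
    by_cases hi : i ∈ T.deg M
    · rw [dif_pos hi]
      by_cases hj : j ∈ T.deg M
      · have h3 : T.map (e ⟨i, hi⟩) j = 0 := by
          have h4 := congrFun (h2' ⟨i, hi⟩) ⟨j, hj⟩
          rw [Pi.single_eq_of_ne (fun h0 => hij (congrArg Subtype.val h0)), real_apply] at h4
          exact h4
        show T.map (e ⟨i, hi⟩) j x = 0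
        rw [h3]
        rfl
      · rw [l_deg M j hj x]
        exact map_zero (T.map _ j)
    · rw [dif_neg hi]
      exact map_zero' T j x

end induction

section final

variable {T : ChowTheory}

theorem prod_eq_zero_of_kills {M : T.C} {k : ℕ}
    (h : Kills (fun a : End M => HomTrivial (T := T) a) (1 : End M) k) (l : List (End M))
    (hl : ∀ a ∈ l, HomTrivial (T := T) a) (hlen : k ≤ l.length) : l.prod = 0 := by
  have h1 : (l.map (fun a => a * (1 : End M))) = l := by
    simp
  have h2 := h l hl hlen
  rwa [h1, one_mul] at h2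

theorem isIso_of_homTrivial (h : NilEnd T) {M : T.C} {a : M ⟶ M}
    (ha : HomTrivial (a - 𝟙 M)) : IsIso a := by
  have h0 : IsNilpotent ((show End M from a) - 1) := h M _ ha
  have h1 := h0.isUnit_one_add
  rw [add_sub_cancel] at h1
  exact (isUnit_iff_isIso _).1 h1

theorem id_of_injective {M N : T.C} {f : M ⟶ N} {g : N ⟶ M} (hg : HomTrivial (f ≫ g ≫ f - f))
    (hf : HInjective f) (j : ℤ) (x : T.H M j) : T.map (f ≫ g) j x = x := by
  have h1 := map_eq_zero hg j x
  rw [map_sub', sub_eq_zero, ← Category.assoc, l_comp] at h1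
  exact hf j h1

theorem conservative_of_nil (hD : ConjD T) (h : NilEnd T) : Conservative T := by
  intro M N f hf
  obtain ⟨g, hg⟩ := regular hD f
  have h1 := id_of_injective hg fun j => (hf j).1
  have h2 : ∀ j (y : T.H N j), T.map (g ≫ f) j y = y := by
    intro j y
    obtain ⟨x, rfl⟩ := (hf j).2 y
    show T.map (g ≫ f) j (T.map f j x) = T.map f j x
    rw [l_comp, ← l_comp f g, h1]
  have i1 : IsIso (f ≫ g) := isIso_of_homTrivial h (homTrivial_of fun j x => by
    rw [map_sub', l_id, h1, sub_self])
  have i2 : IsIso (g ≫ f) := isIso_of_homTrivial h (homTrivial_of fun j x => by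
    rw [map_sub', l_id, h2, sub_self])
  have e1 : f ≫ (g ≫ inv (f ≫ g)) = 𝟙 M := by rw [← Category.assoc, IsIso.hom_inv_id]
  have e2 : (inv (g ≫ f) ≫ g) ≫ f = 𝟙 N := by rw [Category.assoc, IsIso.inv_hom_id]
  refine ⟨g ≫ inv (f ≫ g), e1, ?_⟩
  have e3 : g ≫ inv (f ≫ g) = inv (g ≫ f) ≫ g := by
    calc g ≫ inv (f ≫ g) = ((inv (g ≫ f) ≫ g) ≫ f) ≫ (g ≫ inv (f ≫ g)) := by
          rw [e2, Category.id_comp]
      _ = (inv (g ≫ f) ≫ g) ≫ (f ≫ (g ≫ inv (f ≫ g))) := by simp only [Category.assoc]
      _ = inv (g ≫ f) ≫ g := by rw [e1, Category.comp_id]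
  rw [e3, e2]

/-- The equivalences for Q1. -/
theorem result (T : ChowTheory) : List.TFAE [
    Splits T,
    ConjD T ∧ Conservative T,
    ConjD T ∧ NoPhantoms T,
    ConjD T ∧ NilEnd T,
    ConjD T ∧ NilIdeals T,
    ConjD T ∧ KimuraFinite T,
    ConjD T ∧ ChowKuenneth T] := by
  tfae_have 1 → 3 := by
    intro h
    refine ⟨?_, ?_⟩
    · intro M N f hf
      by_contra hne
      obtain ⟨i, hi⟩ : ∃ i, T.map f i ≠ 0 := by
        by_contra h1
        exact hne fun i => by
          by_contra h2
          exact h1 ⟨i, h2⟩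
      obtain ⟨k, hk⟩ := h (T.ten.curry f) (T.dualLaws.curry_inj f i hi)
      obtain ⟨g, rfl⟩ := T.dualLaws.eval_surj M N k
      rw [T.dualLaws.curry_eval, hf, zero_smul] at hk
      exact T.dualLaws.one_ne hk.symm
    · intro M e he hH
      have key : ∀ e' : M ⟶ M, e' ≫ e' = e' → HomTrivial e' → e' = 0 := by
        intro e' he' hH'
        obtain ⟨g, hg⟩ := h (𝟙 M - e') (fun j x y hxy => by
          change T.map (𝟙 M - e') j x = T.map (𝟙 M - e') j y at hxy
          rw [map_sub', map_sub', l_id, l_id, map_eq_zero hH', map_eq_zero hH',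
            sub_zero, sub_zero] at hxy
          exact hxy)
        have h1 : e' ≫ (𝟙 M - e') = 0 := by
          rw [Preadditive.comp_sub, Category.comp_id, he', sub_self]
        calc e' = e' ≫ (𝟙 M - e') ≫ g := by rw [hg, Category.comp_id]
          _ = 0 := by rw [← Category.assoc, h1, Limits.zero_comp]
      exact key e he hH
  tfae_have 3 → 7 := by
    rintro ⟨hD, hP⟩
    refine ⟨hD, fun M => ?_⟩
    obtain ⟨π, hπ⟩ := ck_of_good (good_motive hD hP M).1 (good_motive hD hP M).2
    exact ⟨π, hπ, fun j => alt_eq_zero hP (hπ.idem j) j fun i x hi => hπ.act_ne j i x hi⟩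
  tfae_have 7 → 6 := by
    rintro ⟨hD, hC⟩
    refine ⟨hD, fun M => ?_⟩
    obtain ⟨π, hπ, h1⟩ := hC M
    let ε := Fintype.equivFin (T.deg M)
    refine ⟨_, fun i => π (ε.symm i), ?_, ?_, ?_, ?_⟩
    · intro i
      exact hπ.idem _
    · intro i j hij
      exact hπ.orth _ _ fun h0 => hij (ε.symm.injective (Subtype.ext h0))
    · rw [ε.symm.sum_comp (fun i : T.deg M => π i), Finset.sum_coe_sort (T.deg M) π]
      exact hπ.sum
    · intro i
      exact ⟨_, _, h1 _⟩
  tfae_have 7 → 5 := by
    rintro ⟨hD, hC⟩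
    refine ⟨hD, fun M l hl hlen => ?_⟩
    obtain ⟨π, hπ, h1⟩ := hC M
    have h2 := kills_sum (isTwo (T := T) M) (T.deg M) π _ fun j _ =>
      kills_of_alt (hπ.idem j) (h1 j)
    rw [hπ.sum] at h2
    exact prod_eq_zero_of_kills h2 l hl hlen
  tfae_have 5 → 4 := by
    rintro ⟨hD, h⟩
    refine ⟨hD, fun M a ha => ⟨bound M, ?_⟩⟩
    have h1 := h M (List.replicate (bound M) a) (fun b hb => by
      rw [List.eq_of_mem_replicate hb]
      exact ha) (by rw [List.length_replicate])
    rwa [List.prod_replicate] at h1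
  tfae_have 6 → 4 := by
    rintro ⟨hD, hK⟩
    refine ⟨hD, fun M a ha => ?_⟩
    obtain ⟨m, p, hp⟩ := hK M
    obtain ⟨k, hk⟩ := kills_sum' (isTwo (T := T) M) univ p fun i _ => by
      obtain ⟨d, n, h1⟩ := hp.fin i
      exact ⟨_, kills_of_alt (hp.idem i) h1⟩
    rw [hp.sum] at hk
    exact isNilpotent_of_nilAt ⟨k, hk⟩ ha
  tfae_have 4 → 2 := fun h => ⟨h.1, conservative_of_nil h.1 h.2⟩
  tfae_have 2 → 1 := by
    rintro ⟨hD, hC⟩ M N f hf
    obtain ⟨g, hg⟩ := regular hD f
    have h1 := id_of_injective hg hf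
    have i1 : IsIso (f ≫ g) := hC (f ≫ g) fun j =>
      ⟨fun x y hxy => by
        change T.map (f ≫ g) j x = T.map (f ≫ g) j y at hxy
        rwa [h1, h1] at hxy, fun y => ⟨y, h1 j y⟩⟩
    exact ⟨g ≫ inv (f ≫ g), by rw [← Category.assoc, IsIso.hom_inv_id]⟩
  tfae_finish

end final

end Pool.Agent.Results.MP_a147f7_ag.SplittingEquivalences
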