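import Pool.Agent.Results.MP_a147f7_ag.Conservativity
import Pool.Agent.Results.MP_d6e134_ag.GenericMembers

/-!
The splitting conjecture for the motives generated by a very general member of a family with big
monodromy.
-/

set_option autoImplicit false
set_option linter.unusedSectionVars false

open CategoryTheory
open Pool.Agent.Results.MP_a147f7_ag.Conservativity
open Pool.Agent.Results.MP_d6e134_ag

namespace Pool.Agent.Results.MP_a147f7_ag.VeryGeneral

universe u

/-- A rational form that is nondegenerate on a rational subspace is nondegenerate on its span. -/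
private theorem eq_zero_of_pairing {F W : Type} [Field F] [CharZero F] [AddCommGroup W] [Module F W]
    [FiniteDimensional F W] (B : W →ₗ[F] W →ₗ[F] F) (V : Set W)
    (hadd : ∀ v ∈ V, ∀ v' ∈ V, v + v' ∈ V) (h0 : (0 : W) ∈ V)
    (hsmul : ∀ q : ℚ, ∀ v ∈ V, (q : F) • v ∈ V)
    (hrat : ∀ v ∈ V, ∀ v' ∈ V, ∃ q : ℚ, B v v' = (q : F))
    (hnd : ∀ v ∈ V, (∀ v' ∈ V, B v' v = 0) → v = 0)
    (w : W) (hw : w ∈ Submodule.span F V) (hBw : ∀ v ∈ V, B v w = 0) : w = 0 := by
  classical
  obtain ⟨n, f, hf, hspan, hli⟩ : ∃ (n : ℕ) (f : Fin n → W), (∀ i, f i ∈ V) ∧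
      Submodule.span F (Set.range f) = Submodule.span F V ∧ LinearIndependent F f :=
    ⟨_, Submodule.exists_fun_fin_finrank_span_eq F V⟩
  choose q hq using fun j k : Fin n => hrat (f j) (hf j) (f k) (hf k)
  have hsum : ∀ (s : Finset (Fin n)) (c : Fin n → ℚ), ∑ k ∈ s, (c k : F) • f k ∈ V := by
    intro s c
    induction s using Finset.induction_on with
    | empty => simpa using h0
    | insert a s ha ih =>
      rw [Finset.sum_insert ha]
      exact hadd _ (hsmul _ _ (hf a)) _ ih
  have hall : ∀ y : W, (∀ j, B (f j) y = 0) → ∀ v ∈ V, B v y = 0 := by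
    intro y hy v hv
    have h1 : v ∈ Submodule.span F (Set.range f) := by
      rw [hspan]
      exact Submodule.subset_span hv
    have h2 : Submodule.span F (Set.range f) ≤ LinearMap.ker (B.flip y) := by
      rw [Submodule.span_le]
      rintro _ ⟨j, rfl⟩
      exact hy j
    exact h2 h1
  let G : Matrix (Fin n) (Fin n) ℚ := Matrix.of q
  have hG : G.det ≠ 0 := by
    intro hdet
    obtain ⟨c, hc, hGc⟩ := (Matrix.exists_mulVec_eq_zero_iff).2 hdet
    apply hc
    have hy : ∀ j, B (f j) (∑ k, (c k : F) • f k) = 0 := by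
      intro j
      have h1 := congrFun hGc j
      rw [map_sum]
      simp only [map_smul, smul_eq_mul, hq]
      have h2 : (∑ k, q j k * c k : ℚ) = 0 := h1
      have h3 : ((∑ k, q j k * c k : ℚ) : F) = 0 := by rw [h2, Rat.cast_zero]
      rw [← h3]
      push_cast
      exact Finset.sum_congr rfl fun k _ => mul_comm _ _
    have h4 := hnd _ (hsum Finset.univ c) (hall _ hy)
    have h5 := (Fintype.linearIndependent_iff.1 hli) (fun k => (c k : F)) h4
    funext k
    exact_mod_cast h5 k
  obtain ⟨α, hα⟩ : ∃ α : Fin n → F, ∑ k, α k • f k = w := by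
    have h1 : w ∈ Submodule.span F (Set.range f) := by
      rw [hspan]
      exact hw
    exact (Submodule.mem_span_range_iff_exists_fun F).1 h1
  have hGF : (G.map (algebraMap ℚ F)).det ≠ 0 := by
    have h1 : (G.map (algebraMap ℚ F)).det = algebraMap ℚ F G.det :=
      ((algebraMap ℚ F).map_det G).symm
    rw [h1]
    intro h2
    exact hG ((map_eq_zero (algebraMap ℚ F)).1 h2)
  have hα0 : α = 0 := by
    by_contra hne
    apply hGF
    rw [← Matrix.exists_mulVec_eq_zero_iff]
    refine ⟨α, hne, ?_⟩
    funext j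
    have h1 := hBw (f j) (hf j)
    rw [← hα, map_sum] at h1
    simp only [map_smul, smul_eq_mul, hq] at h1
    rw [Pi.zero_apply, ← h1]
    change ∑ k, (G.map (algebraMap ℚ F)) j k * α k = _
    refine Finset.sum_congr rfl fun k _ => ?_
    rw [mul_comm]
    rfl
  rw [← hα, hα0]
  simp

variable {C : Type u} [Category.{0} C] [Preadditive C] [Linear ℚ C] {F : Type} [Field F]

/-- `M` is a direct summand of `X`. -/
def IsSummand (M X : C) : Prop := ∃ (i : M ⟶ X) (p : X ⟶ M), i ≫ p = 𝟙 M

/-- The endomorphisms of `H_i(X)`. -/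
abbrev HEnd (R : Realization C F) (X : C) (i : ℤ) : Type := Module.End F ((R.H i).obj X)

/-- The endomorphism `H_i(a)` of `H_i(X)`. -/
def hmap (R : Realization C F) {X : C} (i : ℤ) (a : End X) : HEnd R X i := ((R.H i).map a).hom

/-- A group `Γ` acting on the ring of endomorphisms of `X` and on the homology of `X`. -/
structure Action (R : Realization C F) (X : C) where
  /-- the group -/
  Γ : Type
  [grp : Group Γ]
  [act : MulSemiringAction Γ (End X)]
  /-- the action on homology -/
  ρ : ∀ i : ℤ, Γ →* HEnd R X i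

attribute [instance] Action.grp Action.act

variable {R : Realization C F} {X : C}

/-- `a` is invariant under `Γ`. -/
def Fixed (G : Action R X) (a : End X) : Prop := ∀ γ : G.Γ, γ • a = a

/-- The orbits of `Γ` on `End X` are finite. -/
def FiniteOrbits (G : Action R X) : Prop := ∀ a : End X, (MulAction.orbit G.Γ a).Finite

/-- The action of `Γ` on the endomorphisms of `X` is compatible with its action on homology. -/
def Equivariant (G : Action R X) : Prop :=
  ∀ (i : ℤ) (γ : G.Γ) (a : End X), hmap R i (γ • a) * G.ρ i γ = G.ρ i γ * hmap R i a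

/-- The homologically trivial invariant endomorphisms of `X` form a nilpotent ring. -/
def FixedNilpotent (G : Action R X) : Prop :=
  ∃ m : ℕ, ∀ l : List (End X), l.length = m → (∀ a ∈ l, HomTriv R a ∧ Fixed G a) → l.prod = 0

/-- An invariant endomorphism `a` with `str(ab) = 0` for all invariant `b` is homologically
trivial. -/
def FixedNum (G : Action R X) : Prop :=
  ∀ a : End X, Fixed G a → (∀ b : End X, Fixed G b → str R (a ≫ b : X ⟶ X) = 0) → HomTriv R a

/-- The family `T` of endomorphisms of the `H_i(X)` commutes with the subgroup `U` of `Γ`. -/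
def Commutes (G : Action R X) (U : Subgroup G.Γ) (T : ∀ i : ℤ, HEnd R X i) : Prop :=
  ∀ i, ∀ γ ∈ U, T i * G.ρ i γ = G.ρ i γ * T i

/-- The images in `∏ End H_i(X)` of the endomorphisms of `X` that are invariant under `Γ`. -/
def FixedImages (G : Action R X) : Set (∀ i : ℤ, HEnd R X i) :=
  {w | ∃ b : End X, Fixed G b ∧ w = fun i => hmap R i b}

/-- Big monodromy: a family of endomorphisms of the `H_i(X)` which commutes with a subgroup of finite
index of `Γ` is an `F`-linear combination of endomorphisms of `X` that are invariant under `Γ`. -/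
def BigMonodromy (G : Action R X) : Prop :=
  ∀ U : Subgroup G.Γ, U.FiniteIndex → ∀ T : ∀ i : ℤ, HEnd R X i, Commutes G U T →
    T ∈ Submodule.span F (FixedImages G)

/-- The hypotheses satisfied by a very general member of a family with big monodromy. -/
structure Big (G : Action R X) : Prop where
  equivariant : Equivariant G
  orbits : FiniteOrbits G
  nilp : FixedNilpotent G
  num : FixedNum G
  mono : BigMonodromy G

/-- The homologically trivial endomorphisms of `M` are nilpotent. -/
def NilTriv (R : Realization C F) (M : C) : Prop := ∀ n : End M, HomTriv R n → IsNilpotent n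

/-- Every morphism from `M` to `N` which is injective on homology splits. -/
def AllSplit (R : Realization C F) (M N : C) : Prop := ∀ f : M ⟶ N, InjH R f → Splits f

section

variable {G : Action R X}

theorem homTriv_smul (hρ : Equivariant G) (γ : G.Γ) (a : End X) (h : HomTriv R a) :
    HomTriv R (γ • a : End X) := by
  intro i
  ext x
  have h1 : ((R.H i).map (γ • a : End X)).hom (G.ρ i γ (G.ρ i γ⁻¹ x)) =
      G.ρ i γ (((R.H i).map a).hom (G.ρ i γ⁻¹ x)) :=
    congrArg (fun t : HEnd R X i => t (G.ρ i γ⁻¹ x)) (hρ i γ a)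
  rw [← Module.End.mul_apply (G.ρ i γ), ← map_mul, mul_inv_cancel, map_one, Module.End.one_apply] at h1
  rw [h1, h i]
  simp

theorem fixed_add {a b : End X} (ha : Fixed G a) (hb : Fixed G b) : Fixed G (a + b) := by
  intro γ
  rw [smul_add, ha γ, hb γ]

theorem fixed_zero : Fixed G (0 : End X) := fun γ => smul_zero γ

theorem fixed_smul {a : End X} (q : ℚ) (ha : Fixed G a) : Fixed G (q • a) := by
  intro γ
  have h := map_rat_smul (DistribSMul.toAddMonoidHom (End X) γ) q a
  exact h.trans (congrArg (fun t => q • t) (ha γ))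

/-- The form `(v, w) ↦ Σ (-1)^i Tr(v_i w_i)` on the product of the endomorphism rings in the degrees
`|i| ≤ b`. -/
noncomputable def form (R : Realization C F) (X : C) (b : ℕ) :
    (∀ i : Finset.Icc (-(b : ℤ)) b, Module.End F ((R.H i).obj X)) →ₗ[F]
      (∀ i : Finset.Icc (-(b : ℤ)) b, Module.End F ((R.H i).obj X)) →ₗ[F] F :=
  ∑ i : Finset.Icc (-(b : ℤ)) b, ((-1 : F) ^ (i : ℤ)) •
    ((LinearMap.mul F (Module.End F ((R.H i).obj X))).compl₁₂
      (LinearMap.proj i : (∀ i : Finset.Icc (-(b : ℤ)) b, Module.End F ((R.H i).obj X)) →ₗ[F]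
        Module.End F ((R.H i).obj X))
      (LinearMap.proj i : (∀ i : Finset.Icc (-(b : ℤ)) b, Module.End F ((R.H i).obj X)) →ₗ[F]
        Module.End F ((R.H i).obj X))).compr₂ (LinearMap.trace F ((R.H i).obj X))

theorem form_apply {b : ℕ} (hb : ∀ i : ℤ, (b : ℤ) < |i| → Subsingleton ((R.H i).obj X))
    (v w : X ⟶ X) :
    form R X b (fun i => ((R.H i).map v).hom) (fun i => ((R.H i).map w).hom) = str R (w ≫ v) := by
  rw [str_eq_sum hb, ← Finset.sum_coe_sort (Finset.Icc (-(b : ℤ)) b)
      (fun i => (-1 : F) ^ i * trH R i (w ≫ v))]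
  unfold form
  rw [LinearMap.sum_apply, LinearMap.sum_apply]
  refine Finset.sum_congr rfl fun i _ => ?_
  unfold trH
  rw [CategoryTheory.Functor.map_comp, ModuleCat.hom_comp]
  rfl

theorem numHom_of [CharZero F] (L : Laws R) (horb : FiniteOrbits G) (hρ : Equivariant G)
    (hD : FixedNum G) (hmon : BigMonodromy G) (a : End X) (ha : ∀ g : X ⟶ X, str R ((a : X ⟶ X) ≫ g) = 0) :
    HomTriv R a := by
  classical
  obtain ⟨b, hb⟩ := L.bdd X
  have hfin : ∀ i, FiniteDimensional F ((R.H i).obj X) := fun i => L.fin i X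
  -- the image of `a` is in the span of the images of the fixed endomorphisms
  have hU : (MulAction.stabilizer G.Γ (a : End X)).FiniteIndex := by
    refine ⟨?_⟩
    rw [MulAction.index_stabilizer]
    have hne : (MulAction.orbit G.Γ (a : End X)).Nonempty := ⟨a, MulAction.mem_orbit_self _⟩
    exact ((Set.ncard_pos (horb a)).2 hne).ne'
  have hspan := hmon _ hU (fun i => hmap R i a) (by
    intro i γ hγ
    have h1 := hρ i γ a
    rw [MulAction.mem_stabilizer_iff.1 hγ] at h1
    exact h1)
  let res : (∀ i : ℤ, Module.End F ((R.H i).obj X)) →ₗ[F]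
      (∀ i : Finset.Icc (-(b : ℤ)) b, Module.End F ((R.H i).obj X)) :=
    LinearMap.pi fun i => LinearMap.proj (i : ℤ)
  let V : Set (∀ i : Finset.Icc (-(b : ℤ)) b, Module.End F ((R.H i).obj X)) :=
    res '' FixedImages G
  have hmem : ∀ v ∈ V, ∃ c : End X, Fixed G c ∧
      v = fun i : Finset.Icc (-(b : ℤ)) b => ((R.H i).map c).hom := by
    rintro _ ⟨_, ⟨c, hc, rfl⟩, rfl⟩
    exact ⟨c, hc, rfl⟩
  have hmem' : ∀ c : End X, Fixed G c →
      (fun i : Finset.Icc (-(b : ℤ)) b => ((R.H i).map c).hom) ∈ V :=
    fun c hc => ⟨_, ⟨c, hc, rfl⟩, rfl⟩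
  have hw : res (fun i => ((R.H i).map a).hom) ∈ Submodule.span F V := by
    rw [← Submodule.map_span]
    exact Submodule.mem_map_of_mem hspan
  have h0 := eq_zero_of_pairing (form R X b) V ?_ ?_ ?_ ?_ ?_ _ hw ?_
  · intro i
    by_cases hi : (b : ℤ) < |i|
    · have := hb i hi
      ext x
      rw [Subsingleton.elim x 0, map_zero, map_zero]
    · push Not at hi
      have h1 := congrFun h0 ⟨i, Finset.mem_Icc.2 (abs_le.1 hi)⟩
      exact ModuleCat.hom_ext h1
  · intro v hv v' hv'
    obtain ⟨c, hc, rfl⟩ := hmem v hv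
    obtain ⟨c', hc', rfl⟩ := hmem v' hv'
    have h1 := hmem' _ (fixed_add hc hc')
    have h2 : (fun i : Finset.Icc (-(b : ℤ)) b => ((R.H i).map (c + c' : End X)).hom)
        = (fun i : Finset.Icc (-(b : ℤ)) b => ((R.H i).map c).hom) +
          fun i : Finset.Icc (-(b : ℤ)) b => ((R.H i).map c').hom := by
      funext i
      have h3 := L.add i X X c c'
      rw [Pi.add_apply, ← ModuleCat.hom_add]
      exact congrArg ModuleCat.Hom.hom h3
    rw [← h2]
    exact h1
  · have h1 := hmem' _ (fixed_zero (G := G))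
    have h2 : (fun i : Finset.Icc (-(b : ℤ)) b => ((R.H i).map (0 : End X)).hom) = 0 := by
      funext i
      exact congrArg ModuleCat.Hom.hom (map_zero' L i X X)
    rw [← h2]
    exact h1
  · intro q v hv
    obtain ⟨c, hc, rfl⟩ := hmem v hv
    have h1 := hmem' _ (fixed_smul q hc)
    have h2 : (fun i : Finset.Icc (-(b : ℤ)) b => ((R.H i).map (q • c : End X)).hom)
        = (q : F) • fun i : Finset.Icc (-(b : ℤ)) b => ((R.H i).map c).hom := by
      funext i
      let T : (X ⟶ X) →+ Module.End F ((R.H i).obj X) :=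
        { toFun := fun f => ((R.H i).map f).hom
          map_zero' := congrArg ModuleCat.Hom.hom (map_zero' L i X X)
          map_add' := fun f g => congrArg ModuleCat.Hom.hom (L.add i X X f g) }
      let _ : Module ℚ (Module.End F ((R.H i).obj X)) := Module.compHom _ (algebraMap ℚ F)
      have h3 := map_rat_smul T q c
      have h4 : q • T c = (q : F) • T c := by
        change (algebraMap ℚ F q) • T c = _
        rw [eq_ratCast]
      exact h3.trans h4
    rw [← h2]
    exact h1
  · intro v hv v' hv'
    obtain ⟨c, hc, rfl⟩ := hmem v hv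
    obtain ⟨c', hc', rfl⟩ := hmem v' hv'
    rw [form_apply hb]
    exact L.rat X _
  · intro v hv h1
    obtain ⟨c, hc, rfl⟩ := hmem v hv
    have h2 := hD c hc fun d hd => by
      have h3 := h1 _ (hmem' d hd)
      rw [form_apply hb] at h3
      exact h3
    funext i
    exact congrArg ModuleCat.Hom.hom (h2 i)
  · intro v hv
    obtain ⟨c, hc, rfl⟩ := hmem v hv
    have h1 := form_apply hb c a
    rw [ha c] at h1
    exact h1

/-- The action of the endomorphisms of `X` on the homology of `X`. -/
@[instance_reducible]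
def actionOnH (L : Laws R) (X : C) (i : ℤ) : Module (End X) ((R.H i).obj X) where
  smul a x := ((R.H i).map a).hom x
  one_smul x := by
    change ((R.H i).map (𝟙 X)).hom x = x
    rw [CategoryTheory.Functor.map_id]
    rfl
  mul_smul a b x := by
    change ((R.H i).map (b ≫ a : X ⟶ X)).hom x = ((R.H i).map a).hom (((R.H i).map b).hom x)
    rw [CategoryTheory.Functor.map_comp]
    rfl
  smul_zero a := map_zero _
  smul_add a x y := map_add _ x y
  add_smul a b x := by
    change ((R.H i).map (a + b : X ⟶ X)).hom x = ((R.H i).map a).hom x + ((R.H i).map b).hom x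
    rw [L.add i X X a b]
    rfl
  zero_smul x := by
    change ((R.H i).map (0 : X ⟶ X)).hom x = 0
    rw [map_zero' L i X X]
    rfl

theorem nilpotent_of (L : Laws R) (horb : FiniteOrbits G) (hρ : Equivariant G)
    (hnil : FixedNilpotent G) (a : End X) (ha : HomTriv R a) : IsNilpotent a := by
  let e : ℕ ≃ ℤ := Equiv.intEquivNat.symm
  let _ : ∀ j : ℕ, Module (End X) ((R.H (e j)).obj X) := fun j => actionOnH L X (e j)
  have hiff : ∀ b : End X, GenericMembers.HomTrivial
      (fun j : ℕ => ((R.H (e j)).obj X : Type)) b ↔ HomTriv R b := by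
    intro b
    constructor
    · intro h i
      obtain ⟨j, rfl⟩ := e.surjective i
      ext x
      exact h j x
    · intro h j x
      change ((R.H (e j)).map b).hom x = 0
      rw [h (e j)]
      rfl
  have h := (GenericMembers.result (A := End X) (Γ := G.Γ) (fun _ : ℕ => PUnit.{1})
    (fun j : ℕ => ((R.H (e j)).obj X : Type)) 0 horb
    (fun γ b hb => (hiff _).2 (homTriv_smul hρ γ b ((hiff b).1 hb))) (by
      obtain ⟨m, hm⟩ := hnil
      exact ⟨m, fun l hl h => hm l hl fun b hb => ⟨(hiff b).1 (h b hb).1, (h b hb).2⟩⟩)).1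
  exact h a ((hiff a).2 ha)

theorem radTriv_summand {M : C} (hM : IsSummand M X)
    (h : ∀ a : End X, HomTriv R a → IsNilpotent a) (n : End M) (hn : HomTriv R n) :
    IsNilpotent n := by
  obtain ⟨i, p, hip⟩ := hM
  let a : End X := p ≫ n ≫ i
  obtain ⟨k, hk⟩ := h a (triv_comp_right p (triv_comp_left hn i))
  refine ⟨k, ?_⟩
  have h1 : ∀ k : ℕ, i ≫ (a ^ k : End X) = (n ^ k : End M) ≫ i := by
    intro k
    induction k with
    | zero =>
      rw [pow_zero, pow_zero]
      change i ≫ 𝟙 X = 𝟙 M ≫ i
      rw [Category.comp_id, Category.id_comp]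
    | succ k ih =>
      rw [pow_succ', pow_succ']
      change i ≫ (a ^ k : End X) ≫ (p ≫ n ≫ i) = ((n ^ k : End M) ≫ n) ≫ i
      rw [← Category.assoc, ih, Category.assoc, ← Category.assoc i, hip, Category.id_comp,
        Category.assoc]
  have h2 := h1 k
  rw [hk] at h2
  have h3 : (n ^ k : End M) = ((n ^ k : End M) ≫ i) ≫ p := by
    rw [Category.assoc, hip]
    exact (Category.comp_id _).symm
  rw [h3, ← h2]
  change (i ≫ (0 : X ⟶ X)) ≫ p = (0 : M ⟶ M)
  rw [Limits.comp_zero, Limits.zero_comp]

theorem numHom_left (L : Laws R) {M N : C} (hM : IsSummand M X) (h : NumHom R X N) :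
    NumHom R M N := by
  obtain ⟨i, p, hip⟩ := hM
  intro f hf
  have h1 : HomTriv R (p ≫ f) := by
    refine h _ fun g => ?_
    rw [Category.assoc, str_comm L, Category.assoc]
    exact hf _
  have h2 : f = i ≫ p ≫ f := by rw [← Category.assoc, hip, Category.id_comp]
  rw [h2]
  exact triv_comp_right i h1

theorem numHom_right {M N Z : C} (hN : IsSummand N Z) (h : NumHom R M Z) :
    NumHom R M N := by
  obtain ⟨i, p, hip⟩ := hN
  intro f hf
  have h1 : HomTriv R (f ≫ i) := by
    refine h _ fun g => ?_
    rw [Category.assoc]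
    exact hf _
  have h2 : f = (f ≫ i) ≫ p := by rw [Category.assoc, hip, Category.comp_id]
  rw [h2]
  exact triv_comp_left h1 p

end

/-- The splitting conjecture for the motives generated by a very general member of a family with big
monodromy. -/
theorem result [CharZero F] (L : Laws R) (G : Action R X) (hG : Big G) :
    (∀ M : C, IsSummand M X → NilTriv R M) ∧
    (∀ M N : C, IsSummand M X → IsSummand N X → NumHom R M N) ∧
    (∀ M N : C, IsSummand M X → NumHom R X N → AllSplit R M N) ∧
    (∀ M N : C, IsSummand M X → IsSummand N X → AllSplit R M N) := by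
  have h1 : ∀ a : End X, HomTriv R a → IsNilpotent a :=
    nilpotent_of L hG.orbits hG.equivariant hG.nilp
  have h2 : NumHom R X X := fun f hf => numHom_of L hG.orbits hG.equivariant hG.num hG.mono f hf
  have h3 : ∀ M N : C, IsSummand M X → NumHom R X N → ∀ f : M ⟶ N, InjH R f → Splits f := by
    intro M N hM hN f hf
    refine (Conservativity.result R L).1 M (numHom_left L hM (numHom_right hM h2)) ?_ N
      (numHom_left L hM hN) f hf
    intro n hn
    have h4 := (radTriv_summand hM h1 n hn).isUnit_one_sub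
    exact (isUnit_iff_isIso _).1 h4
  exact ⟨fun M hM => radTriv_summand hM h1,
    fun M N hM hN => numHom_left L hM (numHom_right hN h2),
    h3, fun M N hM hN => h3 M N hM (numHom_right hN h2)⟩

end Pool.Agent.Results.MP_a147f7_ag.VeryGeneral
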